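import Pool.Agent.SYS.Lib.Typ

/-!
# Project SYS (MP_650813_pr), block XP: expansion of large connected sets of faces (definitions).  DO NOT CHANGE.

`T` is a triangulation of a set of darts `D`.  A set of faces is a set `Y` of darts which is invariant
under `T.f` (`Fs`).  `bdy T Y`: boundary darts.  `DC T Y`: `Y` is connected (its faces through their
common edges).  `nb T Y`: `Y` and all faces which have a common edge with `Y`.
`fam c T`: the sets of at most half of the faces with at most `c` boundary darts per face, connected,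
with connected complement.  `vol`: total size of the members of `fam` with at least `3 s` darts.
-/

namespace SYS.XP

open Classical SST

variable {D : Type}

/-- `Y` is a set of faces. -/
def Fs (T : Tri D) (Y : Set D) : Prop := ∀ d, T.f d ∈ Y ↔ d ∈ Y

/-- Boundary darts of `Y`. -/
def bdy (T : Tri D) (Y : Set D) : Set D := {d | d ∈ Y ∧ T.a d ∉ Y}

/-- `Y` is connected through edges. -/
def DC (T : Tri D) (Y : Set D) : Prop :=
  ∀ Z ⊆ Y, Z.Nonempty → (∀ d ∈ Z, T.f d ∈ Z) → (∀ d ∈ Z, T.a d ∈ Y → T.a d ∈ Z) → Z = Y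

/-- `Y` and the adjacent faces. -/
def nb (T : Tri D) (Y : Set D) : Set D :=
  {d | d ∈ Y ∨ T.a d ∈ Y ∨ T.a (T.f d) ∈ Y ∨ T.a (T.f (T.f d)) ∈ Y}

/-- A cut of the surface into two connected nonempty sets of faces. -/
structure Cut2 (T : Tri D) (Y : Set D) : Prop where
  fs : Fs T Y
  dc : DC T Y
  dc' : DC T Yᶜ
  ne : Y.Nonempty
  ne' : Yᶜ.Nonempty

/-- Sets of at most half of the faces with a small boundary. -/
def fam (c : ℝ) (T : Tri D) : Set (Set D) :=
  {Y | Cut2 T Y ∧ 2 * Y.ncard ≤ Nat.card D ∧ ((bdy T Y).ncard : ℝ) ≤ c * Y.ncard}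

/-- Total size of the members of `fam c T` with at least `3 s` darts. -/
noncomputable def vol [Fintype D] (c : ℝ) (s : ℕ) (T : Tri D) : ℝ :=
  ∑ Y : Set D, if Y ∈ fam c T ∧ 3 * s ≤ Y.ncard then (Y.ncard : ℝ) else 0

/-- Pairs of maps with `d` and `2n - d` triangles and the same `p` boundary darts in the same holes,
total genus `g`. -/
noncomputable def EE (n g d p : ℕ) : ℝ :=
  ∑ P : p.Partition, ∑ h ∈ Finset.range (g + 1), ∑ h' ∈ Finset.range (g + 1),
    if h + h' + Multiset.card P.parts = g + 1 then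
      Num.muG P.parts d h * Num.muG P.parts (2 * n - d) h' else 0

/-- Connected regions with the faces of `W` (`d` triangles), holes with perimeters `P` and genus `h`
(`2 V + 4 h + 2 #P = 4 + d + |P|` for `V = inn + |P|`). -/
def SS (W : Set D) (d : ℕ) (P : Multiset ℕ) (h : ℕ) [Finite D] : Set (Part D) :=
  {S | S.R = W ∧ S.Con ∧ (∃ l, S.HL l ∧ ((l.map S.per : List ℕ) : Multiset ℕ) = P) ∧
    2 * S.inn + P.sum + 4 * h + 2 * Multiset.card P = 4 + d}

/-- Gluing of the holes `P` (darts `c`, range `H`, boundary successor `η`) to the boundary darts `b` of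
`S`: `α` is `S.a` with `b z ↔ c z`. -/
structure Glu [Finite D] (S : Part D) (P : List ℕ) (H : Set D) (η : Equiv.Perm D)
    (c b : (Σ i : Fin P.length, Fin (P.get i)) → D) (α : Equiv.Perm D) : Prop where
  disj : Disjoint S.R H
  ci : Function.Injective c
  cr : Set.range c = H
  eta_off : ∀ d ∉ H, η d = d
  eta : ∀ (i : Fin P.length) (k : Fin (P.get i)), η (c ⟨i, k⟩) = c ⟨i, finRotate (P.get i) k⟩
  bi : Function.Injective b
  br : Set.range b = S.B
  nx : ∀ (i : Fin P.length) (k : Fin (P.get i)), S.nx (b ⟨i, finRotate (P.get i) k⟩) = b ⟨i, k⟩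
  aa : ∀ d, α (α d) = d
  ab : ∀ z, α (b z) = c z
  ac : ∀ z, α (c z) = b z
  a_in : ∀ d, d ∉ S.B → d ∉ H → α d = S.a d

/-- The part of `T` with the faces of `Y`. -/
noncomputable def cut (T : Tri D) (Y : Set D) (h : Fs T Y) : Part D :=
  Part.subPart T Y {d | d ∈ Y ∧ T.a d ∈ Y} h
    (fun d => ⟨fun h => ⟨by have := h.2; rwa [T.aa] at this, h.1⟩, fun h => ⟨h.2, by rw [T.aa]; exact h.1⟩⟩)
    (fun _ h => h.1)

end SYS.XP
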