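import Pool.Agent.SYS.XP.Defs

/-!
# SYS-XP-Comp: the components of the complement of a connected set of faces

The classes of the equivalence relation generated by `e = T.f d` and `e = T.a d` off `Y`.
-/

namespace SYS.XP

open Classical SST

variable {D : Type} [Finite D]

private def cr (T : Tri D) (Y : Set D) (d e : D) : Prop :=
  d ∉ Y ∧ (e = T.f d ∨ (T.a d ∉ Y ∧ e = T.a d))

private def cz (T : Tri D) (Y : Set D) (x : D) : Set D := {e | Relation.EqvGen (cr T Y) x e}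

omit [Finite D] in
/-- A set which is saturated for the generators is saturated. -/
private theorem cr_sat {T : Tri D} {Y A : Set D} (h : ∀ u v, cr T Y u v → (u ∈ A ↔ v ∈ A)) {x y : D}
    (hxy : Relation.EqvGen (cr T Y) x y) : x ∈ A ↔ y ∈ A := by
  induction hxy with
  | rel u v huv => exact h u v huv
  | refl u => exact Iff.rfl
  | symm u v _ ih => exact ih.symm
  | trans u v w _ _ ih1 ih2 => exact ih1.trans ih2

omit [Finite D] in
private theorem cr_Y {T : Tri D} {Y : Set D} (h1 : Fs T Y) : ∀ u v, cr T Y u v → (u ∈ Y ↔ v ∈ Y) := by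
  rintro u v ⟨hu, rfl | ⟨hv, rfl⟩⟩
  · exact (h1 u).symm
  · exact ⟨fun h => absurd h hu, fun h => absurd h hv⟩

omit [Finite D] in
private theorem cz_self {T : Tri D} {Y : Set D} (x : D) : x ∈ cz T Y x := Relation.EqvGen.refl x

omit [Finite D] in
private theorem cz_sub {T : Tri D} {Y : Set D} (h1 : Fs T Y) {x : D} (hx : x ∉ Y) : cz T Y x ⊆ Yᶜ :=
  fun _ he hY => hx ((cr_sat (cr_Y h1) he).2 hY)

omit [Finite D] in
private theorem cz_eq {T : Tri D} {Y : Set D} {x y : D} (h : y ∈ cz T Y x) : cz T Y y = cz T Y x := by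
  ext e
  exact ⟨fun h' => Relation.EqvGen.trans _ _ _ h h',
    fun h' => Relation.EqvGen.trans _ _ _ (Relation.EqvGen.symm _ _ h) h'⟩

omit [Finite D] in
private theorem cz_r {T : Tri D} {Y : Set D} {x u v : D} (h : cr T Y u v) : u ∈ cz T Y x ↔ v ∈ cz T Y x :=
  ⟨fun h' => Relation.EqvGen.trans _ _ _ h' (Relation.EqvGen.rel _ _ h),
    fun h' => Relation.EqvGen.trans _ _ _ h' (Relation.EqvGen.symm _ _ (Relation.EqvGen.rel _ _ h))⟩

omit [Finite D] in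
private theorem cz_f {T : Tri D} {Y : Set D} (h1 : Fs T Y) {x : D} (hx : x ∉ Y) : Fs T (cz T Y x) := by
  intro d
  constructor
  · intro h
    have h2 : T.f d ∉ Y := cz_sub h1 hx h
    have h3 : d ∉ Y := fun h4 => h2 ((h1 d).2 h4)
    exact (cz_r ⟨h3, Or.inl rfl⟩).2 h
  · intro h
    exact (cz_r ⟨cz_sub h1 hx h, Or.inl rfl⟩).1 h

omit [Finite D] in
/-- Outside of the class lies `Y`. -/
private theorem cz_a {T : Tri D} {Y : Set D} (h1 : Fs T Y) {x : D} (hx : x ∉ Y) {d : D} (hd : d ∈ cz T Y x)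
    (hd' : T.a d ∉ cz T Y x) : T.a d ∈ Y := by
  by_contra h
  exact hd' ((cz_r ⟨cz_sub h1 hx hd, Or.inr ⟨h, rfl⟩⟩).1 hd)

omit [Finite D] in
private theorem cz_out {T : Tri D} (hT : T.Conn) {Y : Set D} (h1 : Fs T Y) (h3 : Y.Nonempty) {x : D} (hx : x ∉ Y) :
    ∃ u ∈ cz T Y x, T.a u ∈ Y := by
  by_contra h
  have h4 : cz T Y x = Set.univ := by
    refine hT _ ⟨x, cz_self x⟩ fun d hd => ⟨?_, (cz_f h1 hx d).2 hd⟩
    by_contra h5
    exact h ⟨d, hd, cz_a h1 hx hd h5⟩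
  obtain ⟨y, hy⟩ := h3
  have h5 : y ∈ cz T Y x := h4 ▸ Set.mem_univ y
  exact cz_sub h1 hx h5 hy

omit [Finite D] in
private theorem cz_dc {T : Tri D} {Y : Set D} (h1 : Fs T Y) {x : D} (hx : x ∉ Y) : DC T (cz T Y x) := by
  intro W hW hne hf ha
  have key : ∀ u v, cr T Y u v → (u ∈ W ↔ v ∈ W) := by
    rintro u v ⟨hu, rfl | ⟨hv, rfl⟩⟩
    · refine ⟨hf u, fun h => ?_⟩
      have := hf _ (hf _ h)
      rwa [T.fff] at this
    · refine ⟨fun h => ha u h ((cz_r ⟨hu, Or.inr ⟨hv, rfl⟩⟩).1 (hW h)), fun h => ?_⟩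
      have h2 := ha _ h
      rw [T.aa] at h2
      exact h2 ((cz_r ⟨hu, Or.inr ⟨hv, rfl⟩⟩).2 (hW h))
  obtain ⟨w, hw⟩ := hne
  refine Set.Subset.antisymm hW fun e he => ?_
  refine (cr_sat key ?_).1 hw
  exact Relation.EqvGen.trans _ _ _ (Relation.EqvGen.symm _ _ (hW hw)) he

omit [Finite D] in
private theorem cz_dc' {T : Tri D} (hT : T.Conn) {Y : Set D} (h1 : Fs T Y) (h2 : DC T Y) (h3 : Y.Nonempty) {x : D}
    (hx : x ∉ Y) : DC T (cz T Y x)ᶜ := by
  intro A hA hne hf ha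
  have hYZ : ∀ y ∈ Y, y ∈ (cz T Y x)ᶜ := fun y hy h => cz_sub h1 hx h hy
  have key : ∀ u v, cr T Y u v → (u ∈ A ↔ v ∈ A) := by
    rintro u v huv
    by_cases huZ : u ∈ cz T Y x
    · exact ⟨fun h => absurd huZ (hA h), fun h => absurd ((cz_r huv).1 huZ) (hA h)⟩
    have hvZ : v ∉ cz T Y x := fun h => huZ ((cz_r huv).2 h)
    obtain ⟨hu, rfl | ⟨hv, rfl⟩⟩ := huv
    · refine ⟨hf u, fun h => ?_⟩
      have := hf _ (hf _ h)
      rwa [T.fff] at this
    · refine ⟨fun h => ha u h hvZ, fun h => ?_⟩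
      have h4 := ha _ h
      rw [T.aa] at h4
      exact h4 huZ
  have hYA : Y ⊆ A := by
    by_cases hAY : (A ∩ Y).Nonempty
    · have h4 := h2 (A ∩ Y) Set.inter_subset_right hAY
        (fun d hd => ⟨hf d hd.1, (h1 d).2 hd.2⟩) (fun d hd h5 => ⟨ha d hd.1 (hYZ _ h5), h5⟩)
      intro y hy
      rw [← h4] at hy
      exact hy.1
    · exfalso
      obtain ⟨d, hd⟩ := hne
      have hdY : d ∉ Y := fun h => hAY ⟨d, hd, h⟩
      obtain ⟨u, hu, hu'⟩ := cz_out hT h1 h3 hdY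
      have huA : u ∈ A := (cr_sat key hu).1 hd
      exact hAY ⟨T.a u, ha u huA (hYZ _ hu'), hu'⟩
  refine Set.Subset.antisymm hA fun e he => ?_
  by_cases heY : e ∈ Y
  · exact hYA heY
  obtain ⟨u, hu, hu'⟩ := cz_out hT h1 h3 heY
  have huZ : u ∈ (cz T Y x)ᶜ := by
    intro h
    apply he
    have h4 := cz_eq hu
    have h5 := cz_eq h
    have h6 : e ∈ cz T Y e := cz_self e
    rw [← h4, h5] at h6
    exact h6
  have h4 := ha _ (hYA hu')
  rw [T.aa] at h4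
  exact (cr_sat key hu).2 (h4 huZ)

theorem comps {T : Tri D} (hT : T.Conn) {Y : Set D} (h1 : Fs T Y) (h2 : DC T Y) (h3 : Y.Nonempty) :
    ∃ 𝓩 : Finset (Set D), (∀ Z ∈ 𝓩, Cut2 T Z ∧ Z ⊆ Yᶜ ∧ bdy T Zᶜ ⊆ bdy T Y) ∧
      ∑ Z ∈ 𝓩, Z.ncard = Yᶜ.ncard ∧ ∑ Z ∈ 𝓩, (bdy T Z).ncard = (bdy T Y).ncard := by
  obtain ⟨s, hs⟩ : ∃ s : Finset D, s = (Set.toFinite Yᶜ).toFinset := ⟨_, rfl⟩
  have hms : ∀ d, d ∈ s ↔ d ∉ Y := by
    intro d
    rw [hs, Set.Finite.mem_toFinset, Set.mem_compl_iff]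
  refine ⟨s.image (cz T Y), ?_, ?_, ?_⟩
  · intro Z hZ
    obtain ⟨x, hx, rfl⟩ := Finset.mem_image.1 hZ
    rw [hms] at hx
    refine ⟨⟨cz_f h1 hx, cz_dc h1 hx, cz_dc' hT h1 h2 h3 hx, ⟨x, cz_self x⟩, ?_⟩, cz_sub h1 hx, ?_⟩
    · obtain ⟨y, hy⟩ := h3
      exact ⟨y, fun h => cz_sub h1 hx h hy⟩
    · rintro d ⟨hd, hd'⟩
      rw [Set.mem_compl_iff, not_not] at hd'
      have h4 := cz_a h1 hx hd' (by rw [T.aa]; exact hd)
      rw [T.aa] at h4
      exact ⟨h4, cz_sub h1 hx hd'⟩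
  · have h4 := Finset.card_eq_sum_card_fiberwise (f := cz T Y) (s := s) (t := s.image (cz T Y))
      (fun d hd => Finset.mem_coe.2 (Finset.mem_image_of_mem _ (Finset.mem_coe.1 hd)))
    have h5 : Yᶜ.ncard = s.card := by
      rw [Set.ncard_eq_toFinset_card _ (Set.toFinite _), hs]
    rw [h5, h4]
    refine Finset.sum_congr rfl fun Z hZ => ?_
    obtain ⟨x, hx, rfl⟩ := Finset.mem_image.1 hZ
    rw [hms] at hx
    rw [← Set.ncard_coe_finset]
    congr 1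
    ext d
    rw [Finset.mem_coe, Finset.mem_filter, hms]
    constructor
    · intro hd
      exact ⟨cz_sub h1 hx hd, cz_eq hd⟩
    · rintro ⟨-, hd⟩
      rw [← hd]
      exact cz_self d
  · obtain ⟨s', hs'⟩ : ∃ s' : Finset D, s' = s.filter fun d => T.a d ∈ Y := ⟨_, rfl⟩
    have h4 := Finset.card_eq_sum_card_fiberwise (f := cz T Y) (s := s') (t := s.image (cz T Y))
      (fun d hd => by
        rw [hs'] at hd
        exact Finset.mem_coe.2 (Finset.mem_image_of_mem _ (Finset.mem_filter.1 (Finset.mem_coe.1 hd)).1))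
    have h5 : (bdy T Y).ncard = s'.card := by
      rw [← Set.ncard_coe_finset, ← Set.ncard_image_of_injective (bdy T Y) T.a.injective]
      congr 1
      ext d
      rw [Finset.mem_coe, hs', Finset.mem_filter, hms]
      constructor
      · rintro ⟨e, ⟨he, he'⟩, rfl⟩
        refine ⟨he', ?_⟩
        rw [T.aa]
        exact he
      · rintro ⟨hd, hd'⟩
        refine ⟨T.a d, ⟨hd', ?_⟩, T.aa d⟩
        rw [T.aa]
        exact hd
    rw [h5, h4]
    refine Finset.sum_congr rfl fun Z hZ => ?_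
    obtain ⟨x, hx, rfl⟩ := Finset.mem_image.1 hZ
    rw [hms] at hx
    rw [← Set.ncard_coe_finset]
    congr 1
    ext d
    rw [Finset.mem_coe, Finset.mem_filter, hs', Finset.mem_filter, hms]
    constructor
    · rintro ⟨hd, hd'⟩
      exact ⟨⟨cz_sub h1 hx hd, cz_a h1 hx hd hd'⟩, cz_eq hd⟩
    · rintro ⟨⟨-, hd'⟩, hd⟩
      rw [← hd]
      refine ⟨cz_self d, fun h => ?_⟩
      rw [hd] at h
      exact cz_sub h1 hx h hd'

end SYS.XP
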