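import Pool.Agent.SYS.XP.Defs

/-!
# SYS-XP-Cut: the region `cut T Y`
-/

namespace SYS.XP

open Classical SST

variable {D : Type}

theorem cut_R (T : Tri D) (Y : Set D) (h : Fs T Y) : (cut T Y h).R = Y := Part.subPart_R _ _ _ _ _ _

theorem cut_B (T : Tri D) (Y : Set D) (h : Fs T Y) : (cut T Y h).B = bdy T Y := by
  unfold cut
  rw [Part.subPart_B]
  ext d
  constructor
  · rintro ⟨h1, h2⟩
    exact ⟨h1, fun h3 => h2 ⟨h1, h3⟩⟩
  · rintro ⟨h1, h2⟩
    exact ⟨h1, fun h3 => h2 h3.2⟩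

theorem cut_le (T : Tri D) (Y : Set D) (h : Fs T Y) : (cut T Y h).Le T := Part.subPart_le _ _ _ _ _ _

private theorem cut_f {T : Tri D} {Y : Set D} (h : Fs T Y) {d : D} (hd : d ∈ Y) : (cut T Y h).f d = T.f d :=
  restr_mem T.f h hd

private theorem cut_a {T : Tri D} {Y : Set D} (h : Fs T Y) {d : D} (hd : d ∈ Y) (hd' : T.a d ∈ Y) :
    (cut T Y h).a d = T.a d :=
  restr_mem T.a (Y := {d | d ∈ Y ∧ T.a d ∈ Y})
    (fun d => ⟨fun h => ⟨by have := h.2; rwa [T.aa] at this, h.1⟩, fun h => ⟨h.2, by rw [T.aa]; exact h.1⟩⟩)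
    ⟨hd, hd'⟩

theorem cut_con {T : Tri D} {Y : Set D} (h : Cut2 T Y) : (cut T Y h.fs).Con := by
  intro x hx e he
  rw [cut_R] at hx he
  have h1 := h.dc {e | e ∈ Y ∧ (cut T Y h.fs).Cn x e} (fun e he => he.1) ⟨x, hx, Part.cn_refl _ _⟩ ?_ ?_
  · rw [← h1] at he
    exact he.2
  · rintro d ⟨hd, hd2⟩
    refine ⟨(h.fs d).2 hd, Part.cn_trans hd2 ?_⟩
    have h2 := Part.cn_f (cut T Y h.fs) d
    rwa [cut_f h.fs hd] at h2
  · rintro d ⟨hd, hd2⟩ hd3
    refine ⟨hd3, Part.cn_trans hd2 ?_⟩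
    have h2 := Part.cn_a (cut T Y h.fs) d
    rwa [cut_a h.fs hd hd3] at h2

theorem cut_hconn [Finite D] {T : Tri D} {Y : Set D} (h : Cut2 T Y) : (cut T Y h.fs).HConn T := by
  have hX : ∀ d, d ∈ Yᶜ → d ∈ (cut T Y h.fs).X := by
    intro d hd
    refine Or.inl ?_
    rw [cut_R]
    exact hd
  have hR : ∀ d, d ∈ Yᶜ → d ∉ (cut T Y h.fs).R := by
    intro d hd
    rw [cut_R]
    exact hd
  have key : ∀ x ∈ Yᶜ, ∀ e ∈ Yᶜ, (cut T Y h.fs).Hc T x e := by
    intro x hx e he
    have h1 := h.dc' {e | e ∈ Yᶜ ∧ (cut T Y h.fs).Hc T x e} (fun e he => he.1)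
      ⟨x, hx, Part.hc_refl _ _ _⟩ ?_ ?_
    · rw [← h1] at he
      exact he.2
    · rintro d ⟨hd, hd2⟩
      refine ⟨fun h2 => hd ((h.fs d).1 h2), Part.hc_trans hd2 (Part.hc_f (hR d hd))⟩
    · rintro d ⟨hd, hd2⟩ hd3
      exact ⟨hd3, Part.hc_trans hd2 (Part.hc_a (hX d hd))⟩
  have key2 : ∀ d ∈ (cut T Y h.fs).X, ∃ e ∈ Yᶜ, (cut T Y h.fs).Hc T d e := by
    intro d hd
    rcases hd with hd | hd
    · rw [cut_R] at hd
      exact ⟨d, hd, Part.hc_refl _ _ _⟩
    · have h2 := hd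
      rw [cut_B] at h2
      exact ⟨T.a d, h2.2, Part.hc_a (Or.inr hd)⟩
  intro d hd e he
  obtain ⟨d', hd', h1⟩ := key2 d hd
  obtain ⟨e', he', h2⟩ := key2 e he
  exact Part.hc_trans h1 (Part.hc_trans (key d' hd' e' he') (Part.hc_symm h2))

theorem bdy_ne {T : Tri D} (hT : T.Conn) {Y : Set D} (h : Cut2 T Y) : (bdy T Y).Nonempty := by
  by_contra hcon
  rw [Set.not_nonempty_iff_eq_empty] at hcon
  have h1 := hT Y h.ne fun d hd => ⟨?_, (h.fs d).2 hd⟩
  · obtain ⟨d, hd⟩ := h.ne'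
    rw [h1] at hd
    exact hd (Set.mem_univ d)
  · by_contra h2
    have h3 : d ∈ bdy T Y := ⟨hd, h2⟩
    rw [hcon] at h3
    exact h3

private theorem bdy_img (T : Tri D) (Y : Set D) : T.a '' bdy T Y = bdy T Yᶜ := by
  ext d
  constructor
  · rintro ⟨e, ⟨h1, h2⟩, rfl⟩
    refine ⟨h2, ?_⟩
    rw [T.aa]
    exact fun h3 => h3 h1
  · rintro ⟨h1, h2⟩
    refine ⟨T.a d, ⟨?_, ?_⟩, T.aa d⟩
    · by_contra h3
      exact h2 h3
    · rw [T.aa]
      exact h1

theorem bdy_compl [Finite D] (T : Tri D) (Y : Set D) : (bdy T Yᶜ).ncard = (bdy T Y).ncard := by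
  rw [← bdy_img, Set.ncard_image_of_injective _ T.a.injective]

theorem bdy_le [Finite D] (T : Tri D) (Y : Set D) : (bdy T Y).ncard ≤ Yᶜ.ncard := by
  rw [← bdy_compl]
  exact Set.ncard_le_ncard (fun d hd => hd.1) (Set.toFinite _)

theorem cut2_compl {T : Tri D} {Y : Set D} (h : Cut2 T Y) : Cut2 T Yᶜ := by
  refine ⟨fun d => not_congr (h.fs d), h.dc', ?_, h.ne', ?_⟩
  · rw [compl_compl]
    exact h.dc
  · rw [compl_compl]
    exact h.ne

theorem fs_three [Finite D] {T : Tri D} {Y : Set D} (h : Fs T Y) : ∃ d : ℕ, Y.ncard = 3 * d := by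
  have key : ∀ (n : ℕ) (Y : Set D), Y.ncard = n → Fs T Y → ∃ d : ℕ, Y.ncard = 3 * d := by
    intro n
    induction n using Nat.strong_induction_on with
    | _ n ih =>
      intro Y hn hY
      rcases Set.eq_empty_or_nonempty Y with h0 | ⟨x, hx⟩
      · exact ⟨0, by rw [h0, Set.ncard_empty]⟩
      · have hx1 : T.f x ∈ Y := (hY x).2 hx
        have hx2 : T.f (T.f x) ∈ Y := (hY _).2 hx1
        obtain ⟨A, hA⟩ : ∃ A : Set D, A = {x, T.f x, T.f (T.f x)} := ⟨_, rfl⟩
        have hAY : A ⊆ Y := by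
          rw [hA]
          rintro d (rfl | rfl | rfl)
          · exact hx
          · exact hx1
          · exact hx2
        have h12 : x ≠ T.f x := (T.fne x).symm
        have h23 : T.f x ≠ T.f (T.f x) := (T.fne _).symm
        have h13 : x ≠ T.f (T.f x) := by
          intro h1
          have h2 := T.fff x
          rw [← h1] at h2
          exact T.fne x h2
        have hA3 : A.ncard = 3 := by
          rw [hA, Set.ncard_eq_three]
          exact ⟨x, T.f x, T.f (T.f x), h12, h13, h23, rfl⟩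
        have hAf : ∀ d, T.f d ∈ A ↔ d ∈ A := by
          intro d
          rw [hA]
          constructor
          · rintro (h1 | h1 | h1)
            · right; right
              apply T.f.injective
              show T.f d = T.f (T.f (T.f x))
              rw [T.fff, h1]
            · left
              exact T.f.injective h1
            · right; left
              exact T.f.injective h1
          · rintro (rfl | rfl | rfl)
            · exact Or.inr (Or.inl rfl)
            · exact Or.inr (Or.inr rfl)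
            · left
              exact T.fff x
        have h3 : (Y \ A).ncard + 3 = Y.ncard := by
          rw [← hA3]
          exact Set.ncard_sdiff_add_ncard_of_subset hAY (Set.toFinite _)
        obtain ⟨d, hd⟩ := ih (Y \ A).ncard (by omega) (Y \ A) rfl fun d => by
          show (T.f d ∈ Y ∧ T.f d ∉ A) ↔ (d ∈ Y ∧ d ∉ A)
          rw [hY d, hAf d]
        exact ⟨d + 1, by omega⟩
  exact key _ Y rfl h

end SYS.XP
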