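import Pool.Agent.SYS.XP.NTrm
import Pool.Agent.SYS.XP.Defs

/-!
# SYS-XP-NEE: bound for `EE`

At most `2^p (d + 2)` terms, each bounded by `trm`.
-/

namespace SYS.XP

open Real

private theorem nee_nu (n g : ℕ) : 0 ≤ SST.nu n g := by
  unfold SST.nu
  positivity

private theorem nee_sum {n g d p : ℕ} {B : ℝ} (hB : 0 ≤ B) (hpd : p ≤ d) (hp : 1 ≤ p)
    (h : ∀ (P : p.Partition) (k k' : ℕ), k + k' + Multiset.card P.parts = g + 1 →
      Num.muG P.parts d k * Num.muG P.parts (2 * n - d) k' ≤ B) :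
    EE n g d p ≤ 2 ^ p * ((d + 2 : ℕ) * B) := by
  unfold EE
  have hP : ∀ P : p.Partition, ∑ k ∈ Finset.range (g + 1), ∑ k' ∈ Finset.range (g + 1),
      (if k + k' + Multiset.card P.parts = g + 1 then
        Num.muG P.parts d k * Num.muG P.parts (2 * n - d) k' else 0) ≤ (d + 2 : ℕ) * B := by
    intro P
    have hk : ∀ k ∈ Finset.range (g + 1), ∑ k' ∈ Finset.range (g + 1),
        (if k + k' + Multiset.card P.parts = g + 1 then
          Num.muG P.parts d k * Num.muG P.parts (2 * n - d) k' else 0) ≤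
        if k < d + 2 then B else 0 := by
      intro k _
      by_cases hkd : k < d + 2
      · rw [if_pos hkd]
        have h1 : ∑ k' ∈ Finset.range (g + 1),
            (if k + k' + Multiset.card P.parts = g + 1 then
              Num.muG P.parts d k * Num.muG P.parts (2 * n - d) k' else 0) ≤
            ∑ k' ∈ Finset.range (g + 1), if k' = g + 1 - k - Multiset.card P.parts then B else 0 := by
          refine Finset.sum_le_sum fun k' _ => ?_
          by_cases hc : k + k' + Multiset.card P.parts = g + 1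
          · rw [if_pos hc, if_pos (by omega)]
            exact h P k k' hc
          · rw [if_neg hc]
            split_ifs
            · exact hB
            · exact le_rfl
        refine h1.trans ?_
        rw [Finset.sum_ite_eq']
        split_ifs
        · exact le_rfl
        · exact hB
      · rw [if_neg hkd]
        refine le_of_eq (Finset.sum_eq_zero fun k' _ => ?_)
        split_ifs with hc
        · have h0 : Num.muG P.parts d k = 0 := by
            unfold Num.muG
            rw [if_neg]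
            rintro ⟨-, h1⟩
            rw [P.parts_sum] at h1
            omega
          rw [h0, zero_mul]
        · rfl
    refine (Finset.sum_le_sum hk).trans ?_
    rw [← Finset.sum_filter, Finset.sum_const, nsmul_eq_mul]
    refine mul_le_mul_of_nonneg_right ?_ hB
    have h2 : (Finset.filter (fun k => k < d + 2) (Finset.range (g + 1))).card ≤ d + 2 := by
      have h3 : Finset.filter (fun k => k < d + 2) (Finset.range (g + 1)) ⊆ Finset.range (d + 2) := by
        intro k hk
        rw [Finset.mem_filter] at hk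
        exact Finset.mem_range.2 hk.2
      exact (Finset.card_le_card h3).trans (le_of_eq (Finset.card_range _))
    exact_mod_cast h2
  refine (Finset.sum_le_sum fun P _ => hP P).trans ?_
  rw [Finset.sum_const, nsmul_eq_mul, Finset.card_univ]
  refine mul_le_mul_of_nonneg_right ?_ (mul_nonneg (Nat.cast_nonneg _) hB)
  exact_mod_cast card_part p

theorem ee_le {θ x : ℝ} (h : Num.Par θ x) : ∃ c c2 K : ℝ, 0 < c ∧ c ≤ 1 ∧ 0 < c2 ∧ 0 < K ∧ ∀ᶠ q in RB.Fth θ,
    ∀ d p : ℕ, 1 ≤ p → (p : ℝ) ≤ c * d → d ≤ q.1 →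
      EE q.1 q.2 d p ≤ K * q.1 * exp (-c2 * d) * SST.nu q.1 q.2 := by
  obtain ⟨c, c3, K, A, δ, N0, hc, hc1, hc3, hK, hA, hδ, ht⟩ := trm h
  have h2A : 0 < log (2 * A) := log_pos (by linarith)
  obtain ⟨c', hc'⟩ : ∃ c' : ℝ, c' = min c (c3 / (4 * log (2 * A))) := ⟨_, rfl⟩
  have hc'0 : 0 < c' := by
    rw [hc']
    exact lt_min hc (by positivity)
  have hc'c : c' ≤ c := by rw [hc']; exact min_le_left _ _
  have hc'l : c' * log (2 * A) ≤ c3 / 4 := by
    have h1 : c' ≤ c3 / (4 * log (2 * A)) := by rw [hc']; exact min_le_right _ _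
    rw [le_div_iff₀ (by positivity)] at h1
    linarith
  refine ⟨c', c3 / 2, K * (96 / c3 ^ 2), hc'0, hc'c.trans hc1, by positivity, by positivity, ?_⟩
  refine ev_of_win (N0 := N0) hδ ?_
  intro n g hn hg d p hp hpd hdn
  dsimp only at hdn ⊢
  have hd0 : (0 : ℝ) ≤ d := Nat.cast_nonneg d
  have hpd1 : (p : ℝ) ≤ c * d := hpd.trans (mul_le_mul_of_nonneg_right hc'c hd0)
  have hpd2 : p ≤ d := by
    have : (p : ℝ) ≤ d := by nlinarith
    exact_mod_cast this
  have hd1 : (1 : ℝ) ≤ d := by exact_mod_cast hp.trans hpd2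
  obtain ⟨ν, hν⟩ : ∃ ν : ℝ, ν = SST.nu n g := ⟨_, rfl⟩
  have hν0 : 0 ≤ ν := by rw [hν]; exact nee_nu n g
  have hA0 : 0 ≤ A := by linarith
  have h1 := nee_sum (n := n) (g := g) (d := d) (p := p)
    (B := K * n * d * A ^ p * exp (-c3 * d) * ν) (by positivity) hpd2 hp (by
      intro P k k' hkk
      rw [hν]
      exact ht n g d p P.parts k k' hn hg hp hpd1 hdn P.parts_sum (fun q hq => P.parts_pos hq) hkk)
  rw [← hν]
  refine h1.trans ?_
  have e1 : (2 * A) ^ p ≤ exp (c3 / 4 * d) := by
    have e2 : (2 * A) ^ p = exp (p * log (2 * A)) := by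
      rw [exp_nat_mul, exp_log (by linarith)]
    rw [e2]
    refine exp_le_exp.2 ?_
    calc (p : ℝ) * log (2 * A) ≤ c' * d * log (2 * A) := mul_le_mul_of_nonneg_right hpd h2A.le
      _ = c' * log (2 * A) * d := by ring
      _ ≤ c3 / 4 * d := mul_le_mul_of_nonneg_right hc'l hd0
  have e3 : ((d + 2 : ℕ) : ℝ) * d ≤ 96 / c3 ^ 2 * exp (c3 / 4 * d) := by
    have e4 := Real.quadratic_le_exp_of_nonneg (x := c3 / 4 * d) (by positivity)
    have e5 : ((d + 2 : ℕ) : ℝ) * d ≤ 3 * (d : ℝ) ^ 2 := by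
      push_cast
      nlinarith
    have e6 : 3 * (d : ℝ) ^ 2 = 96 / c3 ^ 2 * ((c3 / 4 * d) ^ 2 / 2) := by
      field_simp
      ring
    rw [e6] at e5
    refine e5.trans (mul_le_mul_of_nonneg_left ?_ (by positivity))
    have : 0 ≤ c3 / 4 * d := by positivity
    linarith
  have e7 : exp (c3 / 4 * d) * exp (c3 / 4 * d) * exp (-c3 * d) = exp (-(c3 / 2) * d) := by
    rw [← exp_add, ← exp_add]
    congr 1
    ring
  calc (2 : ℝ) ^ p * (((d + 2 : ℕ) : ℝ) * (K * n * d * A ^ p * exp (-c3 * d) * ν))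
      = K * n * ν * ((2 * A) ^ p * (((d + 2 : ℕ) : ℝ) * d) * exp (-c3 * d)) := by
        rw [mul_pow]
        ring
    _ ≤ K * n * ν * (exp (c3 / 4 * d) * (96 / c3 ^ 2 * exp (c3 / 4 * d)) * exp (-c3 * d)) := by
        refine mul_le_mul_of_nonneg_left ?_ (by positivity)
        refine mul_le_mul_of_nonneg_right ?_ (exp_pos _).le
        exact mul_le_mul e1 e3 (by positivity) (exp_pos _).le
    _ = K * (96 / c3 ^ 2) * n * (exp (c3 / 4 * d) * exp (c3 / 4 * d) * exp (-c3 * d)) * ν := by ring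
    _ = _ := by rw [e7]

end SYS.XP
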