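import Pool.Agent.SYS.XP.Defs

/-!
# SYS-XP-Nb: neighbourhoods
-/

namespace SYS.XP

open Classical SST

variable {D : Type}

theorem nb_fs {T : Tri D} {Y : Set D} (h : Fs T Y) : Fs T (nb T Y) := by
  intro d
  show (T.f d ∈ Y ∨ T.a (T.f d) ∈ Y ∨ T.a (T.f (T.f d)) ∈ Y ∨ T.a (T.f (T.f (T.f d))) ∈ Y) ↔
    (d ∈ Y ∨ T.a d ∈ Y ∨ T.a (T.f d) ∈ Y ∨ T.a (T.f (T.f d)) ∈ Y)
  rw [T.fff, h d]
  tauto

theorem sub_nb (T : Tri D) (Y : Set D) : Y ⊆ nb T Y := fun _ hd => Or.inl hd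

theorem nb_dc {T : Tri D} {Y : Set D} (h : Fs T Y) (h' : DC T Y) : DC T (nb T Y) := by
  intro A hA hne hf ha
  have hf1 : ∀ d, T.f d ∈ A → d ∈ A := by
    intro d hd
    have := hf _ (hf _ hd)
    rwa [T.fff] at this
  -- a dart of the face of `e` whose opposite is in `Y`
  have hdart : ∀ e ∈ nb T Y, e ∉ Y → ∃ d, T.a d ∈ Y ∧ (e ∈ A ↔ d ∈ A) ∧ d ∈ nb T Y := by
    intro e he heY
    rcases he with h1 | h1 | h1 | h1
    · exact absurd h1 heY
    · exact ⟨e, h1, Iff.rfl, Or.inr (Or.inl h1)⟩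
    · refine ⟨T.f e, h1, ⟨fun h2 => hf _ h2, fun h2 => hf1 _ h2⟩, Or.inr (Or.inl h1)⟩
    · refine ⟨T.f (T.f e), h1, ⟨fun h2 => hf _ (hf _ h2), fun h2 => hf1 _ (hf1 _ h2)⟩,
        Or.inr (Or.inl h1)⟩
  have hAY : (A ∩ Y).Nonempty := by
    obtain ⟨e, he⟩ := hne
    by_cases heY : e ∈ Y
    · exact ⟨e, he, heY⟩
    · obtain ⟨d, h1, h2, -⟩ := hdart e (hA he) heY
      exact ⟨T.a d, ha d (h2.1 he) (Or.inl h1), h1⟩
  have hYA : Y ⊆ A := by
    have h1 := h' (A ∩ Y) (fun d hd => hd.2) hAY (fun d hd => ⟨hf d hd.1, (h d).2 hd.2⟩)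
      (fun d hd hd2 => ⟨ha d hd.1 (Or.inl hd2), hd2⟩)
    intro d hd
    rw [← h1] at hd
    exact hd.1
  refine Set.Subset.antisymm hA ?_
  intro e he
  by_cases heY : e ∈ Y
  · exact hYA heY
  · obtain ⟨d, h1, h2, h3⟩ := hdart e he heY
    refine h2.2 ?_
    have h4 := ha (T.a d) (hYA h1) (by rw [T.aa]; exact h3)
    rwa [T.aa] at h4

theorem nb_card [Finite D] (T : Tri D) (Y : Set D) : Y.ncard + (bdy T Y).ncard ≤ (nb T Y).ncard := by
  have h1 : (T.a '' bdy T Y).ncard = (bdy T Y).ncard := Set.ncard_image_of_injective _ T.a.injective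
  have h2 : Disjoint Y (T.a '' bdy T Y) := by
    rw [Set.disjoint_left]
    rintro d hd ⟨e, he, rfl⟩
    exact he.2 hd
  rw [← h1, ← Set.ncard_union_eq h2 (Set.toFinite _) (Set.toFinite _)]
  refine Set.ncard_le_ncard ?_ (Set.toFinite _)
  rintro d (hd | ⟨e, he, rfl⟩)
  · exact Or.inl hd
  · refine Or.inr (Or.inl ?_)
    rw [T.aa]
    exact he.1

theorem nbk_fs {T : Tri D} {Y : Set D} (h : Fs T Y) (k : ℕ) : Fs T ((nb T)^[k] Y) := by
  induction k with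
  | zero => exact h
  | succ k ih =>
    rw [Function.iterate_succ_apply']
    exact nb_fs ih

theorem nbk_dc {T : Tri D} {Y : Set D} (h : Fs T Y) (h' : DC T Y) (k : ℕ) : DC T ((nb T)^[k] Y) := by
  induction k with
  | zero => exact h'
  | succ k ih =>
    rw [Function.iterate_succ_apply']
    exact nb_dc (nbk_fs h k) ih

end SYS.XP
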