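import Mathlib

/-!
# SYS-XP-Iter: two kinds of steps (real numbers)
-/

namespace SYS.XP

theorem iter {x : ℕ → ℝ} {N L v η c c' : ℝ} (hx : Monotone x) (hL : 0 < L) (h0 : L ≤ x 0) (hN : ∀ k, x k ≤ N)
    (hη : 0 < η) (hv0 : 0 ≤ v) (hv : v ≤ η * N) (hc : 0 < c) (hc' : 0 < c') (hc1 : c' < 1)
    (hs : ∀ k, (1 + c) * x k ≤ x (k + 1) ∨ N - x (k + 1) - v ≤ (1 - c') * (N - x k - v)) {m : ℕ}
    (hm : Real.log (N / L) / Real.log (1 + c) + Real.log (1 / η) / (-Real.log (1 - c')) < m) :
    N - x m ≤ 2 * η * N := by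
  by_contra hcon
  rw [not_le] at hcon
  have hNpos : 0 < N := lt_of_lt_of_le hL (h0.trans (hN 0))
  have hc2 : 0 < 1 - c' := by linarith
  have ind : ∀ k : ℕ, ∃ a b : ℕ, a + b = k ∧ (1 + c) ^ a * L ≤ x k ∧ N - x k - v ≤ (1 - c') ^ b * N := by
    intro k
    induction k with
    | zero => exact ⟨0, 0, rfl, by rw [pow_zero, one_mul]; exact h0, by rw [pow_zero, one_mul]; linarith⟩
    | succ k ih =>
      obtain ⟨a, b, hab, h1, h2⟩ := ih
      have hmono := hx (Nat.le_succ k)
      rcases hs k with h | h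
      · refine ⟨a + 1, b, by omega, ?_, by linarith⟩
        calc (1 + c) ^ (a + 1) * L = (1 + c) * ((1 + c) ^ a * L) := by ring
          _ ≤ (1 + c) * x k := mul_le_mul_of_nonneg_left h1 (by linarith)
          _ ≤ x (k + 1) := h
      · refine ⟨a, b + 1, by omega, h1.trans hmono, ?_⟩
        calc N - x (k + 1) - v ≤ (1 - c') * (N - x k - v) := h
          _ ≤ (1 - c') * ((1 - c') ^ b * N) := mul_le_mul_of_nonneg_left h2 hc2.le
          _ = (1 - c') ^ (b + 1) * N := by ring
  obtain ⟨a, b, hab, h1, h2⟩ := ind m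
  have hlc : 0 < Real.log (1 + c) := Real.log_pos (by linarith)
  have hlc' : 0 < -Real.log (1 - c') := by
    have := Real.log_neg hc2 (by linarith)
    linarith
  have ha : (a : ℝ) ≤ Real.log (N / L) / Real.log (1 + c) := by
    rw [le_div_iff₀ hlc, ← Real.log_pow]
    refine Real.log_le_log (pow_pos (by linarith) a) ?_
    rw [le_div_iff₀ hL]
    exact h1.trans (hN m)
  have hb : (b : ℝ) ≤ Real.log (1 / η) / (-Real.log (1 - c')) := by
    rw [le_div_iff₀ hlc']
    have h3 : η * N < (1 - c') ^ b * N := by linarith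
    have h4 : η < (1 - c') ^ b := lt_of_mul_lt_mul_right h3 hNpos.le
    have h5 := Real.log_lt_log hη h4
    rw [Real.log_pow] at h5
    rw [one_div, Real.log_inv]
    linarith
  have hm' : (m : ℝ) = a + b := by exact_mod_cast hab.symm
  linarith

end SYS.XP
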