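import Pool.Agent.SYS.XP.Grow
import Pool.Agent.SYS.XP.Iter

/-!
# SYS-XP-Det: the neighbourhoods of a large connected set cover almost everything (deterministic)
-/

namespace SYS.XP

open Classical SST

theorem det {D : Type} [Fintype D] {T : Tri D} (hT : T.Conn) {c η L : ℝ} {s : ℕ} (hc : 0 < c) (hs : 1 ≤ s)
    (hη : 0 < η) (hL0 : 0 < L) (hL : ∀ Z ∈ fam c T, (Z.ncard : ℝ) < L) (hv : vol c s T ≤ η * Nat.card D) {Y : Set D}
    (h1 : Fs T Y) (h2 : DC T Y) (h4 : L ≤ Y.ncard) {m : ℕ}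
    (hm : Real.log (Nat.card D / L) / Real.log (1 + c) +
      Real.log (1 / η) / (-Real.log (1 - min c (1 / (3 * s)))) < m) :
    ((((nb T)^[m] Y)ᶜ.ncard : ℕ) : ℝ) ≤ 2 * η * Nat.card D := by
  have hs1 : (1 : ℝ) ≤ s := by exact_mod_cast hs
  have hc' : 0 < min c (1 / (3 * (s : ℝ))) := lt_min hc (by positivity)
  have hc1 : min c (1 / (3 * (s : ℝ))) < 1 := by
    refine lt_of_le_of_lt (min_le_right _ _) ?_
    rw [div_lt_one (by positivity)]
    linarith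
  have hvol0 : 0 ≤ vol c s T := by
    unfold vol
    refine Finset.sum_nonneg fun Z _ => ?_
    split_ifs
    · exact Nat.cast_nonneg _
    · exact le_rfl
  have hcompl : ∀ A : Set D, ((Aᶜ.ncard : ℕ) : ℝ) = (Nat.card D : ℝ) - (A.ncard : ℝ) := by
    intro A
    have h5 : ((A.ncard : ℕ) : ℝ) + ((Aᶜ.ncard : ℕ) : ℝ) = Nat.card D := by
      exact_mod_cast Set.ncard_add_ncard_compl A
    linarith
  have hmono : Monotone fun k : ℕ => ((((nb T)^[k] Y).ncard : ℕ) : ℝ) := by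
    refine monotone_nat_of_le_succ fun k => ?_
    rw [Function.iterate_succ_apply']
    exact_mod_cast Set.ncard_le_ncard (sub_nb T _) (Set.toFinite _)
  have hN : ∀ k : ℕ, ((((nb T)^[k] Y).ncard : ℕ) : ℝ) ≤ (Nat.card D : ℝ) := by
    intro k
    have h5 := hcompl ((nb T)^[k] Y)
    have h6 : (0 : ℝ) ≤ ((((nb T)^[k] Y)ᶜ.ncard : ℕ) : ℝ) := Nat.cast_nonneg _
    linarith
  have hstep : ∀ k : ℕ, (1 + c) * ((((nb T)^[k] Y).ncard : ℕ) : ℝ) ≤ ((((nb T)^[k + 1] Y).ncard : ℕ) : ℝ) ∨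
      (Nat.card D : ℝ) - ((((nb T)^[k + 1] Y).ncard : ℕ) : ℝ) - vol c s T ≤
        (1 - min c (1 / (3 * (s : ℝ)))) * ((Nat.card D : ℝ) - ((((nb T)^[k] Y).ncard : ℕ) : ℝ) - vol c s T) := by
    intro k
    have h5 : L ≤ ((((nb T)^[k] Y).ncard : ℕ) : ℝ) := h4.trans (hmono (Nat.zero_le k))
    have h6 : ((nb T)^[k] Y).Nonempty := by
      rw [← Set.ncard_pos (Set.toFinite _)]
      have h7 : (0 : ℝ) < ((((nb T)^[k] Y).ncard : ℕ) : ℝ) := lt_of_lt_of_le hL0 h5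
      exact_mod_cast h7
    have h7 := grow hT hc hs hL (nbk_fs h1 k) (nbk_dc h1 h2 k) h6 h5
    rw [Function.iterate_succ_apply']
    rw [hcompl, hcompl] at h7
    exact h7
  have hfin := iter (x := fun k : ℕ => ((((nb T)^[k] Y).ncard : ℕ) : ℝ)) (N := Nat.card D) (L := L)
    (v := vol c s T) (η := η) (c := c) (c' := min c (1 / (3 * (s : ℝ)))) hmono hL0 h4 hN hη hvol0 hv hc hc' hc1
    hstep hm
  rw [hcompl]
  exact hfin

end SYS.XP
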