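import Pool.Agent.SYS.XP.PbB
import Pool.Agent.SYS.XP.Det

/-!
# SYS-XP-Main: EXPANSION: the neighbourhoods of a large connected set of faces cover almost everything after few steps

`bad_le` and `det` with `η / 12`.
-/

namespace SYS.XP

open Classical SST Real

theorem exp_main {θ x : ℝ} (h : Num.Par θ x) {η δ : ℝ} (hη : 0 < η) (hδ : 0 < δ) :
    ∃ C : ℝ, 0 < C ∧ ∀ e : ℝ, 0 < e → e < 1 / 2 → ∀ᶠ q in RB.Fth θ,
      (({T : Tri (Fin (6 * q.1)) | T ∈ Trn q.1 q.2 ∧ ¬ ∀ Y : Set (Fin (6 * q.1)), Fs T Y → DC T Y →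
        (q.1 : ℝ) ^ (1 - 2 * e) ≤ Y.ncard → ∀ k : ℕ, C * (e * log q.1 + 1) ≤ k →
          (((((nb T)^[k] Y)ᶜ.ncard : ℕ)) : ℝ) ≤ η * q.1}.ncard : ℕ) : ℝ) ≤ δ * (Trn q.1 q.2).ncard := by
  obtain ⟨c, hc, hc1, hbad⟩ := bad_le h
  obtain ⟨s, hs, hb⟩ := hbad (η / 12) δ (by positivity) hδ
  set c' : ℝ := min c (1 / (3 * (s : ℝ))) with hc'
  set A : ℝ := 1 / log (1 + c) with hA
  set B : ℝ := log (1 / (η / 12)) / (-log (1 - c')) with hB
  have hA0 : 0 < A := by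
    rw [hA]
    have : 0 < log (1 + c) := Real.log_pos (by linarith)
    positivity
  have hl6 : 0 ≤ log 6 := Real.log_nonneg (by norm_num)
  refine ⟨(2 + log 6) * A + |B| + 1, by positivity, fun e he he2 => ?_⟩
  filter_upwards [hb e he he2, RB.ge_ev θ 1] with q hq hq1
  refine le_trans ?_ hq
  rw [Nat.cast_le]
  refine Set.ncard_le_ncard ?_ (Set.toFinite _)
  rintro T ⟨hT, hneg⟩
  refine ⟨hT, fun hgood => hneg ?_⟩
  obtain ⟨hvol, hfam⟩ := hgood
  intro Y h1 h2 h4 k hk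
  have hn : (0 : ℝ) < q.1 := by exact_mod_cast hq1
  have hn1 : (1 : ℝ) ≤ q.1 := by exact_mod_cast hq1
  have hcard : (Nat.card (Fin (6 * q.1)) : ℝ) = 6 * q.1 := by
    rw [Nat.card_eq_fintype_card, Fintype.card_fin]
    push_cast
    ring
  have hL0 : (0 : ℝ) < (q.1 : ℝ) ^ (1 - 2 * e) := Real.rpow_pos_of_pos hn _
  have hlog : log ((Nat.card (Fin (6 * q.1)) : ℝ) / (q.1 : ℝ) ^ (1 - 2 * e)) =
      log 6 + 2 * e * log q.1 := by
    rw [hcard, Real.log_div (by positivity) hL0.ne', Real.log_mul (by norm_num) hn.ne',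
      Real.log_rpow hn]
    ring
  have hln : 0 ≤ log (q.1 : ℝ) := Real.log_nonneg hn1
  have hm : log ((Nat.card (Fin (6 * q.1)) : ℝ) / (q.1 : ℝ) ^ (1 - 2 * e)) / log (1 + c) +
      log (1 / (η / 12)) / (-log (1 - min c (1 / (3 * (s : ℝ))))) < k := by
    rw [hlog, div_eq_mul_one_div (log 6 + 2 * e * log q.1), ← hA, ← hc', ← hB]
    refine lt_of_lt_of_le ?_ hk
    have hel : 0 ≤ e * log q.1 := by positivity
    have hBB : B ≤ |B| := le_abs_self B
    have h5 : 0 ≤ (log 6 * A + |B| + 1) * (e * log q.1) := by positivity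
    have h6 : (2 + log 6) * A + |B| + 1 = (log 6 * A + |B| + 1) + 2 * A := by ring
    rw [h6]
    nlinarith [h5, hA0]
  have hfin := det hT.1 hc hs (η := η / 12) (by positivity) hL0 hfam (by rw [hcard]; exact hvol)
    h1 h2 h4 hm
  rw [hcard] at hfin
  linarith

end SYS.XP
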