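import Pool.Agent.SYS.XP.Defs

/-!
# SYS-XP-GlV: number of vertices after gluing the holes: the inner vertices and one for every boundary dart

The first return of `S.f * η * α` to `S.B` is the identity; the other cycles are the cycles of `S.s` without boundary darts.
-/

namespace SYS.XP

open Classical SST

variable {D : Type} [Finite D]

private theorem gv_nat {τ : Equiv.Perm D} {u v : D} (h : τ.SameCycle u v) : ∃ n : ℕ, (τ ^ n) u = v := by
  obtain ⟨n, hn⟩ := h.exists_pow_eq'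
  exact ⟨n, hn.2⟩

omit [Finite D] in
private theorem gv_pow {τ : Equiv.Perm D} (u : D) (n : ℕ) : τ.SameCycle u ((τ ^ n) u) :=
  ⟨n, by rw [zpow_natCast]⟩

private theorem gv_union (σ : Equiv.Perm D) {A B : Set D} (h : ∀ d ∈ A, ∀ e ∈ B, ¬ σ.SameCycle d e) :
    ncycOn σ (A ∪ B) = ncycOn σ A + ncycOn σ B := by
  show ((Quotient.mk (Equiv.Perm.SameCycle.setoid σ)) '' (A ∪ B)).ncard =
    ((Quotient.mk (Equiv.Perm.SameCycle.setoid σ)) '' A).ncard +
      ((Quotient.mk (Equiv.Perm.SameCycle.setoid σ)) '' B).ncard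
  rw [Set.image_union, Set.ncard_union_eq ?_ (Set.toFinite _) (Set.toFinite _)]
  rw [Set.disjoint_left]
  rintro _ ⟨d, hd, rfl⟩ ⟨e, he, h1⟩
  exact h d hd e he (Quotient.exact h1.symm)

private theorem gv_eq (σ : Equiv.Perm D) {A B : Set D} (h1 : ∀ d ∈ A, ∃ e ∈ B, σ.SameCycle d e)
    (h2 : ∀ d ∈ B, ∃ e ∈ A, σ.SameCycle d e) : ncycOn σ A = ncycOn σ B := by
  unfold ncycOn
  congr 1
  ext q
  constructor
  · rintro ⟨d, hd, rfl⟩
    obtain ⟨e, he, hs⟩ := h1 d hd
    exact ⟨e, he, Quotient.sound hs.symm⟩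
  · rintro ⟨d, hd, rfl⟩
    obtain ⟨e, he, hs⟩ := h2 d hd
    exact ⟨e, he, Quotient.sound hs.symm⟩

section

variable {S : Part D} {P : List ℕ} {H : Set D} {η : Equiv.Perm D}
  {c b : (Σ i : Fin P.length, Fin (P.get i)) → D} {α : Equiv.Perm D}

private theorem gv_bB (h : Glu S P H η c b α) (z) : b z ∈ S.B := by
  rw [← h.br]
  exact ⟨z, rfl⟩

private theorem gv_cH (h : Glu S P H η c b α) (z) : c z ∈ H := by
  rw [← h.cr]
  exact ⟨z, rfl⟩

private theorem gv_RH (h : Glu S P H η c b α) {d : D} (hd : d ∈ S.R) : d ∉ H :=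
  fun h1 => Set.disjoint_left.1 h.disj hd h1

private theorem gv_fH (h : Glu S P H η c b α) {d : D} (hd : d ∈ H) : S.f d = d := by
  by_contra h1
  exact gv_RH h (show d ∈ S.R from h1) hd

/-- on the darts of the region which are not boundary darts -/
private theorem gv_in (h : Glu S P H η c b α) {d : D} (hd : d ∈ S.R) (hB : d ∉ S.B) :
    (S.f * η * α) d = S.s d := by
  rw [Equiv.Perm.mul_apply, Equiv.Perm.mul_apply, h.a_in d hB (gv_RH h hd)]
  have h1 : S.a d ∈ S.R := (S.mem_R_a d).2 hd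
  rw [h.eta_off _ (gv_RH h h1)]
  rfl

private theorem gv_c (h : Glu S P H η c b α) (z) : (S.f * η * α) (c z) = S.s (b z) := by
  rw [Equiv.Perm.mul_apply, Equiv.Perm.mul_apply, h.ac z]
  have h1 : b z ∈ S.B := gv_bB h z
  rw [h.eta_off _ (gv_RH h (S.B_sub_R h1))]
  show S.f (b z) = S.f (S.a (b z))
  rw [h1.2]

private theorem gv_b (h : Glu S P H η c b α) (i : Fin P.length) (k : Fin (P.get i)) :
    (S.f * η * α) (b ⟨i, k⟩) = c ⟨i, finRotate (P.get i) k⟩ := by
  rw [Equiv.Perm.mul_apply, Equiv.Perm.mul_apply, h.ab, h.eta]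
  exact gv_fH h (gv_cH h _)

private theorem gv_ret (h : Glu S P H η c b α) {x : D} (hx : x ∈ S.B) : ret (S.f * η * α) S.B x = x := by
  have hx' := hx
  rw [← h.br] at hx'
  obtain ⟨⟨i, k⟩, rfl⟩ := hx'
  obtain ⟨y, hy⟩ : ∃ y, y = b ⟨i, finRotate (P.get i) k⟩ := ⟨_, rfl⟩
  have hyB : y ∈ S.B := by
    rw [hy]
    exact gv_bB h _
  have hny : S.nx y = b ⟨i, k⟩ := by
    rw [hy]
    exact h.nx i k
  obtain ⟨j, h1, h2, h3⟩ := ret_spec S.s hyB
  have h1' : b ⟨i, k⟩ = (S.s ^ (j + 1)) y := by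
    rw [← hny]
    exact h1
  have hR : ∀ t : ℕ, (S.s ^ t) y ∈ S.R := by
    intro t
    induction t with
    | zero => exact S.B_sub_R hyB
    | succ t ih =>
      rw [pow_succ', Equiv.Perm.mul_apply]
      exact (S.mem_R_s _).2 ih
  have key : ∀ t ≤ j, ((S.f * η * α) ^ (t + 2)) (b ⟨i, k⟩) = (S.s ^ (t + 1)) y := by
    intro t
    induction t with
    | zero =>
      intro _
      have e2 : ((S.f * η * α) ^ (0 + 2)) (b ⟨i, k⟩) =
          (S.f * η * α) ((S.f * η * α) (b ⟨i, k⟩)) := by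
        rw [zero_add, pow_two, Equiv.Perm.mul_apply]
      rw [e2, gv_b h, gv_c h, zero_add, pow_one, hy]
    | succ t ih =>
      intro ht
      have e2 : ((S.f * η * α) ^ (t + 1 + 2)) (b ⟨i, k⟩) =
          (S.f * η * α) (((S.f * η * α) ^ (t + 2)) (b ⟨i, k⟩)) := by
        rw [show t + 1 + 2 = (t + 2) + 1 by ring, pow_succ', Equiv.Perm.mul_apply]
      rw [e2, ih (by omega), gv_in h (hR _) (h3 t (by omega)), ← Equiv.Perm.mul_apply, ← pow_succ']
  have hfin : ((S.f * η * α) ^ (j + 1 + 1)) (b ⟨i, k⟩) = b ⟨i, k⟩ := by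
    rw [show j + 1 + 1 = j + 2 by ring, key j le_rfl, ← h1']
  rw [ret_eq (S.f * η * α) hx (j := j + 1) (by rw [hfin]; exact hx) ?_, hfin]
  intro t ht
  rcases t with _ | t
  · rw [zero_add, pow_one, gv_b h]
    exact fun h4 => gv_RH h (S.B_sub_R h4) (gv_cH h _)
  · rw [show t + 1 + 1 = t + 2 by ring, key t (by omega)]
    exact h3 t (by omega)

/-- the darts whose vertex has no boundary dart -/
private def gvN (S : Part D) : Set D := {d | d ∈ S.R ∧ ∀ e, S.s.SameCycle d e → e ∉ S.B}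

private theorem gv_N_s (S : Part D) (d : D) : S.s d ∈ gvN S ↔ d ∈ gvN S := by
  have h1 : S.s.SameCycle d (S.s d) := ⟨1, by rw [zpow_one]⟩
  constructor
  · rintro ⟨h2, h3⟩
    exact ⟨(S.mem_R_s d).1 h2, fun e he => h3 e (h1.symm.trans he)⟩
  · rintro ⟨h2, h3⟩
    exact ⟨(S.mem_R_s d).2 h2, fun e he => h3 e (h1.trans he)⟩

private theorem gv_N_in (h : Glu S P H η c b α) {d : D} (hd : d ∈ gvN S) : (S.f * η * α) d = S.s d :=
  gv_in h hd.1 (hd.2 d (Equiv.Perm.SameCycle.refl _ _))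

private theorem gv_N_pow (h : Glu S P H η c b α) {d : D} (hd : d ∈ gvN S) (n : ℕ) :
    ((S.f * η * α) ^ n) d ∈ gvN S := by
  induction n with
  | zero => exact hd
  | succ n ih =>
    rw [pow_succ', Equiv.Perm.mul_apply, gv_N_in h ih]
    exact (gv_N_s S _).2 ih

/-- a dart of the region whose vertex meets the boundary -/
private theorem gv_hit (h : Glu S P H η c b α) {d : D} (hd : d ∈ S.R) (hN : d ∉ gvN S) :
    ∃ e ∈ S.B, (S.f * η * α).SameCycle d e := by
  have h1 : ∃ e, S.s.SameCycle d e ∧ e ∈ S.B := by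
    by_contra hcon
    push Not at hcon
    exact hN ⟨hd, hcon⟩
  obtain ⟨e, he, heB⟩ := h1
  obtain ⟨n, hn⟩ := gv_nat he
  have hex : ∃ n : ℕ, (S.s ^ n) d ∈ S.B := ⟨n, by rw [hn]; exact heB⟩
  have hspec := Nat.find_spec hex
  have hmin := fun m => Nat.find_min hex (m := m)
  generalize Nat.find hex = m at *
  have hR : ∀ t : ℕ, (S.s ^ t) d ∈ S.R := by
    intro t
    induction t with
    | zero => exact hd
    | succ t ih =>
      rw [pow_succ', Equiv.Perm.mul_apply]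
      exact (S.mem_R_s _).2 ih
  have key : ∀ t ≤ m, ((S.f * η * α) ^ t) d = (S.s ^ t) d := by
    intro t
    induction t with
    | zero => intro _; rfl
    | succ t ih =>
      intro ht
      rw [pow_succ', Equiv.Perm.mul_apply, ih (by omega), gv_in h (hR t) (hmin t (by omega)),
        ← Equiv.Perm.mul_apply, ← pow_succ']
  refine ⟨(S.s ^ m) d, hspec, ?_⟩
  rw [← key m le_rfl]
  exact gv_pow d m

end

theorem glu_V {S : Part D} {P : List ℕ} {H : Set D} {η : Equiv.Perm D}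
    {c b : (Σ i : Fin P.length, Fin (P.get i)) → D} {α : Equiv.Perm D} (h : Glu S P H η c b α) :
    ncycOn (S.f * η * α) (S.R ∪ H) = S.inn + S.B.ncard := by
  have h1 : ncycOn (S.f * η * α) S.B = S.B.ncard := by
    rw [← ncycOn_ret, ncycOn_fix _ fun d hd => gv_ret h hd]
  have h2 : ncycOn (S.f * η * α) (S.R ∪ H) = ncycOn (S.f * η * α) (S.B ∪ gvN S) := by
    refine gv_eq _ ?_ ?_
    · rintro d (hd | hd)
      · by_cases hN : d ∈ gvN S
        · exact ⟨d, Or.inr hN, Equiv.Perm.SameCycle.refl _ _⟩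
        · obtain ⟨e, he, hs⟩ := gv_hit h hd hN
          exact ⟨e, Or.inl he, hs⟩
      · rw [← h.cr] at hd
        obtain ⟨⟨i, k⟩, rfl⟩ := hd
        refine ⟨b ⟨i, (finRotate (P.get i)).symm k⟩, Or.inl (gv_bB h _), ?_⟩
        refine Equiv.Perm.SameCycle.symm ⟨1, ?_⟩
        rw [zpow_one, gv_b h, Equiv.apply_symm_apply]
    · rintro d (hd | hd)
      · exact ⟨d, Or.inl (S.B_sub_R hd), Equiv.Perm.SameCycle.refl _ _⟩
      · exact ⟨d, Or.inl hd.1, Equiv.Perm.SameCycle.refl _ _⟩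
  have h3 : ncycOn (S.f * η * α) (S.B ∪ gvN S) =
      ncycOn (S.f * η * α) S.B + ncycOn (S.f * η * α) (gvN S) := by
    refine gv_union _ ?_
    intro d hd e he hs
    obtain ⟨n, hn⟩ := gv_nat hs.symm
    have h4 := gv_N_pow h he n
    rw [hn] at h4
    exact h4.2 d (Equiv.Perm.SameCycle.refl _ _) hd
  have h4 : ncycOn (S.f * η * α) (gvN S) = ncycOn S.s (gvN S) :=
    ncycOn_congr (gv_N_s S) fun d hd => gv_N_in h hd
  have h5 : ncycOn S.s S.R = ncycOn S.s (S.B ∪ gvN S) := by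
    refine gv_eq _ ?_ ?_
    · intro d hd
      by_cases hN : d ∈ gvN S
      · exact ⟨d, Or.inr hN, Equiv.Perm.SameCycle.refl _ _⟩
      · have h6 : ∃ e, S.s.SameCycle d e ∧ e ∈ S.B := by
          by_contra hcon
          push Not at hcon
          exact hN ⟨hd, hcon⟩
        obtain ⟨e, he, heB⟩ := h6
        exact ⟨e, Or.inl heB, he⟩
    · rintro d (hd | hd)
      · exact ⟨d, S.B_sub_R hd, Equiv.Perm.SameCycle.refl _ _⟩
      · exact ⟨d, hd.1, Equiv.Perm.SameCycle.refl _ _⟩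
  have h6 : ncycOn S.s (S.B ∪ gvN S) = ncycOn S.s S.B + ncycOn S.s (gvN S) := by
    refine gv_union _ ?_
    intro d hd e he hs
    exact he.2 d hs.symm hd
  have h7 := S.inn_eq
  omega

end SYS.XP
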