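import Pool.Agent.SYS.XP.GlB
import Pool.Agent.SYS.XP.GlV

/-!
# SYS-XP-SCnt: number of regions with given holes and genus

The holes of a region are glued to the darts of a fixed set with a fixed boundary successor; the resulting pairs of
permutations are maps on a fixed set and determine the region.
-/

namespace SYS.XP

open Classical SST

variable {D : Type} [Finite D]

private theorem card_sig (P : List ℕ) : Nat.card (Σ i : Fin P.length, Fin (P.get i)) = P.sum := by
  rw [Nat.card_eq_fintype_card, Fintype.card_sigma]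
  simp only [Fintype.card_fin]
  rw [← List.sum_ofFn, List.ofFn_get]

theorem hole_data (X : Set D) (P : List ℕ) (hP : ∀ p ∈ P, 0 < p) (hs : P.sum ≤ X.ncard) :
    ∃ (H : Set D) (η : Equiv.Perm D) (c : (Σ i : Fin P.length, Fin (P.get i)) → D), H ⊆ X ∧
      Function.Injective c ∧ Set.range c = H ∧ (∀ d ∉ H, η d = d) ∧
      ∀ (i : Fin P.length) (k : Fin (P.get i)), η (c ⟨i, k⟩) = c ⟨i, finRotate (P.get i) k⟩ := by
  have hX : Fintype X := Fintype.ofFinite _
  have h1 : Fintype.card (Σ i : Fin P.length, Fin (P.get i)) ≤ Fintype.card X := by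
    rw [← Nat.card_eq_fintype_card, ← Nat.card_eq_fintype_card, card_sig, Nat.card_coe_set_eq]
    exact hs
  obtain ⟨e⟩ := Function.Embedding.nonempty_of_card_le h1
  have hinj : Function.Injective fun z => (e z : D) := fun y z h => e.injective (Subtype.ext h)
  refine ⟨Set.range fun z => (e z : D),
    Equiv.Perm.viaEmbedding (Equiv.sigmaCongrRight fun i => finRotate (P.get i)) ⟨fun z => (e z : D), hinj⟩,
    fun z => (e z : D), ?_, hinj, rfl, ?_, ?_⟩
  · rintro _ ⟨z, rfl⟩
    exact (e z).2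
  · intro d hd
    exact Equiv.Perm.viaEmbedding_apply_of_notMem _ _ _ hd
  · intro i k
    exact Equiv.Perm.viaEmbedding_apply (Equiv.sigmaCongrRight fun i => finRotate (P.get i))
      ⟨fun z => (e z : D), hinj⟩ ⟨i, k⟩

private theorem univ_get (P : List ℕ) :
    Finset.univ.val.map (fun i : Fin P.length => P.get i) = (P : Multiset ℕ) := by
  rw [Fin.univ_val_map, List.ofFn_get]

private theorem per_pos (S : Part D) {x : D} (hx : x ∈ S.B) : 0 < S.per x := by
  have h1 : x ∈ S.hole x := ⟨hx, Equiv.Perm.SameCycle.refl _ _⟩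
  exact (Set.ncard_pos (Set.toFinite _)).2 ⟨x, h1⟩

theorem ss_euler {S : Part D} (hS : S.Con) {d : ℕ} (hd : S.R.ncard = 3 * d) (hR : S.R.Nonempty)
    (hB : S.B.ncard ≤ S.Rᶜ.ncard) {l : List D} (hl : S.HL l) :
    ∃ h : ℕ, 2 * S.inn + (l.map S.per).sum + 4 * h + 2 * l.length = 4 + d := by
  have hc := Part.hl_card hl
  obtain ⟨P, hP⟩ : ∃ P, P = l.map S.per := ⟨_, rfl⟩
  have hpos : ∀ p ∈ P, 0 < p := by
    intro p hp
    rw [hP] at hp
    obtain ⟨x, hx, rfl⟩ := List.mem_map.1 hp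
    exact per_pos S (hl.1 x hx)
  obtain ⟨H, η, c, hH, hci, hcr, hη, hcη⟩ := hole_data S.Rᶜ P hpos (by rw [hP, ← hc]; exact hB)
  have hdisj : Disjoint S.R H := Set.disjoint_left.2 fun x hx hxH => hH hxH hx
  obtain ⟨b, α, hg⟩ := glu_exists hl hP.symm hdisj hη hci hcr hcη
  have h1 := glu_pair hg hS
  rw [glu_V hg] at h1
  have hpc := pair_card hdisj hd hη (fun i : Fin P.length => P.get i) (fun i => hpos _ (List.get_mem P i)) c hci
    hcr hcη (S.inn + S.B.ncard)
  have hne : ({q : Equiv.Perm D × Equiv.Perm D | PairOn S.R H η (S.inn + S.B.ncard) q.1 q.2}.ncard) ≠ 0 := by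
    rw [Ne, Set.ncard_eq_zero (Set.toFinite _)]
    intro h
    have h2 : (S.f, α) ∈ {q : Equiv.Perm D × Equiv.Perm D | PairOn S.R H η (S.inn + S.B.ncard) q.1 q.2} := h1
    rw [h] at h2
    exact h2
  have hd0 : 0 < d := by
    have h2 := (Set.ncard_pos (Set.toFinite _)).2 hR
    omega
  rw [SYS.A.mu_eq _ _ _ (Or.inr hd0), univ_get] at hpc
  have h3 : (SYS.A.muP (P : Multiset ℕ) d).coeff (S.inn + S.B.ncard) ≠ 0 := by
    intro h
    rw [h, mul_zero] at hpc
    exact hne (by exact_mod_cast hpc)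
  obtain ⟨g, hgg⟩ := SYS.A.muP_euler h3
  rw [Multiset.sum_coe, Multiset.coe_card] at hgg
  refine ⟨g, ?_⟩
  have h4 : P.length = l.length := by rw [hP, List.length_map]
  rw [hc, ← hP, h4] at hgg
  rw [← hP]
  omega

private theorem perm_map {α : Type} (f : α → ℕ) : ∀ (P : List ℕ) (l : List α), (l.map f).Perm P →
    ∃ l', l.Perm l' ∧ l'.map f = P := by
  intro P
  induction P with
  | nil =>
    intro l h
    refine ⟨[], ?_, rfl⟩
    have h1 : l.map f = [] := h.eq_nil
    rw [List.map_eq_nil_iff.1 h1]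
  | cons p P ih =>
    intro l h
    have h1 : p ∈ l.map f := h.mem_iff.2 List.mem_cons_self
    obtain ⟨x, hx, hxp⟩ := List.mem_map.1 h1
    have h2 := List.perm_cons_erase hx
    have h3 : ((l.erase x).map f).Perm P := by
      have h4 := (h2.map f).symm.trans h
      rw [List.map_cons, hxp] at h4
      exact (List.perm_cons p).1 h4
    obtain ⟨l', h5, h6⟩ := ih _ h3
    exact ⟨x :: l', h2.trans (h5.cons x), by rw [List.map_cons, hxp, h6]⟩

private theorem muG_nn (P : Multiset ℕ) (F g : ℕ) : 0 ≤ Num.muG P F g := by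
  unfold Num.muG
  split_ifs
  · exact_mod_cast SYS.A.muP_nonneg P F _
  · exact le_refl _

/-- the gluing of a region determines it -/
private theorem glu_inj {S S' : Part D} {P : List ℕ} {H : Set D} {η : Equiv.Perm D}
    {c b b' : (Σ i : Fin P.length, Fin (P.get i)) → D} {α : Equiv.Perm D} (h : Glu S P H η c b α)
    (h' : Glu S' P H η c b' α) (hf : S.f = S'.f) : S = S' := by
  have hR : S.R = S'.R := by
    ext d
    show S.f d ≠ d ↔ S'.f d ≠ d
    rw [hf]
  have key : ∀ {S : Part D} {b : (Σ i : Fin P.length, Fin (P.get i)) → D}, Glu S P H η c b α → ∀ d,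
      d ∈ S.B ↔ d ∈ S.R ∧ α d ∈ H := by
    intro S b h d
    constructor
    · intro hd
      refine ⟨S.B_sub_R hd, ?_⟩
      rw [← h.br] at hd
      obtain ⟨y, rfl⟩ := hd
      rw [h.ab, ← h.cr]
      exact ⟨y, rfl⟩
    · rintro ⟨hd, hH⟩
      by_contra hB
      have hdH : d ∉ H := Set.disjoint_left.1 h.disj hd
      rw [h.a_in d hB hdH] at hH
      exact Set.disjoint_left.1 h.disj ((S.mem_R_a d).2 hd) hH
  refine Part.ext' ?_ hf
  apply Equiv.ext
  intro d
  have hBB : d ∈ S.B ↔ d ∈ S'.B := by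
    rw [key h, key h', hR]
  by_cases hB : d ∈ S.B
  · rw [hB.2, (hBB.1 hB).2]
  · by_cases hH : d ∈ H
    · have h1 : d ∉ S.R := fun hd => Set.disjoint_left.1 h.disj hd hH
      have h2 : d ∉ S'.R := fun hd => Set.disjoint_left.1 h'.disj hd hH
      rw [S.af d (not_not.1 h1), S'.af d (not_not.1 h2)]
    · rw [← h.a_in d hB hH, ← h'.a_in d (fun hh => hB (hBB.2 hh)) hH]

theorem ss_cnt {W : Set D} {d : ℕ} (hd : W.ncard = 3 * d) (hW : W.Nonempty) {P : Multiset ℕ}
    (hP : ∀ p ∈ P, 1 ≤ p) (hs : P.sum ≤ Wᶜ.ncard) (h : ℕ) :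
    (((SS W d P h).ncard : ℕ) : ℝ) ≤ ((3 * d).factorial : ℝ) * Num.muG P d h := by
  rcases Set.eq_empty_or_nonempty (SS W d P h) with he | ⟨S0, hS0⟩
  · rw [he, Set.ncard_empty, Nat.cast_zero]
    exact mul_nonneg (Nat.cast_nonneg _) (muG_nn P d h)
  obtain ⟨P', hP'⟩ : ∃ P', P' = P.toList := ⟨_, rfl⟩
  have hPP : (P' : Multiset ℕ) = P := by rw [hP', Multiset.coe_toList]
  have hsum : P'.sum = P.sum := by rw [← hPP, Multiset.sum_coe]
  have hpos : ∀ p ∈ P', 0 < p := by
    intro p hp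
    refine hP p ?_
    rw [← hPP]
    exact Multiset.mem_coe.2 hp
  obtain ⟨H, η, c, hH, hci, hcr, hη, hcη⟩ := hole_data Wᶜ P' hpos (by rw [hsum]; exact hs)
  have hdisj : Disjoint W H := Set.disjoint_left.2 fun x hx hxH => hH hxH hx
  have hex : ∀ S ∈ SS W d P h, ∃ l, S.HL l ∧ l.map S.per = P' := by
    rintro S ⟨_, _, ⟨l, hl, hlP⟩, _⟩
    have h1 : (l.map S.per).Perm P' := by
      rw [← Multiset.coe_eq_coe, hlP, hPP]
    obtain ⟨l', h2, h3⟩ := perm_map S.per P' l h1
    exact ⟨l', Part.hl_perm h2 hl, h3⟩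
  obtain ⟨V, hV⟩ : ∃ V, V = (4 + d + P.sum - 4 * h - 2 * Multiset.card P) / 2 := ⟨_, rfl⟩
  have hg : ∀ S ∈ SS W d P h, ∃ α, (∃ b, Glu S P' H η c b α) ∧ PairOn W H η V S.f α := by
    intro S hS
    obtain ⟨l, hl, hlP⟩ := hex S hS
    have hd' : Disjoint S.R H := by rw [hS.1]; exact hdisj
    obtain ⟨b, α, hgl⟩ := glu_exists hl hlP hd' hη hci hcr hcη
    refine ⟨α, ⟨b, hgl⟩, ?_⟩
    have h1 := glu_pair hgl hS.2.1
    rw [glu_V hgl, hS.1] at h1
    have h2 := Part.hl_card hl
    rw [hlP, hsum] at h2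
    have h3 := hS.2.2.2
    have h4 : V = S.inn + S.B.ncard := by
      rw [hV, h2]
      omega
    rw [h4]
    exact h1
  have hd0 : 0 < d := by
    have h2 := (Set.ncard_pos (Set.toFinite _)).2 hW
    omega
  have hpc := pair_card hdisj hd hη (fun i : Fin P'.length => P'.get i) (fun i => hpos _ (List.get_mem P' i)) c hci
    hcr hcη V
  rw [SYS.A.mu_eq _ _ _ (Or.inr hd0), univ_get, hPP] at hpc
  have hcard : (SS W d P h).ncard ≤ {q : Equiv.Perm D × Equiv.Perm D | PairOn W H η V q.1 q.2}.ncard := by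
    refine Set.ncard_le_ncard_of_injOn (fun S => (S.f, if hS : S ∈ SS W d P h then (hg S hS).choose else 1)) ?_ ?_
      (Set.toFinite _)
    · intro S hS
      show PairOn W H η V S.f (if hS : S ∈ SS W d P h then (hg S hS).choose else 1)
      rw [dif_pos hS]
      exact (hg S hS).choose_spec.2
    · intro S hS S' hS' hSS
      have h1 : S.f = S'.f := congrArg Prod.fst hSS
      have h2 : (if hS : S ∈ SS W d P h then (hg S hS).choose else 1) =
          (if hS : S' ∈ SS W d P h then (hg S' hS).choose else 1) := congrArg Prod.snd hSS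
      rw [dif_pos hS, dif_pos hS'] at h2
      obtain ⟨b, hb⟩ := (hg S hS).choose_spec.1
      obtain ⟨b', hb'⟩ := (hg S' hS').choose_spec.1
      rw [← h2] at hb'
      exact glu_inj hb hb' h1
  have h0 := hS0.2.2.2
  have hmu : Num.muG P d h = (((SYS.A.muP P d).coeff V : ℚ) : ℝ) := by
    unfold Num.muG
    obtain ⟨l, hl, hlP⟩ := hex S0 hS0
    rw [if_pos, hV]
    refine ⟨?_, by omega⟩
    rw [Nat.even_iff]
    omega
  rw [hmu]
  have h5 := congrArg (fun q : ℚ => (q : ℝ)) hpc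
  push_cast at h5
  rw [← h5]
  exact_mod_cast hcard

end SYS.XP
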