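import Pool.Agent.SYS.XP.Cut
import Pool.Agent.SYS.XP.SCnt

/-!
# SYS-XP-CTyp: type of the region `cut T Y`, number of the extensions
-/

namespace SYS.XP

open Classical SST

theorem ss_typ {D : Type} [Finite D] {W : Set D} {d F : ℕ} {P : Multiset ℕ} {h : ℕ} {S : Part D} (hS : S ∈ SS W d P h)
    (hW : W.ncard = 3 * d) (hD : Nat.card D = 3 * (d + F)) (hP : 1 ≤ Multiset.card P) :
    ∃ (l : List D) (P' : List ℕ), (P' : Multiset ℕ) = P ∧ S.Typ l P' F (h + Multiset.card P - 1) := by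
  obtain ⟨h1, h2, ⟨l, hl, hlP⟩, h3⟩ := hS
  have hlen : l.length = Multiset.card P := by
    rw [← hlP, Multiset.coe_card, List.length_map]
  have hsum : (l.map S.per).sum = P.sum := by
    rw [← hlP, Multiset.sum_coe]
  have hne : l ≠ [] := by
    intro h4
    rw [h4, List.length_nil] at hlen
    omega
  have hR : S.R.ncard = 3 * d := by rw [h1, hW]
  refine ⟨l, l.map S.per, hlP, hl, rfl, ?_, ?_, ?_, Or.inl hne⟩
  · rw [hR, hD]
    ring
  · intro x hx
    obtain ⟨e, he⟩ := List.exists_mem_of_ne_nil l hne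
    exact ⟨e, hl.1 e he, h2 x hx e (S.B_sub_R (hl.1 e he))⟩
  · rw [hR, hsum, hlen]
    omega

theorem ss_ext {n g d : ℕ} {W : Set (Fin (6 * n))} (hW : W.ncard = 3 * d) (hd : d ≤ 2 * n) {P : Multiset ℕ}
    (hP : 1 ≤ Multiset.card P) {h h' : ℕ} (hg : h + h' + Multiset.card P = g + 1) {S : Part (Fin (6 * n))}
    (hS : S ∈ SS W d P h) :
    (({T | T ∈ S.Ext g ∧ S.HConn T}.ncard : ℕ) : ℝ) =
      ((3 * (2 * n - d)).factorial : ℝ) * Num.muG P (2 * n - d) h' := by
  obtain ⟨l, P', hP', ht⟩ := ss_typ (F := 2 * n - d) hS hW (by rw [Nat.card_fin]; omega) hP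
  have h1 := Part.typ_card (h := h') ht
  have h2 : h' + (h + Multiset.card P - 1) = g := by omega
  rw [h2, hP'] at h1
  exact h1

theorem cut_mem {n g d p : ℕ} {T : Tri (Fin (6 * n))} (hT : T ∈ Trn n g) {Y : Set (Fin (6 * n))} (h : Cut2 T Y)
    (hd : Y.ncard = 3 * d) (hp : (bdy T Y).ncard = p) :
    ∃ (P : p.Partition) (k k' : ℕ), 1 ≤ Multiset.card P.parts ∧ k + k' + Multiset.card P.parts = g + 1 ∧
      cut T Y h.fs ∈ SS Y d P.parts k := by
  obtain ⟨S, hS⟩ : ∃ S, S = cut T Y h.fs := ⟨_, rfl⟩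
  have hR : S.R = Y := by rw [hS, cut_R]
  have hB : S.B = bdy T Y := by rw [hS, cut_B]
  have hC : S.Con := by
    rw [hS]
    exact cut_con h
  have hLe : S.Le T := by
    rw [hS]
    exact cut_le T Y h.fs
  have hH : S.HConn T := by
    rw [hS]
    exact cut_hconn h
  obtain ⟨l, hl⟩ := Part.hl_exists S
  have hsum : (l.map S.per).sum = p := by rw [← Part.hl_card hl, hB, hp]
  have hpos : ∀ x ∈ l, 0 < S.per x := by
    intro x hx
    have h1 : x ∈ S.hole x := ⟨hl.1 x hx, Equiv.Perm.SameCycle.refl _ _⟩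
    exact (Set.ncard_pos (Set.toFinite _)).2 ⟨x, h1⟩
  obtain ⟨k, hk⟩ := ss_euler hC (d := d) (by rw [hR, hd]) (by rw [hR]; exact h.ne)
    (by rw [hB, hR]; exact bdy_le T Y) hl
  have hne : l ≠ [] := by
    intro h1
    obtain ⟨x, hx⟩ := bdy_ne hT.1 h
    rw [← hB] at hx
    obtain ⟨e, he, _⟩ := hl.2.2 x hx
    rw [h1] at he
    exact List.not_mem_nil he
  have hlen : 1 ≤ l.length := List.length_pos_of_ne_nil hne
  let P : p.Partition :=
    { parts := (l.map S.per : List ℕ)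
      parts_pos := by
        intro i hi
        obtain ⟨x, hx, rfl⟩ := List.mem_map.1 (Multiset.mem_coe.1 hi)
        exact hpos x hx
      parts_sum := by rw [Multiset.sum_coe, hsum] }
  have hPp : P.parts = ((l.map S.per : List ℕ) : Multiset ℕ) := rfl
  have hcard : Multiset.card P.parts = l.length := by rw [hPp, Multiset.coe_card, List.length_map]
  have hSS : S ∈ SS Y d P.parts k := by
    refine ⟨hR, hC, ⟨l, hl, rfl⟩, ?_⟩
    rw [hcard, hPp, Multiset.sum_coe]
    exact hk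
  have hYn : 3 * d ≤ 6 * n := by
    rw [← hd]
    have h1 := Set.ncard_le_ncard (Set.subset_univ Y) (Set.toFinite _)
    rwa [Set.ncard_univ, Nat.card_fin] at h1
  obtain ⟨l', P', _, ht⟩ := ss_typ (F := 2 * n - d) hSS hd (by rw [Nat.card_fin]; omega) (by rw [hcard]; exact hlen)
  have hle := Part.typ_le (g := g) ht ⟨hT, hLe⟩ hH
  refine ⟨P, k, g + 1 - k - Multiset.card P.parts, by rw [hcard]; exact hlen, ?_, ?_⟩
  · rw [hcard] at hle ⊢
    omega
  · rw [← hS]
    exact hSS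

end SYS.XP
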