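import Pool.Agent.SYS.XP.SumE
import Pool.Agent.SYS.XP.CTyp

/-!
# SYS-XP-FMom: first moment for regions of given types

Union bound over the types, the sets of faces and the regions (`ss_ext`, `ss_cnt_free`).
-/

namespace SYS.XP

open Classical SST

private theorem fm_bU {ι α : Type*} [Finite α] (s : Finset ι) (t : ι → Set α) {A : Set α}
    (h : ∀ a ∈ A, ∃ i ∈ s, a ∈ t i) : A.ncard ≤ ∑ i ∈ s, (t i).ncard := by
  have h1 : A.ncard ≤ (s.biUnion fun i => (Set.toFinite (t i)).toFinset).card := by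
    rw [← Set.ncard_coe_finset]
    refine Set.ncard_le_ncard ?_ (Finset.finite_toSet _)
    intro a ha
    obtain ⟨i, hi, hai⟩ := h a ha
    rw [Finset.mem_coe, Finset.mem_biUnion]
    exact ⟨i, hi, (Set.Finite.mem_toFinset _).2 hai⟩
  refine h1.trans (Finset.card_biUnion_le.trans (Finset.sum_le_sum fun i _ => ?_))
  rw [Set.ncard_eq_toFinset_card _ (Set.toFinite _)]

private theorem fm_muG_nn (P : Multiset ℕ) (F g : ℕ) : 0 ≤ Num.muG P F g := by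
  unfold Num.muG
  split_ifs
  · exact_mod_cast SYS.A.muP_nonneg P F _
  · exact le_rfl

private theorem fm_one {n g d h h' : ℕ} (hd : 1 ≤ d) (hd' : d ≤ 2 * n) {P : Multiset ℕ} (hP : 1 ≤ Multiset.card P)
    (hP1 : ∀ p ∈ P, 1 ≤ p) (hk : h + h' + Multiset.card P = g + 1) {W : Set (Fin (6 * n))} (hW : W.ncard = 3 * d) :
    ((⋃ S ∈ SS W d P h, {T | T ∈ S.Ext g ∧ S.HConn T}).ncard : ℝ) ≤
      ((3 * d).factorial : ℝ) * ((3 * (2 * n - d)).factorial : ℝ) *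
        (Num.muG P d h * Num.muG P (2 * n - d) h') := by
  have hWne : W.Nonempty := by
    rw [← Set.ncard_pos, hW]
    omega
  have h1 := fm_bU (Set.toFinite (SS W d P h)).toFinset
    (fun S => {T | T ∈ S.Ext g ∧ S.HConn T})
    (A := ⋃ S ∈ SS W d P h, {T | T ∈ S.Ext g ∧ S.HConn T}) (by
      intro T hT
      rw [Set.mem_iUnion₂] at hT
      obtain ⟨S, hS, hT⟩ := hT
      exact ⟨S, (Set.Finite.mem_toFinset _).2 hS, hT⟩)
  have h2 : ((⋃ S ∈ SS W d P h, {T | T ∈ S.Ext g ∧ S.HConn T}).ncard : ℝ) ≤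
      ∑ S ∈ (Set.toFinite (SS W d P h)).toFinset,
        (({T | T ∈ S.Ext g ∧ S.HConn T}.ncard : ℕ) : ℝ) := by exact_mod_cast h1
  refine h2.trans ?_
  have h3 : ∀ S ∈ (Set.toFinite (SS W d P h)).toFinset,
      (({T | T ∈ S.Ext g ∧ S.HConn T}.ncard : ℕ) : ℝ) =
        ((3 * (2 * n - d)).factorial : ℝ) * Num.muG P (2 * n - d) h' := by
    intro S hS
    exact ss_ext hW hd' hP hk ((Set.Finite.mem_toFinset _).1 hS)
  rw [Finset.sum_congr rfl h3, Finset.sum_const, nsmul_eq_mul,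
    ← Set.ncard_eq_toFinset_card _ (Set.toFinite _)]
  have h4 := ss_cnt_free hW hWne hP1 h
  calc ((SS W d P h).ncard : ℝ) *
        (((3 * (2 * n - d)).factorial : ℝ) * Num.muG P (2 * n - d) h')
      ≤ (((3 * d).factorial : ℝ) * Num.muG P d h) *
        (((3 * (2 * n - d)).factorial : ℝ) * Num.muG P (2 * n - d) h') :=
        mul_le_mul_of_nonneg_right h4 (mul_nonneg (Nat.cast_nonneg _) (fm_muG_nn _ _ _))
    _ = _ := by ring

theorem fmom {n g : ℕ} (J : Finset (Multiset ℕ × ℕ × ℕ))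
    (hJ : ∀ j ∈ J, 1 ≤ Multiset.card j.1 ∧ (∀ p ∈ j.1, 1 ≤ p) ∧ 1 ≤ j.2.1 ∧ j.2.1 ≤ 2 * n ∧
      j.2.2 + Multiset.card j.1 ≤ g + 1) :
    (({T : Tri (Fin (6 * n)) | T ∈ Trn n g ∧ ∃ S : Part (Fin (6 * n)), S.Le T ∧ S.HConn T ∧
      ∃ j ∈ J, S.R.ncard = 3 * j.2.1 ∧ S ∈ SS S.R j.2.1 j.1 j.2.2}.ncard : ℕ) : ℝ) ≤
      ((6 * n).factorial : ℝ) * ∑ j ∈ J, Num.muG j.1 j.2.1 j.2.2 *
        Num.muG j.1 (2 * n - j.2.1) (g + 1 - j.2.2 - Multiset.card j.1) := by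
  obtain ⟨t, ht⟩ : ∃ t : Multiset ℕ × ℕ × ℕ → Set (Tri (Fin (6 * n))), t = fun j =>
    ⋃ i ∈ Finset.powersetCard (3 * j.2.1) (Finset.univ : Finset (Fin (6 * n))),
      ⋃ S ∈ SS (i : Set (Fin (6 * n))) j.2.1 j.1 j.2.2, {T | T ∈ S.Ext g ∧ S.HConn T} := ⟨_, rfl⟩
  have h1 := fm_bU J t
    (A := {T : Tri (Fin (6 * n)) | T ∈ Trn n g ∧ ∃ S : Part (Fin (6 * n)), S.Le T ∧ S.HConn T ∧
      ∃ j ∈ J, S.R.ncard = 3 * j.2.1 ∧ S ∈ SS S.R j.2.1 j.1 j.2.2}) (by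
      rintro T ⟨hT, S, hle, hh, j, hj, hR, hS⟩
      refine ⟨j, hj, ?_⟩
      rw [ht]
      dsimp only
      rw [Set.mem_iUnion₂]
      refine ⟨(Set.toFinite S.R).toFinset, ?_, ?_⟩
      · rw [Finset.mem_powersetCard]
        exact ⟨Finset.subset_univ _, by rw [← Set.ncard_eq_toFinset_card _ (Set.toFinite _), hR]⟩
      · have e : ((Set.toFinite S.R).toFinset : Set (Fin (6 * n))) = S.R := Set.Finite.coe_toFinset _
        rw [e, Set.mem_iUnion₂]
        exact ⟨S, hS, ⟨hT, hle⟩, hh⟩)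
  have h2 : (({T : Tri (Fin (6 * n)) | T ∈ Trn n g ∧ ∃ S : Part (Fin (6 * n)), S.Le T ∧ S.HConn T ∧
      ∃ j ∈ J, S.R.ncard = 3 * j.2.1 ∧ S ∈ SS S.R j.2.1 j.1 j.2.2}.ncard : ℕ) : ℝ) ≤
      ∑ j ∈ J, ((t j).ncard : ℝ) := by exact_mod_cast h1
  refine h2.trans ?_
  rw [Finset.mul_sum]
  refine Finset.sum_le_sum fun j hj => ?_
  obtain ⟨P, d, h⟩ := j
  obtain ⟨hP, hP1, hd, hd', hg⟩ := hJ _ hj
  dsimp only at hP hP1 hd hd' hg ⊢
  have h3 := fm_bU (Finset.powersetCard (3 * d) (Finset.univ : Finset (Fin (6 * n))))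
    (fun i => ⋃ S ∈ SS (i : Set (Fin (6 * n))) d P h, {T | T ∈ S.Ext g ∧ S.HConn T})
    (A := t (P, d, h)) (by
      intro T hT
      rw [ht] at hT
      dsimp only at hT
      rw [Set.mem_iUnion₂] at hT
      obtain ⟨i, hi, hT⟩ := hT
      exact ⟨i, hi, hT⟩)
  have h4 : ((t (P, d, h)).ncard : ℝ) ≤ ∑ i ∈ Finset.powersetCard (3 * d) (Finset.univ : Finset (Fin (6 * n))),
      (((⋃ S ∈ SS (i : Set (Fin (6 * n))) d P h, {T | T ∈ S.Ext g ∧ S.HConn T}).ncard : ℕ) : ℝ) := by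
    exact_mod_cast h3
  refine h4.trans ?_
  refine (Finset.sum_le_sum fun i hi => ?_).trans (le_of_eq ?_) (b := ∑ i ∈ Finset.powersetCard (3 * d)
    (Finset.univ : Finset (Fin (6 * n))), ((3 * d).factorial : ℝ) * ((3 * (2 * n - d)).factorial : ℝ) *
        (Num.muG P d h * Num.muG P (2 * n - d) (g + 1 - h - Multiset.card P)))
  · rw [Finset.mem_powersetCard] at hi
    exact fm_one hd hd' hP hP1 (by omega) (by rw [Set.ncard_coe_finset]; exact hi.2)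
  rw [Finset.sum_const, Finset.card_powersetCard, Finset.card_univ, Fintype.card_fin, nsmul_eq_mul]
  have h5 : (6 * n).choose (3 * d) * (3 * d).factorial * (3 * (2 * n - d)).factorial =
      (6 * n).factorial := by
    have e : 3 * (2 * n - d) = 6 * n - 3 * d := by omega
    rw [e]
    exact Nat.choose_mul_factorial_mul_factorial (by omega)
  have h6 : (((6 * n).choose (3 * d) : ℕ) : ℝ) * ((3 * d).factorial : ℝ) *
      ((3 * (2 * n - d)).factorial : ℝ) = ((6 * n).factorial : ℝ) := by exact_mod_cast h5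
  rw [← h6]
  ring

theorem reg_type {n g d : ℕ} {T : Tri (Fin (6 * n))} (hT : T ∈ Trn n g) {S : Part (Fin (6 * n))} (hle : S.Le T)
    (hc : S.Con) (hh : S.HConn T) (hd : S.R.ncard = 3 * d) (hR : S.R.Nonempty) (hB : S.B.Nonempty) :
    ∃ (P : Multiset ℕ) (h : ℕ), 1 ≤ Multiset.card P ∧ (∀ p ∈ P, 1 ≤ p) ∧ P.sum = S.B.ncard ∧
      h + Multiset.card P ≤ g + 1 ∧ S ∈ SS S.R d P h := by
  obtain ⟨l, hl⟩ := Part.hl_exists S
  obtain ⟨h, hh'⟩ := ss_euler_free hc hd hR hl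
  have hlen : 1 ≤ l.length := by
    obtain ⟨b, hb⟩ := hB
    obtain ⟨e, he, -⟩ := hl.2.2 b hb
    exact List.length_pos_of_mem he
  have hcard : Multiset.card ((l.map S.per : List ℕ) : Multiset ℕ) = l.length := by
    rw [Multiset.coe_card, List.length_map]
  have hSS : S ∈ SS S.R d ((l.map S.per : List ℕ) : Multiset ℕ) h := by
    refine ⟨rfl, hc, ⟨l, hl, rfl⟩, ?_⟩
    rw [hcard, Multiset.sum_coe]
    exact hh'
  refine ⟨((l.map S.per : List ℕ) : Multiset ℕ), h, by rw [hcard]; exact hlen, ?_, ?_, ?_, hSS⟩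
  · intro p hp
    rw [Multiset.mem_coe, List.mem_map] at hp
    obtain ⟨e, he, rfl⟩ := hp
    have h1 : e ∈ S.hole e := ⟨hl.1 e he, Equiv.Perm.SameCycle.refl _ _⟩
    exact (Set.ncard_pos (Set.toFinite _)).2 ⟨e, h1⟩
  · rw [Multiset.sum_coe]
    exact (Part.hl_card hl).symm
  · have hd' : d ≤ 2 * n := by
      have h1 := Set.ncard_le_ncard (Set.subset_univ S.R) (Set.toFinite _)
      rw [Set.ncard_univ, Nat.card_fin, hd] at h1
      omega
    obtain ⟨l', P', -, hty⟩ := ss_typ (F := 2 * n - d) hSS hd (by rw [Nat.card_fin]; omega)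
      (by rw [hcard]; exact hlen)
    have h1 := Part.typ_le hty (g := g) ⟨hT, hle⟩ hh
    rw [hcard] at h1 ⊢
    omega

end SYS.XP
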