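import Pool.Agent.SYS.XP.Defs

/-!
# SYS-XP-GlA: labelling of the boundary darts of a region

The hole of `x` is labelled by the powers of the inverse of the boundary successor.
-/

namespace SYS.XP

open Classical SST

variable {D : Type} [Finite D]

private theorem ga_inj (S : Part D) {x : D} (hx : x ∈ S.B) {i j : ℕ} (hi : i < S.per x) (hj : j < S.per x)
    (h : (S.nx ^ i) x = (S.nx ^ j) x) : i = j := by
  have h1 := S.hw_nodup hx
  have h2 : (S.hw x) = (List.range (S.per x)).map fun i => (S.nx ^ i) x := rfl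
  rw [h2] at h1
  have h3 := List.inj_on_of_nodup_map h1 (List.mem_range.2 hi) (List.mem_range.2 hj)
  exact h3 h

private theorem ga_per (S : Part D) {x : D} (hx : x ∈ S.B) : (S.nx ^ S.per x) x = x := by
  have hp := S.per_pos hx
  obtain ⟨h1, h2⟩ := S.nx_pow_same hx (S.per x)
  have h3 : (S.nx ^ S.per x) x ∈ S.hw x := (S.mem_hw hx).2 ⟨h1, h2⟩
  have h2 : (S.hw x) = (List.range (S.per x)).map fun i => (S.nx ^ i) x := rfl
  rw [h2, List.mem_map] at h3
  obtain ⟨i, hi, hi2⟩ := h3
  rw [List.mem_range] at hi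
  rcases Nat.eq_zero_or_pos i with h4 | h4
  · rw [h4] at hi2
    exact hi2.symm
  · exfalso
    have h5 : (S.nx ^ (S.per x - i)) x = (S.nx ^ 0) x := by
      have h6 : (S.nx ^ i) ((S.nx ^ (S.per x - i)) x) = (S.nx ^ i) x := by
        rw [← Equiv.Perm.mul_apply, ← pow_add, show i + (S.per x - i) = S.per x by omega]
        exact hi2.symm
      exact (S.nx ^ i).injective h6
    have := ga_inj S hx (i := S.per x - i) (j := 0) (by omega) hp h5
    omega

private theorem ga_inv (S : Part D) (x : D) (k : ℕ) : (S.nx ^ k) ((S.nx⁻¹ ^ k) x) = x := by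
  rw [inv_pow, ← Equiv.Perm.mul_apply, mul_inv_cancel]
  rfl

private theorem ga_mem (S : Part D) {x : D} (hx : x ∈ S.B) (k : ℕ) (hk : k < S.per x) :
    (S.nx⁻¹ ^ k) x ∈ S.hole x := by
  have h1 : (S.nx⁻¹ ^ k) x = (S.nx ^ (S.per x - k)) x := by
    apply (S.nx ^ k).injective
    rw [ga_inv, ← Equiv.Perm.mul_apply, ← pow_add, show k + (S.per x - k) = S.per x by omega, ga_per S hx]
  rw [h1]
  exact S.nx_pow_same hx _

theorem lab_one (S : Part D) {x : D} (hx : x ∈ S.B) : ∃ b : Fin (S.per x) → D, Function.Injective b ∧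
    Set.range b = S.hole x ∧ ∀ k, S.nx (b (finRotate (S.per x) k)) = b k := by
  have hinj : Function.Injective (fun k : Fin (S.per x) => (S.nx⁻¹ ^ (k : ℕ)) x) := by
    have key : ∀ i j : ℕ, i ≤ j → j < S.per x → (S.nx⁻¹ ^ i) x = (S.nx⁻¹ ^ j) x → i = j := by
      intro i j hij hj h
      have h1 : (S.nx ^ (j - i)) x = (S.nx ^ 0) x := by
        have h2 : (S.nx ^ j) ((S.nx⁻¹ ^ i) x) = (S.nx ^ j) ((S.nx⁻¹ ^ j) x) := congrArg (fun y => (S.nx ^ j) y) h
        rw [ga_inv S x j] at h2
        have h3 : (S.nx ^ j) ((S.nx⁻¹ ^ i) x) = (S.nx ^ (j - i)) x := by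
          have h4 : S.nx ^ j = S.nx ^ (j - i) * S.nx ^ i := by
            rw [← pow_add]
            congr 1
            omega
          rw [h4, Equiv.Perm.mul_apply, ga_inv]
        rw [h3] at h2
        rw [h2]
        rfl
      have := ga_inj S hx (i := j - i) (j := 0) (by omega) (S.per_pos hx) h1
      omega
    intro i j h
    simp only at h
    apply Fin.ext
    rcases le_total (i : ℕ) j with h1 | h1
    · exact key i j h1 j.isLt h
    · exact (key j i h1 i.isLt h.symm).symm
  refine ⟨fun k => (S.nx⁻¹ ^ (k : ℕ)) x, hinj, ?_, ?_⟩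
  · refine Set.eq_of_subset_of_ncard_le ?_ ?_ (Set.toFinite _)
    · rintro _ ⟨k, rfl⟩
      exact ga_mem S hx k k.isLt
    · have h1 : (Set.range (fun k : Fin (S.per x) => (S.nx⁻¹ ^ (k : ℕ)) x)).ncard = S.per x := by
        rw [← Set.image_univ, Set.ncard_image_of_injective _ hinj, Set.ncard_univ, Nat.card_fin]
      rw [h1]
      exact le_rfl
  · intro k
    show S.nx ((S.nx⁻¹ ^ ((finRotate (S.per x) k : Fin (S.per x)) : ℕ)) x) = (S.nx⁻¹ ^ (k : ℕ)) x
    by_cases hk : (k : ℕ) + 1 < S.per x
    · have h1 : ((finRotate (S.per x) k : Fin (S.per x)) : ℕ) = k + 1 := by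
        obtain ⟨m, hm⟩ : ∃ m, S.per x = m + 1 := ⟨S.per x - 1, by have := S.per_pos hx; omega⟩
        revert k
        rw [hm]
        intro k hk
        rw [coe_finRotate_of_ne_last]
        intro h2
        rw [h2, Fin.val_last] at hk
        omega
      rw [h1, pow_succ', Equiv.Perm.mul_apply, ← Equiv.Perm.mul_apply, mul_inv_cancel]
      rfl
    · have h1 : ((finRotate (S.per x) k : Fin (S.per x)) : ℕ) = 0 := by
        obtain ⟨m, hm⟩ : ∃ m, S.per x = m + 1 := ⟨S.per x - 1, by have := S.per_pos hx; omega⟩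
        revert k
        rw [hm]
        intro k hk
        have h2 : k = Fin.last m := by
          apply Fin.ext
          rw [Fin.val_last]
          have := k.isLt
          omega
        rw [h2, finRotate_last]
        rfl
      rw [h1, pow_zero, Equiv.Perm.one_apply]
      have hk' : (k : ℕ) + 1 = S.per x := by
        have := k.isLt
        omega
      apply (S.nx ^ (k : ℕ)).injective
      rw [ga_inv, ← Equiv.Perm.mul_apply, ← pow_succ, hk', ga_per S hx]

theorem lab_exists (S : Part D) {l : List D} (hl : S.HL l) {P : List ℕ} (hP : l.map S.per = P) :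
    ∃ b : (Σ i : Fin P.length, Fin (P.get i)) → D, Function.Injective b ∧ Set.range b = S.B ∧
      ∀ (i : Fin P.length) (k : Fin (P.get i)), S.nx (b ⟨i, finRotate (P.get i) k⟩) = b ⟨i, k⟩ := by
  obtain ⟨h1, h2, h3⟩ := hl
  have hlen : P.length = l.length := by rw [← hP, List.length_map]
  obtain ⟨r, hr⟩ : ∃ r : Fin P.length → D, r = fun i => l.get (Fin.cast hlen i) := ⟨_, rfl⟩
  have hrB : ∀ i, r i ∈ S.B := by
    intro i
    rw [hr]
    exact h1 _ (List.get_mem l _)
  have hper : ∀ i, P.get i = S.per (r i) := by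
    intro i
    subst hP
    rw [hr]
    simp only [List.get_eq_getElem, List.getElem_map, Fin.val_cast]
  have hne : ∀ i j, S.s.SameCycle (r i) (r j) → i = j := by
    intro i j hij
    by_contra hcon
    have h4 := List.pairwise_iff_get.1 h2
    rcases lt_or_gt_of_ne (fun h => hcon (Fin.ext h) : (i : ℕ) ≠ j) with h5 | h5
    · refine h4 (Fin.cast hlen i) (Fin.cast hlen j) h5 ?_
      rw [hr] at hij
      exact hij
    · refine h4 (Fin.cast hlen j) (Fin.cast hlen i) h5 ?_
      rw [hr] at hij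
      exact hij.symm
  have hex : ∀ i : Fin P.length, ∃ b : Fin (P.get i) → D, Function.Injective b ∧
      Set.range b = S.hole (r i) ∧ ∀ k, S.nx (b (finRotate (P.get i) k)) = b k := by
    intro i
    rw [hper i]
    exact lab_one S (hrB i)
  choose b hb1 hb2 hb3 using hex
  have hmem : ∀ i k, b i k ∈ S.hole (r i) := by
    intro i k
    rw [← hb2 i]
    exact ⟨k, rfl⟩
  refine ⟨fun z => b z.1 z.2, ?_, ?_, ?_⟩
  · rintro ⟨i, k⟩ ⟨j, k'⟩ h
    simp only at h
    have h4 : i = j := by
      apply hne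
      have h5 := (hmem i k).2
      have h6 := (hmem j k').2
      rw [h] at h5
      exact h5.trans h6.symm
    subst h4
    rw [hb1 i h]
  · ext d
    constructor
    · rintro ⟨⟨i, k⟩, rfl⟩
      exact (hmem i k).1
    · intro hd
      obtain ⟨e, he, hs⟩ := h3 d hd
      obtain ⟨i', hi'⟩ := List.get_of_mem he
      have hi : r (Fin.cast hlen.symm i') = e := by
        rw [hr]
        exact hi'
      have h4 : d ∈ S.hole (r (Fin.cast hlen.symm i')) := ⟨hd, by rw [hi]; exact hs⟩
      rw [← hb2] at h4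
      obtain ⟨k, hk⟩ := h4
      exact ⟨⟨_, k⟩, hk⟩
  · intro i k
    exact hb3 i k

end SYS.XP
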