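import Pool.Agent.SYS.XP.GlA

/-!
# SYS-XP-GlB: gluing of the holes, the pair `(f, α)` is a map
-/

namespace SYS.XP

open Classical SST

variable {D : Type} [Finite D]

theorem glu_exists {S : Part D} {l : List D} (hl : S.HL l) {P : List ℕ} (hP : l.map S.per = P) {H : Set D}
    (hH : Disjoint S.R H) {η : Equiv.Perm D} (hη : ∀ d ∉ H, η d = d)
    {c : (Σ i : Fin P.length, Fin (P.get i)) → D} (hc : Function.Injective c) (hr : Set.range c = H)
    (hcη : ∀ (i : Fin P.length) (k : Fin (P.get i)), η (c ⟨i, k⟩) = c ⟨i, finRotate (P.get i) k⟩) :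
    ∃ b α, Glu S P H η c b α := by
  obtain ⟨b, bi, br, bnx⟩ := lab_exists S hl hP
  have hbB : ∀ z, b z ∈ S.B := fun z => by
    rw [← br]
    exact ⟨z, rfl⟩
  have hcH : ∀ z, c z ∈ H := fun z => by
    rw [← hr]
    exact ⟨z, rfl⟩
  have hRH : ∀ d, d ∈ S.R → d ∉ H := fun d h1 h2 => Set.disjoint_left.1 hH h1 h2
  have hBH : ∀ d, d ∈ S.B → d ∉ H := fun d h1 => hRH d (S.B_sub_R h1)
  let A : D → D := fun d => if h : ∃ z, b z = d then c h.choose else if h' : ∃ z, c z = d then b h'.choose else S.a d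
  have A1 : ∀ z, A (b z) = c z := by
    intro z
    have h : ∃ z', b z' = b z := ⟨z, rfl⟩
    show (if h : ∃ z', b z' = b z then c h.choose else _) = c z
    rw [dif_pos h, bi h.choose_spec]
  have A2 : ∀ z, A (c z) = b z := by
    intro z
    have h0 : ¬ ∃ z', b z' = c z := by
      rintro ⟨z', h1⟩
      have h2 := hbB z'
      rw [h1] at h2
      exact hBH _ h2 (hcH z)
    have h : ∃ z', c z' = c z := ⟨z, rfl⟩
    show (if h : ∃ z', b z' = c z then c h.choose else if h' : ∃ z', c z' = c z then b h'.choose else _) = b z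
    rw [dif_neg h0, dif_pos h, hc h.choose_spec]
  have A3 : ∀ d, d ∉ S.B → d ∉ H → A d = S.a d := by
    intro d h1 h2
    have h3 : ¬ ∃ z, b z = d := by
      rintro ⟨z, rfl⟩
      exact h1 (hbB z)
    have h4 : ¬ ∃ z, c z = d := by
      rintro ⟨z, rfl⟩
      exact h2 (hcH z)
    show (if h : ∃ z, b z = d then c h.choose else if h' : ∃ z, c z = d then b h'.choose else S.a d) = S.a d
    rw [dif_neg h3, dif_neg h4]
  have hinv : Function.Involutive A := by
    intro d
    by_cases h1 : d ∈ S.B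
    · rw [← br] at h1
      obtain ⟨z, rfl⟩ := h1
      rw [A1, A2]
    · by_cases h2 : d ∈ H
      · rw [← hr] at h2
        obtain ⟨z, rfl⟩ := h2
        rw [A2, A1]
      · have h3 : S.a d ∉ S.B := by
          intro h3
          have h4 : S.a (S.a d) = S.a d := h3.2
          rw [S.aa] at h4
          rw [← h4] at h3
          exact h1 h3
        have h4 : S.a d ∉ H := by
          intro h4
          have h5 : S.a d ∉ S.R := fun h5 => hRH _ h5 h4
          have h6 : S.f (S.a d) = S.a d := not_not.1 h5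
          have h7 := S.af _ h6
          rw [S.aa] at h7
          rw [← h7] at h4
          exact h2 h4
        rw [A3 d h1 h2, A3 _ h3 h4, S.aa]
  exact ⟨b, hinv.toPerm A,
    { disj := hH, ci := hc, cr := hr, eta_off := hη, eta := hcη, bi := bi, br := br, nx := bnx
      aa := hinv, ab := A1, ac := A2, a_in := A3 }⟩

theorem glu_pair {S : Part D} {P : List ℕ} {H : Set D} {η : Equiv.Perm D}
    {c b : (Σ i : Fin P.length, Fin (P.get i)) → D} {α : Equiv.Perm D} (h : Glu S P H η c b α) (hS : S.Con) :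
    PairOn S.R H η (ncycOn (S.f * η * α) (S.R ∪ H)) S.f α := by
  have hbB : ∀ z, b z ∈ S.B := fun z => by
    rw [← h.br]
    exact ⟨z, rfl⟩
  have hcH : ∀ z, c z ∈ H := fun z => by
    rw [← h.cr]
    exact ⟨z, rfl⟩
  have hRH : ∀ d, d ∈ S.R → d ∉ H := fun d h1 h2 => Set.disjoint_left.1 h.disj h1 h2
  have hne : ∀ z, b z ≠ c z := by
    intro z h1
    have h2 := hcH z
    rw [← h1] at h2
    exact hRH _ (S.B_sub_R (hbB z)) h2
  refine ⟨fun d hd => not_not.1 hd, fun d hd => hd, S.fff, ?_, ?_, h.aa, ?_, rfl⟩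
  · intro d hd
    have h1 : d ∉ S.R := fun h1 => hd (Or.inl h1)
    have h2 : S.f d = d := not_not.1 h1
    rw [h.a_in d (fun h3 => h1 (S.B_sub_R h3)) (fun h3 => hd (Or.inr h3))]
    exact S.af d h2
  · intro d hd
    by_cases h1 : d ∈ S.B
    · rw [← h.br] at h1
      obtain ⟨z, rfl⟩ := h1
      rw [h.ab]
      exact (hne z).symm
    · by_cases h2 : d ∈ H
      · rw [← h.cr] at h2
        obtain ⟨z, rfl⟩ := h2
        rw [h.ac]
        exact hne z
      · rw [h.a_in d h1 h2]
        intro h3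
        exact h1 ⟨hd.resolve_right h2, h3⟩
  · intro Z hZ hZn hcl
    have hf : ∀ d, d ∈ Z ∧ d ∈ S.R → S.f d ∈ Z ∧ S.f d ∈ S.R := fun d hd =>
      ⟨(hcl d hd.1).2.1, (S.mem_R_f d).2 hd.2⟩
    have ha : ∀ d, d ∈ Z ∧ d ∈ S.R → S.a d ∈ Z ∧ S.a d ∈ S.R := by
      intro d hd
      refine ⟨?_, (S.mem_R_a d).2 hd.2⟩
      by_cases h1 : d ∈ S.B
      · rw [show S.a d = d from h1.2]
        exact hd.1
      · rw [← h.a_in d h1 (hRH d hd.2)]
        exact (hcl d hd.1).1
    have hcn : ∀ d e, S.Cn d e → (d ∈ Z ∧ d ∈ S.R ↔ e ∈ Z ∧ e ∈ S.R) := by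
      intro d e hde
      induction hde with
      | rel a b hab =>
        rcases hab with hab | hab
        · rw [hab]
          refine ⟨ha a, fun h1 => ?_⟩
          have h2 := ha _ h1
          rwa [S.aa] at h2
        · rw [hab]
          refine ⟨hf a, fun h1 => ?_⟩
          have h2 := hf _ (hf _ h1)
          rwa [S.fff] at h2
      | refl a => exact Iff.rfl
      | symm a b _ ih => exact ih.symm
      | trans a b c _ _ ih1 ih2 => exact ih1.trans ih2
    have hex : ∃ d, d ∈ Z ∧ d ∈ S.R := by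
      obtain ⟨d, hd⟩ := hZn
      rcases hZ hd with h1 | h1
      · exact ⟨d, hd, h1⟩
      · rw [← h.cr] at h1
        obtain ⟨z, rfl⟩ := h1
        have h2 := (hcl _ hd).1
        rw [h.ac] at h2
        exact ⟨b z, h2, S.B_sub_R (hbB z)⟩
    obtain ⟨d, hd⟩ := hex
    have hRZ : ∀ e ∈ S.R, e ∈ Z := fun e he => ((hcn d e (hS d hd.2 e he)).1 hd).1
    refine Set.Subset.antisymm hZ ?_
    rintro e (he | he)
    · exact hRZ e he
    · rw [← h.cr] at he
      obtain ⟨z, rfl⟩ := he
      have h2 := (hcl _ (hRZ _ (S.B_sub_R (hbB z)))).1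
      rwa [h.ab] at h2

end SYS.XP
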