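import Pool.Agent.SYS.XP.Comp
import Pool.Agent.SYS.XP.Nb
import Pool.Agent.SYS.XP.Cut

/-!
# SYS-XP-Grow: one step of the growth
-/

namespace SYS.XP

open Classical SST

theorem grow {D : Type} [Fintype D] {T : Tri D} (hT : T.Conn) {c L : ℝ} {s : ℕ} (hc : 0 < c) (hs : 1 ≤ s)
    (hL : ∀ Z ∈ fam c T, (Z.ncard : ℝ) < L) {Y : Set D} (h1 : Fs T Y) (h2 : DC T Y) (h3 : Y.Nonempty)
    (h4 : L ≤ Y.ncard) :
    (1 + c) * (Y.ncard : ℝ) ≤ ((nb T Y).ncard : ℝ) ∨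
      (((nb T Y)ᶜ.ncard : ℕ) : ℝ) - vol c s T ≤ (1 - min c (1 / (3 * s))) * (((Yᶜ.ncard : ℕ) : ℝ) - vol c s T) := by
  obtain ⟨𝓩, hZ, hsum, hbsum⟩ := comps hT h1 h2 h3
  have hnb : (Y.ncard : ℝ) + ((bdy T Y).ncard : ℝ) ≤ ((nb T Y).ncard : ℝ) := by
    exact_mod_cast nb_card T Y
  by_cases hA : ∃ Z ∈ 𝓩, Nat.card D < 2 * Z.ncard
  · left
    obtain ⟨Z, hZ1, hZ2⟩ := hA
    obtain ⟨hcut, hsub, hbd⟩ := hZ Z hZ1
    have hcard : Z.ncard + Zᶜ.ncard = Nat.card D := Set.ncard_add_ncard_compl Z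
    have hYZ : Y ⊆ Zᶜ := fun d hd hdZ => hsub hdZ hd
    have h5 : Y.ncard ≤ Zᶜ.ncard := Set.ncard_le_ncard hYZ (Set.toFinite _)
    have h5' : (Y.ncard : ℝ) ≤ ((Zᶜ.ncard : ℕ) : ℝ) := by exact_mod_cast h5
    have h6 : Zᶜ ∉ fam c T := fun h => absurd (hL _ h) (not_lt.2 (h4.trans h5'))
    have h7 : c * ((Zᶜ.ncard : ℕ) : ℝ) < ((bdy T Zᶜ).ncard : ℝ) := by
      by_contra hcon
      exact h6 ⟨cut2_compl hcut, by omega, not_lt.1 hcon⟩
    have h8 : ((bdy T Zᶜ).ncard : ℝ) ≤ ((bdy T Y).ncard : ℝ) := by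
      exact_mod_cast Set.ncard_le_ncard hbd (Set.toFinite _)
    have h9 : c * (Y.ncard : ℝ) ≤ c * ((Zᶜ.ncard : ℕ) : ℝ) := mul_le_mul_of_nonneg_left h5' hc.le
    linarith
  · right
    push Not at hA
    obtain ⟨c', hc'⟩ : ∃ c', c' = min c (1 / (3 * (s : ℝ))) := ⟨_, rfl⟩
    rw [← hc']
    have hs0 : (0 : ℝ) < 3 * s := by
      have : (1 : ℝ) ≤ s := by exact_mod_cast hs
      linarith
    have hc0 : 0 ≤ c' := by
      rw [hc']
      exact le_min hc.le (by positivity)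
    have hc1 : c' ≤ c := by
      rw [hc']
      exact min_le_left _ _
    have hc2 : c' ≤ 1 / (3 * (s : ℝ)) := by
      rw [hc']
      exact min_le_right _ _
    have hterm : ∀ Z ∈ 𝓩, c' * ((Z.ncard : ℝ) - (if Z ∈ fam c T ∧ 3 * s ≤ Z.ncard then (Z.ncard : ℝ) else 0)) ≤
        ((bdy T Z).ncard : ℝ) := by
      intro Z hZ1
      obtain ⟨hcut, -, -⟩ := hZ Z hZ1
      have hZ0 : (0 : ℝ) ≤ (Z.ncard : ℝ) := Nat.cast_nonneg _
      split_ifs with hif
      · rw [sub_self, mul_zero]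
        exact Nat.cast_nonneg _
      · rw [sub_zero]
        by_cases hf : Z ∈ fam c T
        · have h5 : Z.ncard < 3 * s := by
            by_contra hcon
            exact hif ⟨hf, not_lt.1 hcon⟩
          have h6 : (Z.ncard : ℝ) ≤ 3 * s := by exact_mod_cast h5.le
          have h7 : (1 : ℝ) ≤ ((bdy T Z).ncard : ℝ) := by
            have h8 := (Set.ncard_pos (Set.toFinite _)).2 (bdy_ne hT hcut)
            exact_mod_cast h8
          calc c' * (Z.ncard : ℝ) ≤ 1 / (3 * (s : ℝ)) * (3 * s) :=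
                mul_le_mul hc2 h6 hZ0 (by positivity)
            _ = 1 := by field_simp
            _ ≤ _ := h7
        · have h5 : c * (Z.ncard : ℝ) < ((bdy T Z).ncard : ℝ) := by
            by_contra hcon
            exact hf ⟨hcut, hA Z hZ1, not_lt.1 hcon⟩
          exact (mul_le_mul_of_nonneg_right hc1 hZ0).trans h5.le
    have hvol : ∑ Z ∈ 𝓩, (if Z ∈ fam c T ∧ 3 * s ≤ Z.ncard then (Z.ncard : ℝ) else 0) ≤ vol c s T := by
      unfold vol
      refine Finset.sum_le_sum_of_subset_of_nonneg (Finset.subset_univ _) ?_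
      intro Z _ _
      split_ifs
      · exact Nat.cast_nonneg _
      · exact le_rfl
    have hs1 : ∑ Z ∈ 𝓩, (Z.ncard : ℝ) = ((Yᶜ.ncard : ℕ) : ℝ) := by
      rw [← hsum]
      push_cast
      rfl
    have hs2 : ∑ Z ∈ 𝓩, ((bdy T Z).ncard : ℝ) = ((bdy T Y).ncard : ℝ) := by
      rw [← hbsum]
      push_cast
      rfl
    have hbig : c' * (((Yᶜ.ncard : ℕ) : ℝ) - vol c s T) ≤ ((bdy T Y).ncard : ℝ) := by
      have h5 := Finset.sum_le_sum hterm
      rw [← Finset.mul_sum, Finset.sum_sub_distrib, hs1, hs2] at h5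
      refine le_trans ?_ h5
      exact mul_le_mul_of_nonneg_left (by linarith) hc0
    have hcd1 : ((Y.ncard : ℕ) : ℝ) + ((Yᶜ.ncard : ℕ) : ℝ) = Nat.card D := by
      exact_mod_cast Set.ncard_add_ncard_compl Y
    have hcd2 : (((nb T Y).ncard : ℕ) : ℝ) + (((nb T Y)ᶜ.ncard : ℕ) : ℝ) = Nat.card D := by
      exact_mod_cast Set.ncard_add_ncard_compl (nb T Y)
    linarith

end SYS.XP
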