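import Pool.Agent.SYS.XP.NWin
import Pool.Agent.SYS.RL.Nu
import Pool.Agent.SYS.RB.Rpl

/-!
# SYS-XP-NThr: change of the number of faces and of the genus in a window
-/

namespace SYS.XP

open Real

theorem thr {θ x : ℝ} (h : Num.Par θ x) : ∃ (C δ : ℝ) (N0 : ℕ), 1 ≤ C ∧ 0 < δ ∧ ∀ n g p k : ℕ, N0 ≤ n →
    |(g : ℝ) - θ * n| ≤ δ * n → (p : ℝ) ≤ δ * n → 1 ≤ k → k ≤ p →
      (n : ℝ) ^ (2 * (k - 1)) * SST.nu (n + p + 1) (g + 1 - k) ≤ C ^ p * SST.nu n g := by
  obtain ⟨hθ, hθ2, hx, -⟩ := id h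
  have hy : 0 < Num.yy x := RB.yy_pos x
  obtain ⟨L, hL⟩ : ∃ L, L = 4 / 9 * sinh x ^ 2 * (cosh x ^ 2 + 2) ^ 2 / cosh x ^ 2 := ⟨_, rfl⟩
  have hL0 : 0 ≤ L := by rw [hL]; positivity
  obtain ⟨δ1, M1, hδ1, h1⟩ := Num.nu_low h (ε := Num.yy x / 2) (by linarith) (by linarith)
  have hrat := RB.rat_g h
  rw [← hL] at hrat
  have hev : ∀ᶠ q in RB.Fth θ, (q.1 : ℝ) ^ 2 * SST.nu q.1 (q.2 - 1) / SST.nu q.1 q.2 < L + 1 :=
    hrat.eventually (gt_mem_nhds (by linarith))
  obtain ⟨δ2, M2, hδ2, -, h2⟩ := win_of_ev hev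
  obtain ⟨δ, hδ, hδa, hδb, hδc⟩ : ∃ δ : ℝ, 0 < δ ∧ 4 * δ ≤ δ1 ∧ 4 * δ ≤ δ2 ∧ 4 * δ ≤ θ := by
    refine ⟨min (δ1 / 4) (min (δ2 / 4) (θ / 4)),
      lt_min (by positivity) (lt_min (by positivity) (by positivity)), ?_, ?_, ?_⟩
    · have := min_le_left (δ1 / 4) (min (δ2 / 4) (θ / 4))
      linarith
    · have := (min_le_right (δ1 / 4) (min (δ2 / 4) (θ / 4))).trans (min_le_left _ _)
      linarith
    · have := (min_le_right (δ1 / 4) (min (δ2 / 4) (θ / 4))).trans (min_le_right _ _)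
      linarith
  obtain ⟨M3, hM3⟩ := exists_nat_gt (1 / δ)
  obtain ⟨B, hB⟩ : ∃ B, B = 2 / Num.yy x + L + 2 := ⟨_, rfl⟩
  have hB1 : 1 ≤ B := by
    have : 0 < 2 / Num.yy x := by positivity
    rw [hB]
    linarith
  have hBa : 2 / Num.yy x ≤ B := by rw [hB]; linarith
  have hBb : L + 1 ≤ B := by
    have : 0 < 2 / Num.yy x := by positivity
    rw [hB]
    linarith
  refine ⟨B ^ 2, δ, M1 + M2 + M3 + 1, one_le_pow₀ hB1, hδ, ?_⟩
  intro n g p k hn hg hp hk hkp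
  have hn0 : (0 : ℝ) < n := by exact_mod_cast (show 0 < n by omega)
  have hn1 : 1 ≤ δ * n := by
    have h3 : (M3 : ℝ) ≤ n := by exact_mod_cast (show M3 ≤ n by omega)
    have h4 : 1 / δ ≤ n := by linarith
    rw [div_le_iff₀ hδ] at h4
    linarith
  have hδa' : 4 * (δ * n) ≤ δ1 * n := by
    have := mul_le_mul_of_nonneg_right hδa hn0.le
    linarith
  have hδb' : 4 * (δ * n) ≤ δ2 * n := by
    have := mul_le_mul_of_nonneg_right hδb hn0.le
    linarith
  have hδc' : 4 * (δ * n) ≤ θ * n := by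
    have := mul_le_mul_of_nonneg_right hδc hn0.le
    linarith
  obtain ⟨D, hD⟩ : ∃ D : ℝ, D = δ * n := ⟨_, rfl⟩
  rw [← hD] at hn1 hδa' hδb' hδc' hg hp
  have hg' := abs_le.1 hg
  have hkp' : (k : ℝ) ≤ p := by exact_mod_cast hkp
  have hgk : k ≤ g := by
    have h3 : (k : ℝ) ≤ g := by linarith
    exact_mod_cast h3
  have hG : g + 1 - k = g - (k - 1) := by omega
  -- the window of `g - j`
  have hwin : ∀ j : ℕ, j ≤ p → |((g - j : ℕ) : ℝ) - θ * n| ≤ 2 * D := by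
    intro j hj
    have hj1 : (j : ℝ) ≤ p := by exact_mod_cast hj
    have hj2 : j ≤ g := by
      have h3 : (j : ℝ) ≤ g := by linarith
      exact_mod_cast h3
    have hj0 : (0 : ℝ) ≤ j := Nat.cast_nonneg j
    rw [Nat.cast_sub hj2, abs_le]
    constructor
    · linarith
    · linarith
  have hpos : ∀ j : ℕ, j ≤ p → 0 < SST.nu n (g - j) := by
    intro j hj
    have h3 := (h1 n (g - j) 0 (by omega) ((hwin j hj).trans (by linarith)) (by
      rw [Nat.cast_zero]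
      positivity)).1
    rwa [Nat.sub_zero] at h3
  have hiter : ∀ j : ℕ, j ≤ p → (n : ℝ) ^ (2 * j) * SST.nu n (g - j) ≤ (L + 1) ^ j * SST.nu n g := by
    intro j
    induction j with
    | zero =>
      intro _
      simp
    | succ j ih =>
      intro hj
      have h3 := ih (by omega)
      have h4 := h2 n (g - j) (by omega) ((hwin j (by omega)).trans (by linarith))
      have h5 := hpos j (by omega)
      have h6 : (n : ℝ) ^ 2 * SST.nu n (g - j - 1) < (L + 1) * SST.nu n (g - j) := by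
        have h7 : (n : ℝ) ^ 2 * SST.nu n (g - j - 1) / SST.nu n (g - j) < L + 1 := h4
        rwa [div_lt_iff₀ h5] at h7
      have e1 : g - (j + 1) = g - j - 1 := by omega
      have e2 : (n : ℝ) ^ (2 * (j + 1)) = (n : ℝ) ^ (2 * j) * (n : ℝ) ^ 2 := by
        rw [← pow_add]
        congr 1
      rw [e1, e2]
      calc (n : ℝ) ^ (2 * j) * (n : ℝ) ^ 2 * SST.nu n (g - j - 1)
          = (n : ℝ) ^ (2 * j) * ((n : ℝ) ^ 2 * SST.nu n (g - j - 1)) := by ring
        _ ≤ (n : ℝ) ^ (2 * j) * ((L + 1) * SST.nu n (g - j)) :=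
            mul_le_mul_of_nonneg_left h6.le (by positivity)
        _ = (L + 1) * ((n : ℝ) ^ (2 * j) * SST.nu n (g - j)) := by ring
        _ ≤ (L + 1) * ((L + 1) ^ j * SST.nu n g) := mul_le_mul_of_nonneg_left h3 (by linarith)
        _ = (L + 1) ^ (j + 1) * SST.nu n g := by ring
  have hmr : ((n + p + 1 : ℕ) : ℝ) = n + p + 1 := by push_cast; ring
  have hp0 : (0 : ℝ) ≤ p := Nat.cast_nonneg p
  have hfirst : SST.nu (n + p + 1) (g - (k - 1)) ≤ (2 / Num.yy x) ^ (p + 1) * SST.nu n (g - (k - 1)) := by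
    have hnm : δ1 * (n : ℝ) ≤ δ1 * ((n + p + 1 : ℕ) : ℝ) := by
      refine mul_le_mul_of_nonneg_left ?_ hδ1.le
      rw [hmr]
      linarith
    have h3 := (h1 (n + p + 1) (g - (k - 1)) (p + 1) (by omega) (by
      have h4 := abs_le.1 (hwin (k - 1) (by omega))
      have h5 : θ * ((n + p + 1 : ℕ) : ℝ) = θ * n + θ * (p + 1) := by
        rw [hmr]
        ring
      have h6 : 0 ≤ θ * ((p : ℝ) + 1) := by positivity
      have h7 : θ * ((p : ℝ) + 1) ≤ 1 / 2 * (p + 1) := mul_le_mul_of_nonneg_right hθ2.le (by positivity)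
      rw [h5]
      rw [abs_le]
      constructor
      · linarith [h4.1]
      · linarith [h4.2]) (by
      have h8 : ((p + 1 : ℕ) : ℝ) ≤ δ1 * n := by
        push_cast
        linarith
      exact h8.trans hnm)).2
    have e1 : n + p + 1 - (p + 1) = n := by omega
    have e2 : Num.yy x - Num.yy x / 2 = Num.yy x / 2 := by ring
    rw [e1, e2] at h3
    have h4 : (2 / Num.yy x) ^ (p + 1) * (Num.yy x / 2) ^ (p + 1) = 1 := by
      rw [← mul_pow]
      have : 2 / Num.yy x * (Num.yy x / 2) = 1 := by field_simp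
      rw [this, one_pow]
    calc SST.nu (n + p + 1) (g - (k - 1))
        = (2 / Num.yy x) ^ (p + 1) * ((Num.yy x / 2) ^ (p + 1) * SST.nu (n + p + 1) (g - (k - 1))) := by
          rw [← mul_assoc, h4, one_mul]
      _ ≤ (2 / Num.yy x) ^ (p + 1) * SST.nu n (g - (k - 1)) :=
          mul_le_mul_of_nonneg_left h3 (by positivity)
  have h0 : 0 ≤ SST.nu n g := RB.nu_nn n g
  rw [hG]
  calc (n : ℝ) ^ (2 * (k - 1)) * SST.nu (n + p + 1) (g - (k - 1))
      ≤ (n : ℝ) ^ (2 * (k - 1)) * ((2 / Num.yy x) ^ (p + 1) * SST.nu n (g - (k - 1))) :=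
        mul_le_mul_of_nonneg_left hfirst (by positivity)
    _ = (2 / Num.yy x) ^ (p + 1) * ((n : ℝ) ^ (2 * (k - 1)) * SST.nu n (g - (k - 1))) := by ring
    _ ≤ (2 / Num.yy x) ^ (p + 1) * ((L + 1) ^ (k - 1) * SST.nu n g) :=
        mul_le_mul_of_nonneg_left (hiter (k - 1) (by omega)) (by positivity)
    _ = ((2 / Num.yy x) ^ (p + 1) * (L + 1) ^ (k - 1)) * SST.nu n g := by ring
    _ ≤ (B ^ (p + 1) * B ^ (k - 1)) * SST.nu n g := by
        refine mul_le_mul_of_nonneg_right ?_ h0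
        have h3 : (2 / Num.yy x) ^ (p + 1) ≤ B ^ (p + 1) := pow_le_pow_left₀ (by positivity) hBa _
        have h4 : (L + 1) ^ (k - 1) ≤ B ^ (k - 1) := pow_le_pow_left₀ (by linarith) hBb _
        exact mul_le_mul h3 h4 (by positivity) (by positivity)
    _ ≤ (B ^ 2) ^ p * SST.nu n g := by
        refine mul_le_mul_of_nonneg_right ?_ h0
        rw [← pow_add, ← pow_mul]
        exact pow_le_pow_right₀ hB1 (by omega)

end SYS.XP
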