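import Pool.Agent.SYS.XP.NTwo
import Pool.Agent.SYS.XP.NThr
import Pool.Agent.SYS.BD.Cru

/-!
# SYS-XP-NTrm: one term of `EE`
-/

namespace SYS.XP

open Real

private theorem tr_card {P : Multiset ℕ} (h : ∀ q ∈ P, 1 ≤ q) : Multiset.card P ≤ P.sum := by
  induction P using Multiset.induction_on with
  | empty => exact le_rfl
  | cons p Q ih =>
    rw [Multiset.card_cons, Multiset.sum_cons]
    have h1 := h p (Multiset.mem_cons_self p Q)
    have h2 := ih fun q hq => h q (Multiset.mem_cons_of_mem hq)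
    omega

/-- The numbers of triangulations. -/
private theorem tr_nu {θ c1 K1 δ1 : ℝ} {N1 : ℕ} (hK1 : 0 < K1)
    (htwo : ∀ N G : ℕ, N1 ≤ N → |(G : ℝ) - θ * N| ≤ δ1 * N → ∀ i a : ℕ, 3 * i ≤ 2 * N → a ≤ G →
      RB.tt i a * RB.tt (N - i) (G - a) ≤ K1 * exp (-c1 * i) * RB.tt N G) (hc1 : 0 < c1)
    {n p i j k k' : ℕ} (hi : 1 ≤ i) (hj : 1 ≤ j) (hij : i + j = n + p) (hi2 : 2 * i ≤ n + p)
    (hN : N1 ≤ n + p + 2)
    (hw : |((k + k' : ℕ) : ℝ) - θ * ((n + p + 2 : ℕ) : ℝ)| ≤ δ1 * ((n + p + 2 : ℕ) : ℝ)) :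
    SST.nu i k * SST.nu j k' ≤ K1 * exp (-c1 * i) * SST.nu (n + p + 1) (k + k') := by
  have h1 := htwo (n + p + 2) (k + k') hN hw (i + 1) k (by omega) (by omega)
  have e1 : n + p + 2 - (i + 1) = j + 1 := by omega
  have e2 : k + k' - k = k' := by omega
  rw [e1, e2, RB.tt_succ hi, RB.tt_succ hj, show n + p + 2 = (n + p + 1) + 1 by rfl,
    RB.tt_succ (by omega : 1 ≤ n + p + 1)] at h1
  obtain ⟨ν, hν⟩ : ∃ ν : ℝ, ν = SST.nu (n + p + 1) (k + k') := ⟨_, rfl⟩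
  have hν0 : 0 ≤ ν := by
    rw [hν]
    exact RB.nu_nn _ _
  obtain ⟨X, hX⟩ : ∃ X : ℝ, X = SST.nu i k * SST.nu j k' := ⟨_, rfl⟩
  have hX0 : 0 ≤ X := by
    rw [hX]
    exact mul_nonneg (RB.nu_nn _ _) (RB.nu_nn _ _)
  rw [← hν] at h1 ⊢
  rw [← hX]
  have hiR : (1 : ℝ) ≤ (i : ℝ) := by exact_mod_cast hi
  have hjR : (1 : ℝ) ≤ (j : ℝ) := by exact_mod_cast hj
  have hm : ((n + p + 1 : ℕ) : ℝ) ≤ 3 * j := by
    have : n + p + 1 ≤ 3 * j := by omega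
    exact_mod_cast this
  obtain ⟨m, hmd⟩ : ∃ m : ℝ, m = ((n + p + 1 : ℕ) : ℝ) := ⟨_, rfl⟩
  rw [← hmd] at h1 hm
  have hm0 : 0 ≤ m := by
    rw [hmd]
    exact Nat.cast_nonneg _
  have hE : exp (-c1 * ((i + 1 : ℕ) : ℝ)) ≤ exp (-c1 * i) := by
    refine exp_le_exp.2 ?_
    push_cast
    nlinarith
  have hE0 : 0 < exp (-c1 * ((i + 1 : ℕ) : ℝ)) := exp_pos _
  have h2 : (3 * m + 2) * (6 * m) ≤ 9 * ((3 * j + 2) * (6 * j)) := by
    have a1 : 3 * m + 2 ≤ 3 * (3 * j + 2) := by linarith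
    have a2 : 6 * m ≤ 3 * (6 * j) := by linarith
    calc (3 * m + 2) * (6 * m) ≤ (3 * (3 * j + 2)) * (3 * (6 * j)) :=
          mul_le_mul a1 a2 (by positivity) (by positivity)
      _ = 9 * ((3 * j + 2) * (6 * j)) := by ring
  have h3 : (30 : ℝ) ≤ (3 * i + 2) * (6 * i) := by nlinarith
  obtain ⟨Y, hY⟩ : ∃ Y : ℝ, Y = (3 * (j : ℝ) + 2) * (6 * j) := ⟨_, rfl⟩
  have hY0 : 0 < Y := by
    rw [hY]
    positivity
  rw [← hY] at h2
  have h4 : 30 * Y * X ≤ K1 * exp (-c1 * i) * (9 * Y) * ν := by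
    calc 30 * Y * X ≤ ((3 * i + 2) * (6 * i)) * Y * X := by
          refine mul_le_mul_of_nonneg_right (mul_le_mul_of_nonneg_right h3 hY0.le) hX0
      _ = (3 * i + 2) * (6 * i) * SST.nu i k * ((3 * j + 2) * (6 * j) * SST.nu j k') := by
          rw [hX, hY]
          ring
      _ ≤ K1 * exp (-c1 * ((i + 1 : ℕ) : ℝ)) * ((3 * m + 2) * (6 * m) * ν) := h1
      _ ≤ K1 * exp (-c1 * i) * ((9 * Y) * ν) := by
          refine mul_le_mul (mul_le_mul_of_nonneg_left hE hK1.le)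
            (mul_le_mul_of_nonneg_right h2 hν0) (by positivity) (by positivity)
      _ = K1 * exp (-c1 * i) * (9 * Y) * ν := by ring
  have h5 : Y * (30 * X) ≤ Y * (9 * (K1 * exp (-c1 * i) * ν)) := by linarith
  have h6 := le_of_mul_le_mul_left h5 hY0
  have h7 : 0 ≤ K1 * exp (-c1 * i) * ν := by positivity
  linarith

theorem trm {θ x : ℝ} (h : Num.Par θ x) : ∃ (c c3 K A δ : ℝ) (N0 : ℕ), 0 < c ∧ c ≤ 1 ∧ 0 < c3 ∧ 0 < K ∧ 1 ≤ A ∧ 0 < δ ∧
    ∀ (n g d p : ℕ) (P : Multiset ℕ) (k k' : ℕ), N0 ≤ n → |(g : ℝ) - θ * n| ≤ δ * n → 1 ≤ p → (p : ℝ) ≤ c * d → d ≤ n →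
      P.sum = p → (∀ q ∈ P, 1 ≤ q) → k + k' + Multiset.card P = g + 1 →
        Num.muG P d k * Num.muG P (2 * n - d) k' ≤ K * n * d * A ^ p * exp (-c3 * d) * SST.nu n g := by
  obtain ⟨c1, K1, δ1, N1, hc1, hK1, hδ1, htwo⟩ := two h
  obtain ⟨C, δ2, N2, hC, hδ2, hthr⟩ := thr h
  obtain ⟨hθ0, hθ1, -, -⟩ := h
  obtain ⟨N3, hN3⟩ := exists_nat_ge (4 / δ1)
  refine ⟨min 1 (min (δ1 / 8) δ2), c1 / 2, K1, 36 * C, min (δ1 / 4) δ2, N1 + N2 + N3 + 1,
    by positivity, min_le_left _ _, by positivity, hK1, by linarith, by positivity, ?_⟩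
  intro n g d p P k k' hn hg hp hpd hdn hPs hP hkk
  have hcd1 : (p : ℝ) ≤ d := by
    refine hpd.trans ?_
    have : min 1 (min (δ1 / 8) δ2) ≤ 1 := min_le_left _ _
    have hd0 : (0 : ℝ) ≤ (d : ℝ) := Nat.cast_nonneg _
    nlinarith
  have hpd' : p ≤ d := by exact_mod_cast hcd1
  have hdnR : (d : ℝ) ≤ (n : ℝ) := by exact_mod_cast hdn
  have hd0 : (0 : ℝ) ≤ (d : ℝ) := Nat.cast_nonneg _
  have hn0 : (0 : ℝ) ≤ (n : ℝ) := Nat.cast_nonneg _
  have hp8 : (p : ℝ) ≤ δ1 / 8 * n := by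
    refine hpd.trans ?_
    have h1 : min 1 (min (δ1 / 8) δ2) ≤ δ1 / 8 := (min_le_right _ _).trans (min_le_left _ _)
    exact mul_le_mul h1 hdnR hd0 (by positivity)
  have hp2 : (p : ℝ) ≤ δ2 * n := by
    refine hpd.trans ?_
    have h1 : min 1 (min (δ1 / 8) δ2) ≤ δ2 := (min_le_right _ _).trans (min_le_right _ _)
    exact mul_le_mul h1 hdnR hd0 (by positivity)
  have hR0 : 0 ≤ K1 * n * d * (36 * C) ^ p * exp (-(c1 / 2) * d) * SST.nu n g := by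
    have h1 : 0 ≤ SST.nu n g := RB.nu_nn _ _
    have h2 : 0 < 36 * C := by linarith
    positivity
  by_cases hev : Even (d + p)
  swap
  · rw [Num.muG_odd (by rw [hPs]; exact hev), zero_mul]
    exact hR0
  obtain ⟨i, hi⟩ := hev
  obtain ⟨j, hj⟩ : ∃ j, j = n + p - i := ⟨_, rfl⟩
  have hi1 : 1 ≤ i := by omega
  have hj1 : 1 ≤ j := by omega
  have hij : i + j = n + p := by omega
  have hi2 : 2 * i ≤ n + p := by omega
  have hκ1 : 1 ≤ Multiset.card P := by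
    rw [Nat.one_le_iff_ne_zero]
    intro h0
    rw [Multiset.card_eq_zero] at h0
    rw [h0, Multiset.sum_zero] at hPs
    omega
  have hκp : Multiset.card P ≤ p := by
    rw [← hPs]
    exact tr_card hP
  obtain ⟨κ, hκ⟩ : ∃ κ, κ = Multiset.card P := ⟨_, rfl⟩
  rw [← hκ] at hκ1 hκp hkk
  -- the window
  have hw : |((k + k' : ℕ) : ℝ) - θ * ((n + p + 2 : ℕ) : ℝ)| ≤ δ1 * ((n + p + 2 : ℕ) : ℝ) := by
    have e1 : ((k + k' : ℕ) : ℝ) = g + 1 - κ := by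
      have h1 : ((k + k' + κ : ℕ) : ℝ) = ((g + 1 : ℕ) : ℝ) := by rw [hkk]
      push_cast at h1 ⊢
      linarith
    rw [e1]
    push_cast
    have h1 : |(g : ℝ) - θ * n| ≤ δ1 / 4 * n :=
      hg.trans (mul_le_mul_of_nonneg_right (min_le_left _ _) hn0)
    have h2 : 1 ≤ δ1 / 4 * n := by
      have h3 : 4 / δ1 ≤ (n : ℝ) := by
        refine hN3.trans ?_
        have : N3 ≤ n := by omega
        exact_mod_cast this
      rw [div_le_iff₀ hδ1] at h3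
      linarith
    have h3 : (κ : ℝ) ≤ p := by exact_mod_cast hκp
    have h4 : (1 : ℝ) ≤ κ := by exact_mod_cast hκ1
    have hp1 : (1 : ℝ) ≤ p := by exact_mod_cast hp
    rw [abs_le] at h1 ⊢
    have h5 : θ * ((n : ℝ) + p + 2) = θ * n + θ * (p + 2) := by ring
    have h6 : 0 ≤ θ * ((p : ℝ) + 2) := by positivity
    have h7 : θ * ((p : ℝ) + 2) ≤ 1 / 2 * (p + 2) :=
      mul_le_mul_of_nonneg_right hθ1.le (by positivity)
    have h8 : δ1 * ((n : ℝ) + p + 2) = δ1 * n + δ1 * (p + 2) := by ring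
    have h9 : 0 ≤ δ1 * ((p : ℝ) + 2) := by positivity
    rw [h5, h8]
    constructor
    · linarith [h1.1]
    · linarith [h1.2]
  have hnu := tr_nu hK1 htwo hc1 hi1 hj1 hij hi2 (by omega) hw
  have hG : k + k' = g + 1 - κ := by omega
  have hthr' := hthr n g p κ (by omega) (hg.trans (mul_le_mul_of_nonneg_right (min_le_right _ _) hn0))
    hp2 hκ1 hκp
  rw [← hG] at hthr'
  -- the two factors
  have u1 := Num.UBC P hP d k (by omega)
  have u2 := Num.UBC P hP (2 * n - d) k' (by omega)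
  rw [hPs, ← hκ] at u1 u2
  have e1 : (d + p) / 2 = i := by omega
  have e2 : (2 * n - d + p) / 2 = j := by omega
  rw [e1] at u1
  rw [e2] at u2
  have v1 : (3 * ((d + p : ℕ) : ℝ)) ^ κ ≤ (6 * d) ^ κ := by
    refine pow_le_pow_left₀ (by positivity) ?_ κ
    push_cast
    linarith
  have v2 : (3 * ((2 * n - d + p : ℕ) : ℝ)) ^ κ ≤ (6 * n) ^ κ := by
    refine pow_le_pow_left₀ (by positivity) ?_ κ
    have h1 : ((2 * n - d + p : ℕ) : ℝ) ≤ 2 * n := by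
      have : 2 * n - d + p ≤ 2 * n := by omega
      exact_mod_cast this
    linarith
  have w1 : Num.muG P d k ≤ (6 * d) ^ κ * SST.nu i k :=
    u1.trans (mul_le_mul_of_nonneg_right v1 (RB.nu_nn _ _))
  have w2 : Num.muG P (2 * n - d) k' ≤ (6 * n) ^ κ * SST.nu j k' :=
    u2.trans (mul_le_mul_of_nonneg_right v2 (RB.nu_nn _ _))
  have w3 : Num.muG P d k * Num.muG P (2 * n - d) k' ≤
      ((6 * d) ^ κ * SST.nu i k) * ((6 * n) ^ κ * SST.nu j k') :=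
    mul_le_mul w1 w2 (Num.muG_nonneg _ _ _) (mul_nonneg (by positivity) (RB.nu_nn _ _))
  -- powers
  have hpow : (6 * (d : ℝ)) ^ κ * (6 * n) ^ κ ≤ 36 ^ p * (n * d) * (n : ℝ) ^ (2 * (κ - 1)) := by
    have e3 : (6 * (d : ℝ)) ^ κ * (6 * n) ^ κ = 36 ^ κ * (d * n) ^ κ := by
      rw [← mul_pow, ← mul_pow]
      congr 1
      ring
    have e4 : ((d : ℝ) * n) ^ κ = (d * n) * (d * n) ^ (κ - 1) := by
      conv_lhs => rw [show κ = (κ - 1) + 1 by omega, pow_succ]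
      ring
    have e5 : ((d : ℝ) * n) ^ (κ - 1) ≤ (n : ℝ) ^ (2 * (κ - 1)) := by
      rw [pow_mul]
      refine pow_le_pow_left₀ (by positivity) ?_ _
      rw [sq]
      exact mul_le_mul_of_nonneg_right hdnR hn0
    have e6 : (36 : ℝ) ^ κ ≤ 36 ^ p := pow_le_pow_right₀ (by norm_num) hκp
    rw [e3, e4]
    calc (36 : ℝ) ^ κ * ((d * n) * (d * n) ^ (κ - 1)) ≤ 36 ^ p * ((d * n) * (n : ℝ) ^ (2 * (κ - 1))) := by
          refine mul_le_mul e6 (mul_le_mul_of_nonneg_left e5 (by positivity)) (by positivity) (by positivity)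
      _ = 36 ^ p * (n * d) * (n : ℝ) ^ (2 * (κ - 1)) := by ring
  have hE : exp (-c1 * i) ≤ exp (-(c1 / 2) * d) := by
    refine exp_le_exp.2 ?_
    have h1 : (d : ℝ) ≤ 2 * i := by
      have : d ≤ 2 * i := by omega
      exact_mod_cast this
    nlinarith
  have hν0 : 0 ≤ SST.nu (n + p + 1) (k + k') := RB.nu_nn _ _
  have hX0 : 0 ≤ SST.nu i k * SST.nu j k' := mul_nonneg (RB.nu_nn _ _) (RB.nu_nn _ _)
  calc Num.muG P d k * Num.muG P (2 * n - d) k'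
      ≤ ((6 * d) ^ κ * SST.nu i k) * ((6 * n) ^ κ * SST.nu j k') := w3
    _ = ((6 * (d : ℝ)) ^ κ * (6 * n) ^ κ) * (SST.nu i k * SST.nu j k') := by ring
    _ ≤ (36 ^ p * (n * d) * (n : ℝ) ^ (2 * (κ - 1))) *
        (K1 * exp (-(c1 / 2) * d) * SST.nu (n + p + 1) (k + k')) := by
        refine mul_le_mul hpow (hnu.trans ?_) hX0 (by positivity)
        exact mul_le_mul_of_nonneg_right (mul_le_mul_of_nonneg_left hE hK1.le) hν0
    _ = (36 ^ p * (n * d)) * (K1 * exp (-(c1 / 2) * d)) *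
        ((n : ℝ) ^ (2 * (κ - 1)) * SST.nu (n + p + 1) (k + k')) := by ring
    _ ≤ (36 ^ p * (n * d)) * (K1 * exp (-(c1 / 2) * d)) * (C ^ p * SST.nu n g) :=
        mul_le_mul_of_nonneg_left hthr' (by positivity)
    _ = K1 * n * d * (36 * C) ^ p * exp (-(c1 / 2) * d) * SST.nu n g := by
        rw [mul_pow]
        ring

end SYS.XP
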