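import Pool.Agent.SYS.XP.NWin
import Pool.Agent.SYS.SP.Bb
import Pool.Agent.SYS.SP.Cc

/-!
# SYS-XP-NTwo: products of two numbers of triangulations, exponential decay in the size of the smaller one
-/

namespace SYS.XP

open Real

/-- The elementary inequality in case (A). -/
private theorem two_A {C1 c0 δ' : ℝ} (hc0 : 0 < c0) (hC1 : 1 ≤ C1) (hδ'0 : 0 ≤ δ')
    (hδ' : δ' * log C1 * √C1 ≤ c0 / 6) {N i a : ℕ} (hN : 0 < N) (hi : i ≤ N) (ha : (a : ℝ) ≤ δ' * N) :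
    (C1 * ((i : ℝ) / N) ^ 2) ^ a * exp (-c0 * i) ≤ exp (-(c0 / 6) * i) := by
  have hL : 0 ≤ log C1 := log_nonneg hC1
  have hN' : (0 : ℝ) < N := by exact_mod_cast hN
  have hi' : (i : ℝ) ≤ N := by exact_mod_cast hi
  have hi0 : (0 : ℝ) ≤ i := Nat.cast_nonneg i
  have hC0 : 0 < C1 := lt_of_lt_of_le one_pos hC1
  have hr0 : 0 ≤ (i : ℝ) / N := div_nonneg hi0 hN'.le
  have hr1 : (i : ℝ) / N ≤ 1 := (div_le_one hN').2 hi'
  have hb0 : 0 ≤ C1 * ((i : ℝ) / N) ^ 2 := mul_nonneg hC0.le (sq_nonneg _)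
  by_cases h1 : C1 * ((i : ℝ) / N) ^ 2 ≤ 1
  · have h2 : (C1 * ((i : ℝ) / N) ^ 2) ^ a ≤ 1 := pow_le_one₀ hb0 h1
    calc (C1 * ((i : ℝ) / N) ^ 2) ^ a * exp (-c0 * i) ≤ 1 * exp (-c0 * i) :=
          mul_le_mul_of_nonneg_right h2 (exp_pos _).le
      _ = exp (-c0 * i) := one_mul _
      _ ≤ exp (-(c0 / 6) * i) := by
          rw [exp_le_exp]
          nlinarith
  · push Not at h1
    have h2 : (N : ℝ) ≤ √C1 * i := by
      by_contra hcon
      push Not at hcon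
      have h3 : √C1 * ((i : ℝ) / N) < 1 := by
        rw [← mul_div_assoc, div_lt_one hN']
        exact hcon
      have h4 : (√C1 * ((i : ℝ) / N)) ^ 2 < 1 := by
        have h5 : 0 ≤ √C1 * ((i : ℝ) / N) := mul_nonneg (sqrt_nonneg _) hr0
        nlinarith
      rw [mul_pow, sq_sqrt hC0.le] at h4
      linarith
    have h3 : (C1 * ((i : ℝ) / N) ^ 2) ^ a ≤ C1 ^ a := by
      refine pow_le_pow_left₀ hb0 ?_ a
      have h4 : ((i : ℝ) / N) ^ 2 ≤ 1 := pow_le_one₀ hr0 hr1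
      nlinarith
    have h4 : C1 ^ a ≤ exp (c0 / 6 * i) := by
      have h5 : C1 ^ a = exp (a * log C1) := by
        rw [exp_nat_mul, exp_log hC0]
      rw [h5, exp_le_exp]
      calc (a : ℝ) * log C1 ≤ δ' * N * log C1 := mul_le_mul_of_nonneg_right ha hL
        _ ≤ δ' * (√C1 * i) * log C1 :=
            mul_le_mul_of_nonneg_right (mul_le_mul_of_nonneg_left h2 hδ'0) hL
        _ = δ' * log C1 * √C1 * i := by ring
        _ ≤ c0 / 6 * i := mul_le_mul_of_nonneg_right hδ' hi0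
    calc (C1 * ((i : ℝ) / N) ^ 2) ^ a * exp (-c0 * i) ≤ exp (c0 / 6 * i) * exp (-c0 * i) :=
          mul_le_mul_of_nonneg_right (h3.trans h4) (exp_pos _).le
      _ = exp (c0 / 6 * i + -c0 * i) := (exp_add _ _).symm
      _ ≤ exp (-(c0 / 6) * i) := by
          rw [exp_le_exp]
          nlinarith

/-- The elementary inequality in case (C). -/
private theorem two_C {C1 c0 δ' : ℝ} (hc0 : 0 < c0) (hC1 : 1 ≤ C1)
    (hδ' : δ' * log C1 ≤ c0 / 6) {N i j b : ℕ} (hN : 0 < N) (hi : 3 * i ≤ 2 * N) (hj : i + j = N)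
    (hb : (b : ℝ) ≤ δ' * N) :
    (C1 * ((j : ℝ) / N) ^ 2) ^ b * exp (-c0 * j) ≤ exp (-(c0 / 6) * i) := by
  have hL : 0 ≤ log C1 := log_nonneg hC1
  have hN' : (0 : ℝ) < N := by exact_mod_cast hN
  have hj' : (i : ℝ) + j = N := by exact_mod_cast hj
  have hi3 : 3 * (i : ℝ) ≤ 2 * N := by exact_mod_cast hi
  have hi0 : (0 : ℝ) ≤ i := Nat.cast_nonneg i
  have hj0 : (0 : ℝ) ≤ j := Nat.cast_nonneg j
  have hC0 : 0 < C1 := lt_of_lt_of_le one_pos hC1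
  have hr0 : 0 ≤ (j : ℝ) / N := div_nonneg hj0 hN'.le
  have hr1 : (j : ℝ) / N ≤ 1 := (div_le_one hN').2 (by linarith)
  have hb0 : 0 ≤ C1 * ((j : ℝ) / N) ^ 2 := mul_nonneg hC0.le (sq_nonneg _)
  have h3 : (C1 * ((j : ℝ) / N) ^ 2) ^ b ≤ C1 ^ b := by
    refine pow_le_pow_left₀ hb0 ?_ b
    have h4 : ((j : ℝ) / N) ^ 2 ≤ 1 := pow_le_one₀ hr0 hr1
    nlinarith
  have h4 : C1 ^ b ≤ exp (c0 / 6 * N) := by
    have h5 : C1 ^ b = exp (b * log C1) := by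
      rw [exp_nat_mul, exp_log hC0]
    rw [h5, exp_le_exp]
    calc (b : ℝ) * log C1 ≤ δ' * N * log C1 := mul_le_mul_of_nonneg_right hb hL
      _ = δ' * log C1 * N := by ring
      _ ≤ c0 / 6 * N := mul_le_mul_of_nonneg_right hδ' hN'.le
  calc (C1 * ((j : ℝ) / N) ^ 2) ^ b * exp (-c0 * j) ≤ exp (c0 / 6 * N) * exp (-c0 * j) :=
        mul_le_mul_of_nonneg_right (h3.trans h4) (exp_pos _).le
    _ = exp (c0 / 6 * N + -c0 * j) := (exp_add _ _).symm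
    _ ≤ exp (-(c0 / 6) * i) := by
        rw [exp_le_exp]
        have h5 : (j : ℝ) = N - i := by linarith
        rw [h5]
        nlinarith

theorem two {θ x : ℝ} (h : Num.Par θ x) : ∃ (c K δ : ℝ) (N0 : ℕ), 0 < c ∧ 0 < K ∧ 0 < δ ∧ ∀ N G : ℕ, N0 ≤ N →
    |(G : ℝ) - θ * N| ≤ δ * N → ∀ i a : ℕ, 3 * i ≤ 2 * N → a ≤ G →
      RB.tt i a * RB.tt (N - i) (G - a) ≤ K * exp (-c * i) * RB.tt N G := by
  obtain ⟨c0, C1, δ0, K, hc0, hC1, hδ0, hK, hbb⟩ := SP.bb h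
  obtain ⟨δ1, N1, hδ1, hN1, hw1⟩ := win_of_ev hbb
  have hL : 0 ≤ log C1 := log_nonneg hC1
  have hs1 : 1 ≤ √C1 := one_le_sqrt.2 hC1
  have hden : 0 < 6 * (√C1 * (log C1 + 1)) := by positivity
  obtain ⟨δ', hδ'⟩ : ∃ t : ℝ, t = min δ0 (c0 / (6 * (√C1 * (log C1 + 1)))) := ⟨_, rfl⟩
  have hδ'0 : 0 < δ' := by
    rw [hδ']
    exact lt_min hδ0 (div_pos hc0 hden)
  have hδ'1 : δ' ≤ δ0 := by
    rw [hδ']
    exact min_le_left _ _
  have hδ'2 : δ' * (6 * (√C1 * (log C1 + 1))) ≤ c0 := by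
    rw [← le_div_iff₀ hden, hδ']
    exact min_le_right _ _
  have hA : δ' * log C1 * √C1 ≤ c0 / 6 := by
    have h1 : 0 ≤ δ' * √C1 := mul_nonneg hδ'0.le (sqrt_nonneg _)
    nlinarith
  have hC : δ' * log C1 ≤ c0 / 6 := by
    have h1 : δ' * log C1 * 1 ≤ δ' * log C1 * √C1 :=
      mul_le_mul_of_nonneg_left hs1 (mul_nonneg hδ'0.le hL)
    linarith
  obtain ⟨c', hc', hcc⟩ := SP.cc_big h hδ'0
  obtain ⟨δ2, N2, hδ2, hN2, hw2⟩ := win_of_ev hcc
  refine ⟨min (c0 / 6) c', K + 1, min δ1 δ2, max N1 N2, lt_min (by linarith) hc', by linarith,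
    lt_min hδ1 hδ2, fun N G hN hG i a hi ha => ?_⟩
  have hN1' : N1 ≤ N := (le_max_left _ _).trans hN
  have hN2' : N2 ≤ N := (le_max_right _ _).trans hN
  have hN0 : 0 < N := by omega
  have hNr : (0 : ℝ) < N := by exact_mod_cast hN0
  have hG1 : |(G : ℝ) - θ * N| ≤ δ1 * N :=
    hG.trans (mul_le_mul_of_nonneg_right (min_le_left _ _) hNr.le)
  have hG2 : |(G : ℝ) - θ * N| ≤ δ2 * N :=
    hG.trans (mul_le_mul_of_nonneg_right (min_le_right _ _) hNr.le)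
  have hB : ∀ i a : ℕ, i ≤ N → a ≤ G → (a : ℝ) ≤ δ0 * N → RB.tt i a * RB.tt (N - i) (G - a) ≤
      K * ((C1 * ((i : ℝ) / N) ^ 2) ^ a * exp (-c0 * i)) * RB.tt N G := hw1 N G hN1' hG1
  have hD : ∀ i j a b : ℕ, i + j = N → a + b = G → δ' * N ≤ a → δ' * N ≤ b →
      RB.tt i a * RB.tt j b ≤ exp (-c' * N) * RB.tt N G := hw2 N G hN2' hG2
  have hT := RB.tt_nn N G
  have hi0 : (0 : ℝ) ≤ i := Nat.cast_nonneg i
  have hiN : i ≤ N := by omega
  have hiN' : (i : ℝ) ≤ N := by exact_mod_cast hiN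
  have hm1 : exp (-(c0 / 6) * i) ≤ exp (-(min (c0 / 6) c') * i) := by
    rw [exp_le_exp]
    have h1 := min_le_left (c0 / 6) c'
    nlinarith
  have hm2 : exp (-c' * N) ≤ exp (-(min (c0 / 6) c') * i) := by
    rw [exp_le_exp]
    have h1 := min_le_right (c0 / 6) c'
    have h2 : min (c0 / 6) c' * i ≤ c' * N :=
      mul_le_mul h1 hiN' hi0 hc'.le
    linarith
  have hE := exp_pos (-(min (c0 / 6) c') * i)
  have hfin : ∀ v : ℝ, v ≤ exp (-(min (c0 / 6) c') * i) →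
      K * v * RB.tt N G ≤ (K + 1) * exp (-(min (c0 / 6) c') * i) * RB.tt N G := by
    intro v hv
    refine mul_le_mul_of_nonneg_right ?_ hT
    have h1 : K * v ≤ K * exp (-(min (c0 / 6) c') * i) := mul_le_mul_of_nonneg_left hv hK.le
    linarith
  by_cases hca : (a : ℝ) ≤ δ' * N
  · have ha0 : (a : ℝ) ≤ δ0 * N := hca.trans (mul_le_mul_of_nonneg_right hδ'1 hNr.le)
    refine (hB i a hiN ha ha0).trans (hfin _ ?_)
    exact (two_A hc0 hC1 hδ'0.le hA hN0 hiN hca).trans hm1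
  · push Not at hca
    obtain ⟨j, hj⟩ : ∃ j, i + j = N := ⟨N - i, by omega⟩
    obtain ⟨b, hb⟩ : ∃ b, a + b = G := ⟨G - a, by omega⟩
    have hNi : N - i = j := by omega
    have hGa : G - a = b := by omega
    rw [hNi, hGa]
    by_cases hcb : (b : ℝ) ≤ δ' * N
    · have hb0 : (b : ℝ) ≤ δ0 * N := hcb.trans (mul_le_mul_of_nonneg_right hδ'1 hNr.le)
      have h1 := hB j b (by omega) (by omega) hb0
      have hNj : N - j = i := by omega
      have hGb : G - b = a := by omega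
      rw [hNj, hGb, mul_comm] at h1
      refine h1.trans (hfin _ ?_)
      exact (two_C hc0 hC1 hC hN0 hi hj hcb).trans hm1
    · push Not at hcb
      refine (hD i j a b hj hb hca.le hcb.le).trans ?_
      refine mul_le_mul_of_nonneg_right ?_ hT
      have h1 : 0 ≤ K * exp (-(min (c0 / 6) c') * i) := mul_nonneg hK.le hE.le
      linarith

end SYS.XP
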