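import Pool.Agent.SYS.RB.Win

/-!
# SYS-XP-NWin: windows; number of partitions
-/

namespace SYS.XP

open Filter Topology

theorem win_of_ev {θ : ℝ} {Q : ℕ × ℕ → Prop} (h : ∀ᶠ q in RB.Fth θ, Q q) :
    ∃ (δ : ℝ) (N0 : ℕ), 0 < δ ∧ 1 ≤ N0 ∧ ∀ n g : ℕ, N0 ≤ n → |(g : ℝ) - θ * n| ≤ δ * n → Q (n, g) := by
  have h' : {q | Q q} ∈ RB.Fth θ := h
  unfold RB.Fth at h'
  rw [Filter.mem_inf_iff] at h'
  obtain ⟨A, hA, B, hB, hAB⟩ := h'
  rw [Filter.mem_comap] at hA hB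
  obtain ⟨A', hA', hA2⟩ := hA
  obtain ⟨B', hB', hB2⟩ := hB
  rw [Filter.mem_atTop_sets] at hA'
  obtain ⟨N0, hN0⟩ := hA'
  obtain ⟨r, hr, hr2⟩ := Metric.mem_nhds_iff.1 hB'
  refine ⟨r / 2, N0 + 1, by positivity, by omega, fun n g hn hg => ?_⟩
  have hn0 : (0 : ℝ) < n := by
    have : 0 < n := by omega
    exact_mod_cast this
  have h1 : ((n, g) : ℕ × ℕ) ∈ A := hA2 (hN0 n (by omega))
  have h2 : ((n, g) : ℕ × ℕ) ∈ B := by
    refine hB2 ?_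
    refine hr2 ?_
    rw [Metric.mem_ball, Real.dist_eq]
    have h3 : (g : ℝ) / n - θ = ((g : ℝ) - θ * n) / n := by
      field_simp
    show |(g : ℝ) / n - θ| < r
    rw [h3, abs_div, abs_of_pos hn0, div_lt_iff₀ hn0]
    have h4 : r / 2 * n < r * n := mul_lt_mul_of_pos_right (by linarith) hn0
    linarith
  have h3 : ((n, g) : ℕ × ℕ) ∈ A ∩ B := ⟨h1, h2⟩
  rw [← hAB] at h3
  exact h3

theorem ev_of_win {θ δ : ℝ} {N0 : ℕ} {Q : ℕ × ℕ → Prop} (hδ : 0 < δ)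
    (h : ∀ n g : ℕ, N0 ≤ n → |(g : ℝ) - θ * n| ≤ δ * n → Q (n, g)) : ∀ᶠ q in RB.Fth θ, Q q := by
  have h1 : ∀ᶠ p in RB.Fth θ, |(p.2 : ℝ) / p.1 - θ| < δ := by
    have h2 := RB.div_lim θ
    rw [Metric.tendsto_nhds] at h2
    filter_upwards [h2 δ hδ] with p hp
    rwa [Real.dist_eq] at hp
  filter_upwards [RB.ge_ev θ (N0 + 1), h1] with p hp1 hp2
  have hn0 : (0 : ℝ) < p.1 := by
    have : 0 < p.1 := by omega
    exact_mod_cast this
  refine h p.1 p.2 (by omega) ?_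
  have h3 : (p.2 : ℝ) - θ * p.1 = ((p.2 : ℝ) / p.1 - θ) * p.1 := by
    field_simp
  rw [h3, abs_mul, abs_of_pos hn0]
  exact mul_le_mul_of_nonneg_right hp2.le hn0.le

theorem card_part (p : ℕ) : Fintype.card p.Partition ≤ 2 ^ p := by
  have h1 := Fintype.card_le_of_surjective _ (Nat.Partition.ofComposition_surj (n := p))
  rw [composition_card] at h1
  exact h1.trans (Nat.pow_le_pow_right (by norm_num) (Nat.sub_le _ _))

end SYS.XP
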