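import Pool.Agent.SYS.XP.CTyp

/-!
# SYS-XP-PCnt: number of pairs (triangulation, cut)

Union bounds over the type of the cut region (`ss_ext`, `ss_cnt`) and over the set of faces.
-/

namespace SYS.XP

open Classical SST

private theorem nc_bU {ι α : Type*} [Finite α] (s : Finset ι) (t : ι → Set α) {A : Set α}
    (h : ∀ a ∈ A, ∃ i ∈ s, a ∈ t i) : A.ncard ≤ ∑ i ∈ s, (t i).ncard := by
  have h1 : A.ncard ≤ (s.biUnion fun i => (Set.toFinite (t i)).toFinset).card := by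
    rw [← Set.ncard_coe_finset]
    refine Set.ncard_le_ncard ?_ (Finset.finite_toSet _)
    intro a ha
    obtain ⟨i, hi, hai⟩ := h a ha
    rw [Finset.mem_coe, Finset.mem_biUnion]
    exact ⟨i, hi, (Set.Finite.mem_toFinset _).2 hai⟩
  refine h1.trans (Finset.card_biUnion_le.trans (Finset.sum_le_sum fun i _ => ?_))
  rw [Set.ncard_eq_toFinset_card _ (Set.toFinite _)]

private theorem pc_muG_nn (P : Multiset ℕ) (F g : ℕ) : 0 ≤ Num.muG P F g := by
  unfold Num.muG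
  split_ifs
  · exact_mod_cast SYS.A.muP_nonneg P F _
  · exact le_rfl

private theorem EE_nonneg' (n g d p : ℕ) : 0 ≤ EE n g d p := by
  unfold EE
  refine Finset.sum_nonneg fun P _ => Finset.sum_nonneg fun h _ => Finset.sum_nonneg fun h' _ => ?_
  split_ifs
  · exact mul_nonneg (pc_muG_nn _ _ _) (pc_muG_nn _ _ _)
  · exact le_rfl

theorem fib_le {n g d p : ℕ} (hd : 1 ≤ d) (hd' : d ≤ 2 * n) (hp : 1 ≤ p) {Y : Set (Fin (6 * n))} (hY : Y.ncard = 3 * d) :
    (({T : Tri (Fin (6 * n)) | T ∈ Trn n g ∧ Cut2 T Y ∧ (bdy T Y).ncard = p}.ncard : ℕ) : ℝ) ≤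
      ((3 * d).factorial : ℝ) * ((3 * (2 * n - d)).factorial : ℝ) * EE n g d p := by
  have hE := EE_nonneg' n g d p
  by_cases hpY : p ≤ Yᶜ.ncard
  swap
  · have h0 : {T : Tri (Fin (6 * n)) | T ∈ Trn n g ∧ Cut2 T Y ∧ (bdy T Y).ncard = p} = ∅ := by
      rw [Set.eq_empty_iff_forall_notMem]
      rintro T ⟨-, -, hT⟩
      have h1 := bdy_le T Y
      omega
    rw [h0, Set.ncard_empty, Nat.cast_zero]
    positivity
  have hYne : Y.Nonempty := by
    rw [← Set.ncard_pos, hY]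
    omega
  have hcard : ∀ P : p.Partition, 1 ≤ Multiset.card P.parts := by
    intro P
    rw [Nat.one_le_iff_ne_zero]
    intro h0
    have h1 := P.parts_sum
    rw [Multiset.card_eq_zero.1 h0, Multiset.sum_zero] at h1
    omega
  -- the type of the region
  have key : ∀ (P : p.Partition) (k k' : ℕ), k + k' + Multiset.card P.parts = g + 1 →
      ((⋃ S ∈ SS Y d P.parts k, {T | T ∈ S.Ext g ∧ S.HConn T}).ncard : ℝ) ≤
        ((3 * d).factorial : ℝ) * ((3 * (2 * n - d)).factorial : ℝ) *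
          (Num.muG P.parts d k * Num.muG P.parts (2 * n - d) k') := by
    intro P k k' hk
    have h1 := nc_bU (Set.toFinite (SS Y d P.parts k)).toFinset
      (fun S => {T | T ∈ S.Ext g ∧ S.HConn T})
      (A := ⋃ S ∈ SS Y d P.parts k, {T | T ∈ S.Ext g ∧ S.HConn T}) (by
        intro T hT
        rw [Set.mem_iUnion₂] at hT
        obtain ⟨S, hS, hT⟩ := hT
        exact ⟨S, (Set.Finite.mem_toFinset _).2 hS, hT⟩)
    have h2 : ((⋃ S ∈ SS Y d P.parts k, {T | T ∈ S.Ext g ∧ S.HConn T}).ncard : ℝ) ≤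
        ∑ S ∈ (Set.toFinite (SS Y d P.parts k)).toFinset,
          (({T | T ∈ S.Ext g ∧ S.HConn T}.ncard : ℕ) : ℝ) := by exact_mod_cast h1
    refine h2.trans ?_
    have h3 : ∀ S ∈ (Set.toFinite (SS Y d P.parts k)).toFinset,
        (({T | T ∈ S.Ext g ∧ S.HConn T}.ncard : ℕ) : ℝ) =
          ((3 * (2 * n - d)).factorial : ℝ) * Num.muG P.parts (2 * n - d) k' := by
      intro S hS
      exact ss_ext hY hd' (hcard P) hk ((Set.Finite.mem_toFinset _).1 hS)
    rw [Finset.sum_congr rfl h3, Finset.sum_const, nsmul_eq_mul,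
      ← Set.ncard_eq_toFinset_card _ (Set.toFinite _)]
    have h4 := ss_cnt hY hYne (P := P.parts) (fun q hq => P.parts_pos hq)
      (by rw [P.parts_sum]; exact hpY) k
    calc ((SS Y d P.parts k).ncard : ℝ) *
          (((3 * (2 * n - d)).factorial : ℝ) * Num.muG P.parts (2 * n - d) k')
        ≤ (((3 * d).factorial : ℝ) * Num.muG P.parts d k) *
          (((3 * (2 * n - d)).factorial : ℝ) * Num.muG P.parts (2 * n - d) k') :=
          mul_le_mul_of_nonneg_right h4 (mul_nonneg (Nat.cast_nonneg _) (pc_muG_nn _ _ _))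
      _ = _ := by ring
  obtain ⟨t, ht⟩ : ∃ t : p.Partition × ℕ × ℕ → Set (Tri (Fin (6 * n))), t = fun z =>
    if z.2.1 + z.2.2 + Multiset.card z.1.parts = g + 1 then
      ⋃ S ∈ SS Y d z.1.parts z.2.1, {T | T ∈ S.Ext g ∧ S.HConn T} else ∅ := ⟨_, rfl⟩
  have h1 := nc_bU ((Finset.univ : Finset p.Partition) ×ˢ Finset.range (g + 1) ×ˢ Finset.range (g + 1)) t
    (A := {T : Tri (Fin (6 * n)) | T ∈ Trn n g ∧ Cut2 T Y ∧ (bdy T Y).ncard = p}) (by
      rintro T ⟨hT, hC, hb⟩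
      obtain ⟨P, k, k', hP, hk, hS⟩ := cut_mem hT hC hY hb
      refine ⟨(P, k, k'), ?_, ?_⟩
      · rw [Finset.mem_product, Finset.mem_product, Finset.mem_range, Finset.mem_range]
        exact ⟨Finset.mem_univ _, by dsimp only; omega, by dsimp only; omega⟩
      · rw [ht]
        dsimp only
        rw [if_pos hk, Set.mem_iUnion₂]
        exact ⟨cut T Y hC.fs, hS, ⟨⟨hT, cut_le T Y hC.fs⟩, cut_hconn hC⟩⟩)
  have h2 : (({T : Tri (Fin (6 * n)) | T ∈ Trn n g ∧ Cut2 T Y ∧ (bdy T Y).ncard = p}.ncard : ℕ) : ℝ) ≤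
      ∑ z ∈ (Finset.univ : Finset p.Partition) ×ˢ Finset.range (g + 1) ×ˢ Finset.range (g + 1),
        ((t z).ncard : ℝ) := by exact_mod_cast h1
  refine h2.trans ?_
  rw [Finset.sum_product]
  unfold EE
  rw [Finset.mul_sum]
  refine Finset.sum_le_sum fun P _ => ?_
  rw [Finset.sum_product, Finset.mul_sum]
  refine Finset.sum_le_sum fun k _ => ?_
  rw [Finset.mul_sum]
  refine Finset.sum_le_sum fun k' _ => ?_
  rw [ht]
  dsimp only
  split_ifs with hc
  · exact key P k k' hc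
  · rw [Set.ncard_empty, Nat.cast_zero, mul_zero]

theorem pcnt {n g d p : ℕ} (hd : 1 ≤ d) (hd' : d ≤ 2 * n) (hp : 1 ≤ p) :
    (({z : Tri (Fin (6 * n)) × Set (Fin (6 * n)) | z.1 ∈ Trn n g ∧ Cut2 z.1 z.2 ∧ z.2.ncard = 3 * d ∧
      (bdy z.1 z.2).ncard = p}.ncard : ℕ) : ℝ) ≤ ((6 * n).factorial : ℝ) * EE n g d p := by
  have h1 := nc_bU (Finset.powersetCard (3 * d) (Finset.univ : Finset (Fin (6 * n))))
    (fun i => (fun T : Tri (Fin (6 * n)) => (T, (i : Set (Fin (6 * n))))) ''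
      {T : Tri (Fin (6 * n)) | T ∈ Trn n g ∧ Cut2 T (i : Set (Fin (6 * n))) ∧
        (bdy T (i : Set (Fin (6 * n)))).ncard = p})
    (A := {z : Tri (Fin (6 * n)) × Set (Fin (6 * n)) | z.1 ∈ Trn n g ∧ Cut2 z.1 z.2 ∧ z.2.ncard = 3 * d ∧
      (bdy z.1 z.2).ncard = p}) (by
      rintro ⟨T, Y⟩ ⟨hT, hC, hY, hb⟩
      dsimp only at hT hC hY hb
      refine ⟨(Set.toFinite Y).toFinset, ?_, ?_⟩
      · rw [Finset.mem_powersetCard]
        exact ⟨Finset.subset_univ _, by rw [← Set.ncard_eq_toFinset_card _ (Set.toFinite _), hY]⟩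
      · have e : ((Set.toFinite Y).toFinset : Set (Fin (6 * n))) = Y := Set.Finite.coe_toFinset _
        rw [e]
        exact ⟨T, ⟨hT, hC, hb⟩, rfl⟩)
  have h2 : (({z : Tri (Fin (6 * n)) × Set (Fin (6 * n)) | z.1 ∈ Trn n g ∧ Cut2 z.1 z.2 ∧ z.2.ncard = 3 * d ∧
      (bdy z.1 z.2).ncard = p}.ncard : ℕ) : ℝ) ≤
      ∑ i ∈ Finset.powersetCard (3 * d) (Finset.univ : Finset (Fin (6 * n))),
        ((((fun T : Tri (Fin (6 * n)) => (T, (i : Set (Fin (6 * n))))) ''
      {T : Tri (Fin (6 * n)) | T ∈ Trn n g ∧ Cut2 T (i : Set (Fin (6 * n))) ∧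
        (bdy T (i : Set (Fin (6 * n)))).ncard = p}).ncard : ℕ) : ℝ) := by exact_mod_cast h1
  refine h2.trans ?_
  have h3 : ∀ i ∈ Finset.powersetCard (3 * d) (Finset.univ : Finset (Fin (6 * n))),
      ((((fun T : Tri (Fin (6 * n)) => (T, (i : Set (Fin (6 * n))))) ''
      {T : Tri (Fin (6 * n)) | T ∈ Trn n g ∧ Cut2 T (i : Set (Fin (6 * n))) ∧
        (bdy T (i : Set (Fin (6 * n)))).ncard = p}).ncard : ℕ) : ℝ) ≤
      ((3 * d).factorial : ℝ) * ((3 * (2 * n - d)).factorial : ℝ) * EE n g d p := by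
    intro i hi
    rw [Finset.mem_powersetCard] at hi
    refine le_trans ?_ (fib_le (g := g) (p := p) hd hd' hp (Y := (i : Set (Fin (6 * n))))
      (by rw [Set.ncard_coe_finset]; exact hi.2))
    exact_mod_cast Set.ncard_image_le (Set.toFinite _)
  refine (Finset.sum_le_sum h3).trans (le_of_eq ?_)
  rw [Finset.sum_const, Finset.card_powersetCard, Finset.card_univ, Fintype.card_fin, nsmul_eq_mul]
  have h4 : (6 * n).choose (3 * d) * (3 * d).factorial * (3 * (2 * n - d)).factorial =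
      (6 * n).factorial := by
    have e : 3 * (2 * n - d) = 6 * n - 3 * d := by omega
    rw [e]
    exact Nat.choose_mul_factorial_mul_factorial (by omega)
  have h5 : (((6 * n).choose (3 * d) : ℕ) : ℝ) * ((3 * d).factorial : ℝ) *
      ((3 * (2 * n - d)).factorial : ℝ) = ((6 * n).factorial : ℝ) := by exact_mod_cast h4
  rw [← h5]
  ring

end SYS.XP
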