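import Pool.Agent.SYS.XP.NEE
import Pool.Agent.SYS.XP.PCnt

/-!
# SYS-XP-PbA: number of pairs (triangulation, set of faces with a small boundary)
-/

namespace SYS.XP

open Classical SST Real

private theorem pa_sub {c0 : ℝ} {n g d : ℕ} (hd : 1 ≤ d) :
    {z : Tri (Fin (6 * n)) × Set (Fin (6 * n)) | z.1 ∈ Trn n g ∧ z.2 ∈ fam (c0 / 3) z.1 ∧ z.2.ncard = 3 * d} ⊆
      ⋃ p ∈ Finset.Icc 1 ⌊c0 * d⌋₊, {z : Tri (Fin (6 * n)) × Set (Fin (6 * n)) | z.1 ∈ Trn n g ∧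
        Cut2 z.1 z.2 ∧ z.2.ncard = 3 * d ∧ (bdy z.1 z.2).ncard = p} := by
  have _ := hd
  rintro ⟨T, Y⟩ ⟨h1, ⟨h2, h3, h4⟩, h5⟩
  simp only at h1 h2 h3 h4 h5
  rw [Set.mem_iUnion₂]
  refine ⟨(bdy T Y).ncard, ?_, h1, h2, h5, rfl⟩
  rw [Finset.mem_Icc]
  constructor
  · exact (Set.ncard_pos (Set.toFinite _)).2 (bdy_ne h1.1 h2)
  · refine Nat.le_floor ?_
    rw [h5] at h4
    push_cast at h4
    linarith

private theorem pa_union {X : Type} [Finite X] (s : Finset ℕ) (B : ℕ → Set X) :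
    ((⋃ p ∈ s, B p).ncard : ℝ) ≤ ∑ p ∈ s, ((B p).ncard : ℝ) := by
  induction s using Finset.induction_on with
  | empty => simp
  | insert a s ha ih =>
    rw [Finset.set_biUnion_insert, Finset.sum_insert ha]
    have h1 : ((B a ∪ ⋃ p ∈ s, B p).ncard : ℝ) ≤ ((B a).ncard : ℝ) + ((⋃ p ∈ s, B p).ncard : ℝ) := by
      exact_mod_cast Set.ncard_union_le _ _
    linarith

theorem pairs_le {θ x : ℝ} (h : Num.Par θ x) : ∃ c c2 K : ℝ, 0 < c ∧ c ≤ 1 ∧ 0 < c2 ∧ 0 < K ∧ ∀ᶠ q in RB.Fth θ,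
    ∀ d : ℕ, 1 ≤ d →
      (({z : Tri (Fin (6 * q.1)) × Set (Fin (6 * q.1)) | z.1 ∈ Trn q.1 q.2 ∧ z.2 ∈ fam c z.1 ∧
        z.2.ncard = 3 * d}.ncard : ℕ) : ℝ) ≤ K * q.1 * exp (-c2 * d) * (Trn q.1 q.2).ncard := by
  obtain ⟨c0, c2, K0, hc0, hc01, hc2, hK0, hev⟩ := ee_le h
  refine ⟨c0 / 3, c2 / 2, K0 * (2 / c2), by positivity, by linarith, by positivity, by positivity, ?_⟩
  filter_upwards [hev] with q hq d hd
  obtain ⟨n, g⟩ := q
  dsimp only at hq ⊢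
  have hrhs : 0 ≤ K0 * (2 / c2) * (n : ℝ) * exp (-(c2 / 2) * d) * ((Trn n g).ncard : ℝ) := by positivity
  by_cases hdn : d ≤ n
  · have h1 : ((({z : Tri (Fin (6 * n)) × Set (Fin (6 * n)) | z.1 ∈ Trn n g ∧ z.2 ∈ fam (c0 / 3) z.1 ∧
        z.2.ncard = 3 * d}.ncard : ℕ)) : ℝ) ≤ ∑ p ∈ Finset.Icc 1 ⌊c0 * d⌋₊, (({z : Tri (Fin (6 * n)) ×
          Set (Fin (6 * n)) | z.1 ∈ Trn n g ∧ Cut2 z.1 z.2 ∧ z.2.ncard = 3 * d ∧
          (bdy z.1 z.2).ncard = p}.ncard : ℕ) : ℝ) := by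
      refine le_trans ?_ (pa_union _ _)
      exact_mod_cast Set.ncard_le_ncard (pa_sub hd) (Set.toFinite _)
    have hd0 : (0 : ℝ) ≤ d := Nat.cast_nonneg _
    have hfac : (0 : ℝ) < ((6 * n).factorial : ℝ) := by exact_mod_cast Nat.factorial_pos _
    have hnu : ((6 * n).factorial : ℝ) * SST.nu n g = ((Trn n g).ncard : ℝ) := by
      unfold SST.nu
      field_simp
    have h2 : ∀ p ∈ Finset.Icc 1 ⌊c0 * d⌋₊, (({z : Tri (Fin (6 * n)) × Set (Fin (6 * n)) | z.1 ∈ Trn n g ∧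
        Cut2 z.1 z.2 ∧ z.2.ncard = 3 * d ∧ (bdy z.1 z.2).ncard = p}.ncard : ℕ) : ℝ) ≤
          K0 * n * exp (-c2 * d) * ((Trn n g).ncard : ℝ) := by
      intro p hp
      rw [Finset.mem_Icc] at hp
      have hp2 : (p : ℝ) ≤ c0 * d := by
        have h3 : (p : ℝ) ≤ (⌊c0 * d⌋₊ : ℝ) := by exact_mod_cast hp.2
        exact h3.trans (Nat.floor_le (by positivity))
      have h3 := pcnt (n := n) (g := g) (d := d) (p := p) hd (by omega) hp.1
      have h4 := hq d p hp.1 hp2 hdn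
      have h5 := mul_le_mul_of_nonneg_left h4 hfac.le
      refine h3.trans (h5.trans (le_of_eq ?_))
      rw [← hnu]
      ring
    have h3 := Finset.sum_le_sum h2
    rw [Finset.sum_const, Nat.card_Icc, nsmul_eq_mul, Nat.add_sub_cancel] at h3
    have h4 : ((⌊c0 * d⌋₊ : ℕ) : ℝ) ≤ d := by
      refine (Nat.floor_le (by positivity)).trans ?_
      have := mul_le_mul_of_nonneg_right hc01 hd0
      linarith
    have h5 : (d : ℝ) * exp (-c2 * d) ≤ 2 / c2 * exp (-(c2 / 2) * d) := by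
      have h6 : exp (-c2 * d) = exp (-(c2 / 2) * d) * exp (-(c2 / 2) * d) := by
        rw [← exp_add]
        congr 1
        ring
      have h7 : (d : ℝ) * exp (-(c2 / 2) * d) ≤ 2 / c2 := by
        have h8 := Real.add_one_le_exp (c2 / 2 * d)
        have h9 : exp (-(c2 / 2) * d) * exp (c2 / 2 * d) = 1 := by
          rw [← exp_add]
          simp
        have h10 : 0 < exp (-(c2 / 2) * d) := exp_pos _
        rw [le_div_iff₀ hc2]
        have h11 : (c2 / 2 * d) * exp (-(c2 / 2) * d) ≤ 1 := by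
          rw [← h9]
          rw [mul_comm]
          exact mul_le_mul_of_nonneg_left (by linarith) h10.le
        linarith
      rw [h6, ← mul_assoc]
      exact mul_le_mul_of_nonneg_right h7 (exp_pos _).le
    have hT0 : (0 : ℝ) ≤ ((Trn n g).ncard : ℝ) := Nat.cast_nonneg _
    have hn0 : (0 : ℝ) ≤ n := Nat.cast_nonneg _
    calc _ ≤ _ := h1
      _ ≤ ((⌊c0 * d⌋₊ : ℕ) : ℝ) * (K0 * n * exp (-c2 * d) * ((Trn n g).ncard : ℝ)) := h3
      _ ≤ (d : ℝ) * (K0 * n * exp (-c2 * d) * ((Trn n g).ncard : ℝ)) :=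
          mul_le_mul_of_nonneg_right h4 (by positivity)
      _ = K0 * n * ((Trn n g).ncard : ℝ) * ((d : ℝ) * exp (-c2 * d)) := by ring
      _ ≤ K0 * n * ((Trn n g).ncard : ℝ) * (2 / c2 * exp (-(c2 / 2) * d)) :=
          mul_le_mul_of_nonneg_left h5 (by positivity)
      _ = _ := by ring
  · have h1 : {z : Tri (Fin (6 * n)) × Set (Fin (6 * n)) | z.1 ∈ Trn n g ∧ z.2 ∈ fam (c0 / 3) z.1 ∧
        z.2.ncard = 3 * d} = ∅ := by
      rw [Set.eq_empty_iff_forall_notMem]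
      rintro ⟨T, Y⟩ ⟨-, ⟨-, h3, -⟩, h5⟩
      simp only at h3 h5
      rw [h5, Nat.card_fin] at h3
      omega
    rw [h1, Set.ncard_empty, Nat.cast_zero]
    exact hrhs

end SYS.XP
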