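import Pool.Agent.SYS.XP.PbA
import Pool.Agent.SYS.XP.Cut

/-!
# SYS-XP-PbB: Markov inequality for the volume of the sets with a small boundary
-/

namespace SYS.XP

open Classical SST Real

private theorem gen_sum {α β : Type} [Fintype α] [Fintype β] (S : Set α) (R : α → β → Prop)
    (w : β → ℕ) (M : ℕ) (hw : ∀ T Y, T ∈ S → R T Y → ∃ d ≤ M, w Y = 3 * d) (p : ℕ → Prop)
    (φ : ℕ → ℝ) :
    ∑ T : α, (if T ∈ S then ∑ Y : β, (if R T Y ∧ p (w Y) then φ (w Y) else 0) else 0)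
      = ∑ d ∈ Finset.range (M + 1), (if p (3 * d) then φ (3 * d) else 0) *
        (({z : α × β | z.1 ∈ S ∧ R z.1 z.2 ∧ w z.2 = 3 * d}.ncard : ℕ) : ℝ) := by
  have hN : ∀ d : ℕ, (({z : α × β | z.1 ∈ S ∧ R z.1 z.2 ∧ w z.2 = 3 * d}.ncard : ℕ) : ℝ)
      = ∑ T : α, ∑ Y : β, (if T ∈ S ∧ R T Y ∧ w Y = 3 * d then (1 : ℝ) else 0) := by
    intro d
    rw [← Fintype.sum_prod_type' (f := fun T Y =>
      (if T ∈ S ∧ R T Y ∧ w Y = 3 * d then (1 : ℝ) else 0)), Finset.sum_boole,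
      Set.ncard_eq_toFinset_card', Set.toFinset_ofPred]
  have hR : ∑ d ∈ Finset.range (M + 1), (if p (3 * d) then φ (3 * d) else 0) *
        (({z : α × β | z.1 ∈ S ∧ R z.1 z.2 ∧ w z.2 = 3 * d}.ncard : ℕ) : ℝ)
      = ∑ T : α, ∑ Y : β, ∑ d ∈ Finset.range (M + 1), (if p (3 * d) then φ (3 * d) else 0) *
        (if T ∈ S ∧ R T Y ∧ w Y = 3 * d then (1 : ℝ) else 0) := by
    rw [Finset.sum_congr rfl (fun d _ => by rw [hN d, Finset.mul_sum])]
    rw [Finset.sum_comm]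
    refine Finset.sum_congr rfl fun T _ => ?_
    rw [Finset.sum_congr rfl (fun d _ => by rw [Finset.mul_sum])]
    rw [Finset.sum_comm]
  rw [hR]
  refine Finset.sum_congr rfl fun T _ => ?_
  by_cases hT : T ∈ S
  · rw [if_pos hT]
    refine Finset.sum_congr rfl fun Y _ => ?_
    by_cases hY : R T Y
    · obtain ⟨d0, hd0, hwd⟩ := hw T Y hT hY
      rw [Finset.sum_eq_single d0]
      · simp only [hT, hY, hwd, true_and, and_self, if_true, mul_one]
      · intro d _ hd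
        have : ¬ (w Y = 3 * d) := by omega
        simp [this]
      · intro hd
        exact absurd (Finset.mem_range.2 (by omega)) hd
    · simp [hY]
  · simp [hT]

private theorem lim_aux {a b ε K : ℝ} (ha : 0 < a) (hb : 0 < b) (hε : 0 < ε) (hK : 0 < K) :
    ∀ᶠ x : ℝ in Filter.atTop, K * x * ((2 * x + 1) * exp (-b * x ^ a)) ≤ ε := by
  have h1 := (isLittleO_log_rpow_atTop ha).def (c := b / 3) (by positivity)
  filter_upwards [h1, Filter.eventually_ge_atTop (1 : ℝ),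
    Filter.eventually_ge_atTop (3 * K / ε)] with x h2 h3 h4
  have hx : 0 < x := by linarith
  have hlog : 0 ≤ log x := log_nonneg h3
  have hpow : 0 < x ^ a := rpow_pos_of_pos hx a
  rw [Real.norm_of_nonneg hlog, Real.norm_of_nonneg hpow.le] at h2
  have h5 : exp (-b * x ^ a) ≤ (x ^ 3)⁻¹ := by
    have h6 : exp (-b * x ^ a) ≤ exp (-(3 * log x)) := by
      apply exp_le_exp.2
      nlinarith
    refine h6.trans (le_of_eq ?_)
    rw [exp_neg]
    congr 1
    rw [mul_comm, exp_mul, exp_log hx]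
    norm_cast
  have h7 : K * x * ((2 * x + 1) * exp (-b * x ^ a)) ≤ K * x * ((3 * x) * (x ^ 3)⁻¹) := by
    apply mul_le_mul_of_nonneg_left _ (by positivity)
    apply mul_le_mul (by linarith) h5 (exp_pos _).le (by positivity)
  refine h7.trans ?_
  have h8 : K * x * ((3 * x) * (x ^ 3)⁻¹) = 3 * K / x := by
    field_simp
  rw [h8, div_le_iff₀ hx]
  rw [div_le_iff₀ hε] at h4
  linarith

private theorem tail_le {c2 : ℝ} (h : 0 < c2) {ε : ℝ} (hε : 0 < ε) :
    ∃ s : ℕ, 1 ≤ s ∧ ∀ M : ℕ,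
      ∑ d ∈ Finset.range (M + 1), (if s ≤ d then 3 * (d : ℝ) * exp (-c2 * d) else 0) ≤ ε := by
  have hsum : Summable fun d : ℕ => 3 * (d : ℝ) * exp (-c2 * d) := by
    have h1 := Real.summable_pow_mul_exp_neg_nat_mul 1 h
    have h2 := h1.mul_left 3
    refine h2.congr fun d => ?_
    rw [pow_one]
    ring
  have ht := tendsto_sum_nat_add fun d : ℕ => 3 * (d : ℝ) * exp (-c2 * d)
  obtain ⟨s, hs1, hs2⟩ := ((ht.eventually (gt_mem_nhds hε)).and
    (Filter.eventually_ge_atTop 1)).exists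
  refine ⟨s, hs2, fun M => ?_⟩
  refine le_trans ?_ hs1.le
  rw [← Finset.sum_filter]
  have he : (Finset.range (M + 1)).filter (fun d => s ≤ d) = Finset.Ico s (M + 1) := by
    ext d
    simp only [Finset.mem_filter, Finset.mem_range, Finset.mem_Ico]
    tauto
  rw [he, Finset.sum_Ico_eq_sum_range]
  have h3 : ∑ k ∈ Finset.range (M + 1 - s), 3 * (((s + k : ℕ)) : ℝ) * exp (-c2 * ((s + k : ℕ) : ℝ))
      = ∑ k ∈ Finset.range (M + 1 - s),
        (fun k : ℕ => 3 * (((k + s : ℕ)) : ℝ) * exp (-c2 * ((k + s : ℕ) : ℝ))) k :=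
    Finset.sum_congr rfl fun k _ => by rw [add_comm s k]
  rw [h3]
  refine Summable.sum_le_tsum _ (fun k _ => ?_) ?_
  · positivity
  · exact (summable_nat_add_iff (f := fun d : ℕ => 3 * (d : ℝ) * exp (-c2 * d)) s).2 hsum

private theorem bad_main {n g s : ℕ} {c c2 K η δ L : ℝ} (hn : 1 ≤ n) (hs : 1 ≤ s) (hK : 0 < K)
    (hc2 : 0 < c2) (hη : 0 < η) (hδ : 0 < δ) (hL : 0 < L)
    (hp : ∀ d : ℕ, 1 ≤ d →
      (({z : Tri (Fin (6 * n)) × Set (Fin (6 * n)) | z.1 ∈ Trn n g ∧ z.2 ∈ fam c z.1 ∧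
        z.2.ncard = 3 * d}.ncard : ℕ) : ℝ) ≤ K * n * exp (-c2 * d) * (Trn n g).ncard)
    (ht : ∀ M : ℕ, ∑ d ∈ Finset.range (M + 1),
      (if s ≤ d then 3 * (d : ℝ) * exp (-c2 * d) else 0) ≤ δ * η / K)
    (hl : K * n * ((2 * n + 1) * exp (-(c2 / 3) * L)) ≤ δ / 2) :
    (({T : Tri (Fin (6 * n)) | T ∈ Trn n g ∧ ¬ (vol c s T ≤ η * (6 * n) ∧
        ∀ Y ∈ fam c T, (Y.ncard : ℝ) < L)}.ncard : ℕ) : ℝ) ≤ δ * (Trn n g).ncard := by
  have hn0 : (0 : ℝ) < n := by exact_mod_cast hn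
  letI : Fintype (Tri (Fin (6 * n))) := Fintype.ofFinite _
  set S := Trn n g with hS
  have hA : (0 : ℝ) ≤ (S.ncard : ℝ) := Nat.cast_nonneg _
  have hw : ∀ (T : Tri (Fin (6 * n))) (Y : Set (Fin (6 * n))), T ∈ S → Y ∈ fam c T →
      ∃ d ≤ 2 * n, Y.ncard = 3 * d := by
    intro T Y _ hY
    obtain ⟨d, hd⟩ := fs_three hY.1.fs
    refine ⟨d, ?_, hd⟩
    have h1 : Y.ncard ≤ 6 * n := by
      have := Set.ncard_le_ncard (Set.subset_univ Y) (Set.toFinite _)
      rwa [Set.ncard_univ, Nat.card_fin] at this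
    omega
  set B1 : Set (Tri (Fin (6 * n))) := {T | T ∈ S ∧ η * (6 * n) < vol c s T} with hB1
  set B2 : Set (Tri (Fin (6 * n))) := {T | T ∈ S ∧ ∃ Y ∈ fam c T, L ≤ (Y.ncard : ℝ)} with hB2
  have hcov : {T : Tri (Fin (6 * n)) | T ∈ S ∧ ¬ (vol c s T ≤ η * (6 * n) ∧
        ∀ Y ∈ fam c T, (Y.ncard : ℝ) < L)} ⊆ B1 ∪ B2 := by
    rintro T ⟨hT, hnot⟩
    by_cases h1 : vol c s T ≤ η * (6 * n)
    · right
      refine ⟨hT, ?_⟩
      by_contra h2
      apply hnot
      refine ⟨h1, fun Y hY => ?_⟩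
      by_contra h3
      exact h2 ⟨Y, hY, not_lt.1 h3⟩
    · left
      exact ⟨hT, not_le.1 h1⟩
  have hvol0 : ∀ T : Tri (Fin (6 * n)), 0 ≤ vol c s T := by
    intro T
    unfold vol
    refine Finset.sum_nonneg fun Y _ => ?_
    split_ifs
    · exact Nat.cast_nonneg _
    · exact le_rfl
  have hcard : ∀ B : Set (Tri (Fin (6 * n))), ((B.ncard : ℕ) : ℝ) = ∑ T, if T ∈ B then (1 : ℝ) else 0 := by
    intro B
    rw [Finset.sum_boole, Set.ncard_eq_toFinset_card']
    congr 2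
    ext T
    simp
  -- first part
  have h1 : ((B1.ncard : ℕ) : ℝ) ≤ δ / 2 * S.ncard := by
    have e1 : ((B1.ncard : ℕ) : ℝ) * (η * (6 * n)) ≤ ∑ T : Tri (Fin (6 * n)),
        (if T ∈ S then vol c s T else 0) := by
      rw [hcard, Finset.sum_mul]
      refine Finset.sum_le_sum fun T _ => ?_
      by_cases hT : T ∈ B1
      · rw [if_pos hT, if_pos hT.1, one_mul]
        exact hT.2.le
      · rw [if_neg hT, zero_mul]
        split_ifs
        · exact hvol0 T
        · exact le_rfl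
    have e2 : ∑ T : Tri (Fin (6 * n)), (if T ∈ S then vol c s T else 0)
        = ∑ d ∈ Finset.range (2 * n + 1), (if 3 * s ≤ 3 * d then ((3 * d : ℕ) : ℝ) else 0) *
        (({z : Tri (Fin (6 * n)) × Set (Fin (6 * n)) | z.1 ∈ S ∧ z.2 ∈ fam c z.1 ∧
        z.2.ncard = 3 * d}.ncard : ℕ) : ℝ) :=
      by
        have hg := gen_sum S (fun T Y => Y ∈ fam c T) (fun Y => Y.ncard) (2 * n) hw
          (fun x => 3 * s ≤ x) (fun x => (x : ℝ))
        refine Eq.trans ?_ (hg.trans ?_)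
        · refine Finset.sum_congr rfl fun T _ => ?_
          unfold vol
          by_cases hT : T ∈ S
          · rw [if_pos hT, if_pos hT]
            exact Finset.sum_congr (by ext Y; simp) fun Y _ => by congr
          · rw [if_neg hT, if_neg hT]
        · exact Finset.sum_congr rfl fun d _ => by congr
    have e3 : ∑ d ∈ Finset.range (2 * n + 1), (if 3 * s ≤ 3 * d then ((3 * d : ℕ) : ℝ) else 0) *
        (({z : Tri (Fin (6 * n)) × Set (Fin (6 * n)) | z.1 ∈ S ∧ z.2 ∈ fam c z.1 ∧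
        z.2.ncard = 3 * d}.ncard : ℕ) : ℝ)
        ≤ ∑ d ∈ Finset.range (2 * n + 1), (K * n * S.ncard) *
          (if s ≤ d then 3 * (d : ℝ) * exp (-c2 * d) else 0) := by
      refine Finset.sum_le_sum fun d _ => ?_
      by_cases hd : s ≤ d
      · rw [if_pos (by omega), if_pos hd]
        have := hp d (by omega)
        push_cast
        calc (3 * (d : ℝ)) * _ ≤ (3 * (d : ℝ)) * (K * n * exp (-c2 * d) * S.ncard) :=
              mul_le_mul_of_nonneg_left this (by positivity)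
          _ = _ := by ring
      · rw [if_neg (by omega), if_neg hd]
        simp
    rw [← Finset.mul_sum] at e3
    have e4 : (K * n * S.ncard) * ∑ d ∈ Finset.range (2 * n + 1),
          (if s ≤ d then 3 * (d : ℝ) * exp (-c2 * d) else 0)
        ≤ (K * n * S.ncard) * (δ * η / K) :=
      mul_le_mul_of_nonneg_left (ht (2 * n)) (by positivity)
    have e5 : ((B1.ncard : ℕ) : ℝ) * (η * (6 * n)) ≤ (K * n * S.ncard) * (δ * η / K) :=
      e1.trans (e2.le.trans (e3.trans e4))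
    have e6 : (K * n * S.ncard) * (δ * η / K) = (δ / 6 * S.ncard) * (η * (6 * n)) := by
      field_simp
    rw [e6] at e5
    have e7 := le_of_mul_le_mul_right e5 (by positivity)
    refine e7.trans ?_
    apply mul_le_mul_of_nonneg_right _ hA
    linarith
  have h2 : ((B2.ncard : ℕ) : ℝ) ≤ δ / 2 * S.ncard := by
    have e1 : ((B2.ncard : ℕ) : ℝ) ≤ ∑ T : Tri (Fin (6 * n)), (if T ∈ S then
        ∑ Y : Set (Fin (6 * n)), (if Y ∈ fam c T ∧ L ≤ ((Y.ncard : ℕ) : ℝ) then (1 : ℝ) else 0) else 0) := by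
      rw [hcard]
      refine Finset.sum_le_sum fun T _ => ?_
      by_cases hT : T ∈ B2
      · rw [if_pos hT, if_pos hT.1]
        obtain ⟨_, Y, hY, hYL⟩ := hT
        have := Finset.single_le_sum (f := fun Y : Set (Fin (6 * n)) =>
          (if Y ∈ fam c T ∧ L ≤ ((Y.ncard : ℕ) : ℝ) then (1 : ℝ) else 0))
          (fun Y _ => by split_ifs <;> norm_num) (Finset.mem_univ Y)
        simp only [hY, hYL, and_self, if_true] at this
        exact this
      · rw [if_neg hT]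
        split_ifs
        · exact Finset.sum_nonneg fun Y _ => by split_ifs <;> norm_num
        · exact le_rfl
    have e2 := gen_sum S (fun T Y => Y ∈ fam c T) (fun Y : Set (Fin (6 * n)) => Y.ncard) (2 * n) hw
      (fun x => L ≤ (x : ℝ)) (fun _ => (1 : ℝ))
    have e3 : ∑ d ∈ Finset.range (2 * n + 1), (if L ≤ ((3 * d : ℕ) : ℝ) then (1 : ℝ) else 0) *
        (({z : Tri (Fin (6 * n)) × Set (Fin (6 * n)) | z.1 ∈ S ∧ z.2 ∈ fam c z.1 ∧
        z.2.ncard = 3 * d}.ncard : ℕ) : ℝ)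
        ≤ ∑ d ∈ Finset.range (2 * n + 1), (K * n * exp (-(c2 / 3) * L) * S.ncard) := by
      refine Finset.sum_le_sum fun d _ => ?_
      by_cases hd : L ≤ ((3 * d : ℕ) : ℝ)
      · rw [if_pos hd, one_mul]
        have hd1 : 1 ≤ d := by
          by_contra h0
          have : d = 0 := by omega
          subst this
          simp at hd
          linarith
        refine (hp d hd1).trans ?_
        apply mul_le_mul_of_nonneg_right _ hA
        apply mul_le_mul_of_nonneg_left _ (by positivity)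
        apply exp_le_exp.2
        push_cast at hd
        nlinarith
      · rw [if_neg hd, zero_mul]
        positivity
    rw [Finset.sum_const, Finset.card_range, nsmul_eq_mul] at e3
    have e4 : ((2 * n + 1 : ℕ) : ℝ) * (K * n * exp (-(c2 / 3) * L) * S.ncard)
        = K * n * ((2 * n + 1) * exp (-(c2 / 3) * L)) * S.ncard := by
      push_cast
      ring
    rw [e4] at e3
    refine e1.trans (e2.le.trans (e3.trans ?_))
    exact mul_le_mul_of_nonneg_right hl hA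
  have h3 : (({T : Tri (Fin (6 * n)) | T ∈ S ∧ ¬ (vol c s T ≤ η * (6 * n) ∧
        ∀ Y ∈ fam c T, (Y.ncard : ℝ) < L)}.ncard : ℕ) : ℝ) ≤ B1.ncard + B2.ncard := by
    have := (Set.ncard_le_ncard hcov (Set.toFinite _)).trans (Set.ncard_union_le B1 B2)
    exact_mod_cast this
  linarith

theorem bad_le {θ x : ℝ} (h : Num.Par θ x) : ∃ c : ℝ, 0 < c ∧ c ≤ 1 ∧ ∀ η δ : ℝ, 0 < η → 0 < δ →
    ∃ s : ℕ, 1 ≤ s ∧ ∀ e : ℝ, 0 < e → e < 1 / 2 → ∀ᶠ q in RB.Fth θ,
      (({T : Tri (Fin (6 * q.1)) | T ∈ Trn q.1 q.2 ∧ ¬ (vol c s T ≤ η * (6 * q.1) ∧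
        ∀ Y ∈ fam c T, (Y.ncard : ℝ) < (q.1 : ℝ) ^ (1 - 2 * e))}.ncard : ℕ) : ℝ) ≤ δ * (Trn q.1 q.2).ncard := by
  obtain ⟨c, c2, K, hc, hc1, hc2, hK, hev⟩ := pairs_le h
  refine ⟨c, hc, hc1, fun η δ hη hδ => ?_⟩
  obtain ⟨s, hs, hs2⟩ := tail_le hc2 (ε := δ * η / K) (by positivity)
  refine ⟨s, hs, fun e he he2 => ?_⟩
  have hq : Filter.Tendsto (fun q : ℕ × ℕ => q.1) (RB.Fth θ) Filter.atTop :=
    Filter.tendsto_comap.mono_left inf_le_left
  have hqr : Filter.Tendsto (fun q : ℕ × ℕ => (q.1 : ℝ)) (RB.Fth θ) Filter.atTop :=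
    tendsto_natCast_atTop_atTop.comp hq
  have hl := hqr.eventually (lim_aux (a := 1 - 2 * e) (b := c2 / 3) (ε := δ / 2) (K := K)
    (by linarith) (by positivity) (by positivity) hK)
  filter_upwards [hev, hq.eventually (Filter.eventually_ge_atTop 1), hl] with q h1 h2 h3
  have hq0 : (0 : ℝ) < q.1 := by exact_mod_cast h2
  exact bad_main h2 hs hK hc2 hη hδ (rpow_pos_of_pos hq0 _) h1 hs2 h3

end SYS.XP
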