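import Pool.Agent.SYS.XP.SCnt

/-!
# SYS-XP-SumE: `ss_cnt` and `ss_euler` without the condition that there is room for the holes
-/

namespace SYS.XP

open Classical SST

variable {D : Type} [Finite D]

/-- the region `S` in a larger set of darts -/
private noncomputable def sumE (S : Part D) (E : Type) : Part (D ⊕ E) where
  a := Equiv.Perm.sumCongr S.a 1
  f := Equiv.Perm.sumCongr S.f 1
  aa := by
    rintro (d | e)
    · show Sum.inl (S.a (S.a d)) = Sum.inl d
      rw [S.aa]
    · rfl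
  fff := by
    rintro (d | e)
    · show Sum.inl (S.f (S.f (S.f d))) = Sum.inl d
      rw [S.fff]
    · rfl
  af := by
    rintro (d | e) h
    · show Sum.inl (S.a d) = Sum.inl d
      rw [S.af d (Sum.inl_injective h)]
    · rfl

section
variable (S : Part D) (E : Type)

private theorem sumE_a_inl (d : D) : (sumE S E).a (Sum.inl d) = Sum.inl (S.a d) := rfl

private theorem sumE_f_inl (d : D) : (sumE S E).f (Sum.inl d) = Sum.inl (S.f d) := rfl

private theorem sumE_R : (sumE S E).R = Sum.inl '' S.R := by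
  ext x
  constructor
  · intro h
    rcases x with d | e
    · exact ⟨d, fun h' => h (by rw [sumE_f_inl, h']), rfl⟩
    · exact absurd rfl h
  · rintro ⟨d, hd, rfl⟩ h
    exact hd (Sum.inl_injective h)

private theorem sumE_B : (sumE S E).B = Sum.inl '' S.B := by
  ext x
  constructor
  · rintro ⟨h1, h2⟩
    rcases x with d | e
    · exact ⟨d, ⟨fun h' => h1 (by rw [sumE_f_inl, h']), Sum.inl_injective h2⟩, rfl⟩
    · exact absurd rfl h1
  · rintro ⟨d, ⟨h1, h2⟩, rfl⟩
    exact ⟨fun h => h1 (Sum.inl_injective h), by rw [sumE_a_inl, h2]⟩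

private theorem sumE_mem_B (d : D) : (Sum.inl d : D ⊕ E) ∈ (sumE S E).B ↔ d ∈ S.B := by
  rw [sumE_B]
  exact Function.Injective.mem_set_image Sum.inl_injective

private theorem sumE_s : (sumE S E).s = Equiv.Perm.sumCongr S.s 1 := by
  ext x
  rcases x with d | e
  · rfl
  · rfl

private theorem sumE_zpow (i : ℤ) (d : D) : ((sumE S E).s ^ i) (Sum.inl d) = Sum.inl ((S.s ^ i) d) := by
  rw [sumE_s]
  have h : Equiv.Perm.sumCongr S.s (1 : Equiv.Perm E) = Equiv.Perm.sumCongrHom D E (S.s, 1) := rfl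
  rw [h, ← map_zpow]
  rfl

private theorem sumE_same (d e : D) :
    (sumE S E).s.SameCycle (Sum.inl d) (Sum.inl e) ↔ S.s.SameCycle d e := by
  unfold Equiv.Perm.SameCycle
  constructor
  · rintro ⟨i, hi⟩
    rw [sumE_zpow] at hi
    exact ⟨i, Sum.inl_injective hi⟩
  · rintro ⟨i, hi⟩
    exact ⟨i, by rw [sumE_zpow, hi]⟩

private theorem sumE_per (d : D) : (sumE S E).per (Sum.inl d) = S.per d := by
  unfold Part.per
  have h : (sumE S E).hole (Sum.inl d) = Sum.inl '' S.hole d := by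
    ext x
    constructor
    · rintro ⟨h1, h2⟩
      have h3 := h1
      rw [sumE_B] at h3
      obtain ⟨e, he, rfl⟩ := h3
      exact ⟨e, ⟨he, (sumE_same S E d e).1 h2⟩, rfl⟩
    · rintro ⟨e, ⟨h1, h2⟩, rfl⟩
      exact ⟨(sumE_mem_B S E e).2 h1, (sumE_same S E d e).2 h2⟩
  rw [h, Set.ncard_image_of_injective _ Sum.inl_injective]

private theorem sumE_map_per (l : List D) :
    (l.map Sum.inl).map (sumE S E).per = l.map S.per := by
  rw [List.map_map]
  exact List.map_congr_left fun d _ => sumE_per S E d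

private theorem sumE_cn {d e : D} (h : S.Cn d e) : (sumE S E).Cn (Sum.inl d) (Sum.inl e) := by
  unfold Part.Cn at h
  induction h with
  | rel a b hab =>
    rcases hab with rfl | rfl
    · exact Part.cn_a (sumE S E) (Sum.inl a)
    · exact Part.cn_f (sumE S E) (Sum.inl a)
  | refl a => exact Part.cn_refl _ _
  | symm a b _ ih => exact Part.cn_symm ih
  | trans a b c _ _ ih1 ih2 => exact Part.cn_trans ih1 ih2

private theorem sumE_con (h : S.Con) : (sumE S E).Con := by
  intro x hx y hy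
  rw [sumE_R] at hx hy
  obtain ⟨d, hd, rfl⟩ := hx
  obtain ⟨e, he, rfl⟩ := hy
  exact sumE_cn S E (h d hd e he)

private theorem sumE_hl {l : List D} (h : S.HL l) [Finite E] : (sumE S E).HL (l.map Sum.inl) := by
  obtain ⟨h1, h2, h3⟩ := h
  refine ⟨?_, ?_, ?_⟩
  · intro x hx
    obtain ⟨d, hd, rfl⟩ := List.mem_map.1 hx
    exact (sumE_mem_B S E d).2 (h1 d hd)
  · rw [List.pairwise_map]
    exact h2.imp fun {a b} hab h' => hab ((sumE_same S E a b).1 h')
  · intro x hx
    rw [sumE_B] at hx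
    obtain ⟨d, hd, rfl⟩ := hx
    obtain ⟨e, he, hed⟩ := h3 d hd
    exact ⟨Sum.inl e, List.mem_map_of_mem he, (sumE_same S E e d).2 hed⟩

private theorem sumE_img {α β γ : Type} (X : Set α) (f : α → β) (g : α → γ)
    (h : ∀ a ∈ X, ∀ b ∈ X, f a = f b ↔ g a = g b) : (f '' X).ncard = (g '' X).ncard := by
  have h1 : (Prod.fst '' ((fun a => (f a, g a)) '' X)).ncard = ((fun a => (f a, g a)) '' X).ncard := by
    apply Set.ncard_image_of_injOn
    rintro _ ⟨a, ha, rfl⟩ _ ⟨b, hb, rfl⟩ hab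
    exact Prod.ext hab ((h a ha b hb).1 hab)
  have h2 : (Prod.snd '' ((fun a => (f a, g a)) '' X)).ncard = ((fun a => (f a, g a)) '' X).ncard := by
    apply Set.ncard_image_of_injOn
    rintro _ ⟨a, ha, rfl⟩ _ ⟨b, hb, rfl⟩ hab
    exact Prod.ext ((h a ha b hb).2 hab) hab
  rw [Set.image_image] at h1 h2
  exact h1.trans h2.symm

private theorem sumE_ncycOn (X : Set D) :
    ncycOn (sumE S E).s (Sum.inl '' X) = ncycOn S.s X := by
  unfold ncycOn
  have h1 : {q : Quotient (Equiv.Perm.SameCycle.setoid (sumE S E).s) |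
      ∃ d ∈ (Sum.inl '' X : Set (D ⊕ E)), Quotient.mk _ d = q} =
      (fun d : D => (Quotient.mk (Equiv.Perm.SameCycle.setoid (sumE S E).s) (Sum.inl d))) '' X := by
    ext q
    constructor
    · rintro ⟨_, ⟨d, hd, rfl⟩, hq⟩
      exact ⟨d, hd, hq⟩
    · rintro ⟨d, hd, hq⟩
      exact ⟨_, ⟨d, hd, rfl⟩, hq⟩
  have h2 : {q : Quotient (Equiv.Perm.SameCycle.setoid S.s) | ∃ d ∈ X, Quotient.mk _ d = q} =
      (fun d : D => (Quotient.mk (Equiv.Perm.SameCycle.setoid S.s) d)) '' X := rfl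
  rw [h1, h2]
  refine sumE_img X _ _ fun a _ b _ => ?_
  constructor
  · intro h
    exact Quotient.sound ((sumE_same S E a b).1 (Quotient.exact h))
  · intro h
    exact Quotient.sound ((sumE_same S E a b).2 (Quotient.exact h))

private theorem sumE_inn [Finite E] : (sumE S E).inn = S.inn := by
  have h1 := Part.inn_eq (sumE S E)
  have h2 := Part.inn_eq S
  rw [sumE_B, sumE_R, sumE_ncycOn, sumE_ncycOn] at h1
  omega

private theorem sumE_room (m : ℕ) (X : Set D) :
    m ≤ ((Sum.inl '' X : Set (D ⊕ Fin m))ᶜ).ncard := by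
  have h1 : (Set.range (Sum.inr : Fin m → D ⊕ Fin m)) ⊆ (Sum.inl '' X : Set (D ⊕ Fin m))ᶜ := by
    rintro _ ⟨e, rfl⟩ ⟨d, _, hd⟩
    exact absurd hd (by simp)
  have h2 := Set.ncard_le_ncard h1 (Set.toFinite _)
  rw [← Set.image_univ, Set.ncard_image_of_injective _ Sum.inr_injective, Set.ncard_univ,
    Nat.card_eq_fintype_card, Fintype.card_fin] at h2
  exact h2

end

theorem ss_euler_free {S : Part D} (hS : S.Con) {d : ℕ} (hd : S.R.ncard = 3 * d) (hR : S.R.Nonempty)
    {l : List D} (hl : S.HL l) :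
    ∃ h : ℕ, 2 * S.inn + (l.map S.per).sum + 4 * h + 2 * l.length = 4 + d := by
  have h1 := ss_euler (S := sumE S (Fin S.B.ncard)) (sumE_con S _ hS) (d := d)
    (by rw [sumE_R, Set.ncard_image_of_injective _ Sum.inl_injective]; exact hd)
    (by rw [sumE_R]; exact hR.image _)
    (by
      rw [sumE_R, sumE_B, Set.ncard_image_of_injective _ Sum.inl_injective]
      exact sumE_room _ _)
    (sumE_hl S (Fin S.B.ncard) hl)
  rw [sumE_map_per, sumE_inn, List.length_map] at h1
  exact h1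

theorem ss_cnt_free {W : Set D} {d : ℕ} (hd : W.ncard = 3 * d) (hW : W.Nonempty) {P : Multiset ℕ}
    (hP : ∀ p ∈ P, 1 ≤ p) (h : ℕ) :
    (((SS W d P h).ncard : ℕ) : ℝ) ≤ ((3 * d).factorial : ℝ) * Num.muG P d h := by
  have h1 : (SS W d P h).ncard ≤ (SS (Sum.inl '' W : Set (D ⊕ Fin P.sum)) d P h).ncard := by
    refine Set.ncard_le_ncard_of_injOn (fun S => sumE S (Fin P.sum)) ?_ ?_ (Set.toFinite _)
    · rintro S ⟨g1, g2, ⟨l, g3, g4⟩, g5⟩
      refine ⟨by rw [sumE_R, g1], sumE_con S _ g2, ⟨l.map Sum.inl, sumE_hl S _ g3, ?_⟩, ?_⟩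
      · rw [sumE_map_per]
        exact g4
      · rw [sumE_inn]
        exact g5
    · intro S _ S' _ hSS
      have e1 : (sumE S (Fin P.sum)).a = (sumE S' (Fin P.sum)).a := congrArg Part.a hSS
      have e2 : (sumE S (Fin P.sum)).f = (sumE S' (Fin P.sum)).f := congrArg Part.f hSS
      refine Part.ext' (Equiv.ext fun d => ?_) (Equiv.ext fun d => ?_)
      · have e3 := congrArg (fun p : Equiv.Perm (D ⊕ Fin P.sum) => p (Sum.inl d)) e1
        exact Sum.inl_injective e3
      · have e3 := congrArg (fun p : Equiv.Perm (D ⊕ Fin P.sum) => p (Sum.inl d)) e2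
        exact Sum.inl_injective e3
  have h2 := ss_cnt (W := (Sum.inl '' W : Set (D ⊕ Fin P.sum))) (d := d)
    (by rw [Set.ncard_image_of_injective _ Sum.inl_injective]; exact hd) (hW.image _) hP
    (sumE_room _ _) h
  exact le_trans (by exact_mod_cast h1) h2

end SYS.XP
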